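import Pool.Agent.RG1.Rep

/-!
# The equations for short alternating products

`x₁ j ^ b₁ x₂ j ^ b₂ ⋯ = t ^ c` with `x₁, x₂, …` in the subgroup generated by `t` and `i`.
-/

set_option autoImplicit false

namespace Pool.Agent.RG1

open Pool.Agent.Helper54.LA Pool.Agent.Helper13.LT

/-- The number `1 + s + ⋯ + s ^ (b - 1)`. -/
noncomputable def be (s : ℝ) (b : ℤ) : ℝ := if s = 1 then (b : ℝ) else (1 - s ^ b) / (1 - s)

/-- The functional of `j`. -/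
def fJ (s μ : ℝ) (v : V3) : ℝ := -(μ * s * v.2.1) + (1 - s) * v.2.2

/-- The vector which is fixed by `t` and `i`. -/
def nn (s ν : ℝ) : V3 := (s, s - 1, ν * s + (1 - s) ^ 2)

section be

theorem be_one (b : ℤ) : be 1 b = b := if_pos rfl

theorem be_of_ne {s : ℝ} (h : s ≠ 1) (b : ℤ) : be s b = (1 - s ^ b) / (1 - s) := if_neg h

theorem be_zero (s : ℝ) : be s 0 = 0 := by
  rw [be]
  split_ifs with h
  · norm_num
  · rw [zpow_zero, sub_self, zero_div]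

theorem be_add {s : ℝ} (hs : s ≠ 0) (a b : ℤ) : be s (a + b) = be s a + be s b - (1 - s) * be s a * be s b := by
  by_cases h : s = 1
  · rw [h, be_one, be_one, be_one]
    push_cast
    ring
  · have h1 : (1 - s) ≠ 0 := sub_ne_zero.2 (Ne.symm h)
    rw [be_of_ne h, be_of_ne h, be_of_ne h, zpow_add₀ hs]
    field_simp
    ring

theorem be_one' {s : ℝ} : be s 1 = 1 := by
  by_cases h : s = 1
  · rw [h, be_one]
    norm_num
  · have h1 : (1 - s) ≠ 0 := sub_ne_zero.2 (Ne.symm h)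
    rw [be_of_ne h, zpow_one, div_self h1]

theorem be_neg_one {s : ℝ} (hs : s ≠ 0) : be s (-1) = - s⁻¹ := by
  by_cases h : s = 1
  · rw [h, be_one]
    norm_num
  · have h1 : (1 - s) ≠ 0 := sub_ne_zero.2 (Ne.symm h)
    rw [be_of_ne h, zpow_neg_one]
    field_simp
    ring

theorem be_ne_zero {s : ℝ} (hs : 0 < s) {b : ℤ} (hb : b ≠ 0) : be s b ≠ 0 := by
  by_cases h : s = 1
  · rw [h, be_one]
    exact_mod_cast hb
  · have h1 : (1 - s) ≠ 0 := sub_ne_zero.2 (Ne.symm h)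
    rw [be_of_ne h]
    refine div_ne_zero (sub_ne_zero.2 fun h2 => hb ?_) h1
    have h3 := zpow_right_injective₀ hs h
    exact h3 (by
      change s ^ b = s ^ (0 : ℤ)
      rw [zpow_zero, ← h2])

end be

section

variable {s : ℝ} (hs : s ≠ 0) (ν μ : ℝ)

theorem mJ_zpow (b : ℤ) (v : V3) : (mJ hs μ ^ b) v = (v.1, v.2.1, v.2.2 - be s b * fJ s μ v) := by
  have key1 : ∀ v : V3, mJ hs μ v = (v.1, v.2.1, v.2.2 - fJ s μ v) := by
    rintro ⟨x, y, z⟩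
    rw [mJ_apply]
    simp only [fJ, Prod.mk.injEq, true_and]
    ring
  have key2 : ∀ v : V3, (mJ hs μ)⁻¹ v = (v.1, v.2.1, v.2.2 + s⁻¹ * fJ s μ v) := by
    rintro ⟨x, y, z⟩
    change (x, y, s⁻¹ * z - μ * y) = _
    simp only [fJ, Prod.mk.injEq, true_and]
    field_simp
    ring
  induction b using Int.induction_on generalizing v with
  | zero =>
    rw [zpow_zero, one_app, be_zero, zero_mul, sub_zero]
  | succ b ih =>
    rw [zpow_add_one, mul_app, ih, key1, be_add hs, be_one']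
    simp only [fJ, Prod.mk.injEq, true_and]
    ring
  | pred b ih =>
    rw [zpow_sub_one, mul_app, ih, key2, sub_eq_add_neg (-(b : ℤ)) 1, be_add hs, be_neg_one hs]
    simp only [fJ, Prod.mk.injEq, true_and]
    field_simp
    ring

theorem fJ_nn : fJ s μ (nn s ν) = (1 - s) * (μ * s + (ν * s + (1 - s) ^ 2)) := by
  simp only [fJ, nn]
  ring

theorem mT_nn : mT hs (nn s ν) = nn s ν := by
  rw [nn, mT_apply]
  simp only [Prod.mk.injEq, and_true]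
  ring

theorem mI_nn : mI hs ν (nn s ν) = nn s ν := by
  rw [nn, mI_apply]
  simp only [Prod.mk.injEq, and_true, true_and]
  ring

/-- The automorphisms which fix the last coordinate and a vector. -/
def fixS (n : V3) : Subgroup G3 where
  carrier := {g | (∀ v, (g v).2.2 = v.2.2) ∧ g n = n}
  one_mem' := ⟨fun _ => rfl, rfl⟩
  mul_mem' {f g} hf hg := ⟨fun v => by rw [mul_app, hf.1, hg.1], by rw [mul_app, hg.2, hf.2]⟩
  inv_mem' {g} hg := by
    have h1 : ∀ v, g (g⁻¹ v) = v := fun v => by rw [← mul_app, mul_inv_cancel, one_app]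
    have h2 : ∀ v, g⁻¹ (g v) = v := fun v => by rw [← mul_app, inv_mul_cancel, one_app]
    refine ⟨fun v => ?_, ?_⟩
    · rw [← hg.1 (g⁻¹ v), h1]
    · have h3 := h2 n
      rwa [hg.2] at h3

end

section hom

variable {A : Type} [Group A] {t i j : A} {s ν μ : ℝ} {hs : s ≠ 0} {ρ : A →* G3}

theorem fix_of_mem (ht : ρ t = mT hs) (hi : ρ i = mI hs ν) {x : A} (hx : x ∈ Subgroup.closure {t, i}) :
    (∀ v, (ρ x v).2.2 = v.2.2) ∧ ρ x (nn s ν) = nn s ν := by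
  have h1 : Subgroup.closure {t, i} ≤ (fixS (nn s ν)).comap ρ := by
    rw [Subgroup.closure_le]
    rintro _ (rfl | rfl)
    · rw [SetLike.mem_coe, Subgroup.mem_comap, ht]
      exact ⟨fun _ => rfl, mT_nn hs ν⟩
    · rw [SetLike.mem_coe, Subgroup.mem_comap, hi]
      exact ⟨fun _ => rfl, mI_nn hs ν⟩
  exact h1 hx

theorem t_mem {A : Type} [Group A] {t i : A} (c : ℤ) : t ^ c ∈ Subgroup.closure ({t, i} : Set A) := by
  have h1 : t ∈ Subgroup.closure ({t, i} : Set A) := Subgroup.subset_closure (Set.mem_insert _ _)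
  exact zpow_mem h1 c

theorem rho_j (hj : ρ j = mJ hs μ) (b : ℤ) (v : V3) :
    ρ (j ^ b) v = (v.1, v.2.1, v.2.2 - be s b * fJ s μ v) := by
  rw [map_zpow, hj, mJ_zpow]

theorem fJ_nn_ne (hs0 : 0 < s) (hs1 : s ≠ 1) (hν : 0 < ν) (hμ : 0 < μ) : fJ s μ (nn s ν) ≠ 0 := by
  rw [fJ_nn]
  have h1 : 0 < μ * s + (ν * s + (1 - s) ^ 2) := by positivity
  exact mul_ne_zero (sub_ne_zero.2 (Ne.symm hs1)) h1.ne'

/-- One syllable `j ^ b`. -/
theorem eq_one (hs0 : 0 < s) (hs1 : s ≠ 1) (hν : 0 < ν) (hμ : 0 < μ) (ht : ρ t = mT hs) (hi : ρ i = mI hs ν)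
    (hj : ρ j = mJ hs μ) {x1 : A} (h1 : x1 ∈ Subgroup.closure {t, i}) {b1 c : ℤ} (h : x1 * j ^ b1 = t ^ c) :
    b1 = 0 := by
  by_contra hb
  have e1 := congrArg (fun g => (ρ g (nn s ν)).2.2) h
  simp only [map_mul, mul_app] at e1
  rw [(fix_of_mem ht hi h1).1, (fix_of_mem ht hi (t_mem c)).1, rho_j hj] at e1
  have e2 : be s b1 * fJ s μ (nn s ν) = 0 := by
    have e3 : (nn s ν).2.2 - be s b1 * fJ s μ (nn s ν) = (nn s ν).2.2 := e1
    linarith
  rcases mul_eq_zero.1 e2 with e3 | e3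
  · exact be_ne_zero hs0 hb e3
  · exact fJ_nn_ne hs0 hs1 hν hμ e3

/-- Two syllables `j ^ b`. -/
theorem eq_two (ht : ρ t = mT hs) (hi : ρ i = mI hs ν) (hj : ρ j = mJ hs μ) {x1 x2 : A}
    (h1 : x1 ∈ Subgroup.closure {t, i}) (h2 : x2 ∈ Subgroup.closure {t, i}) {b1 b2 c : ℤ}
    (h : x1 * j ^ b1 * x2 * j ^ b2 = t ^ c) (v : V3) :
    be s b1 * fJ s μ (ρ x2 v) = be s (-b2) * fJ s μ v := by
  have h' : x1 * (j ^ b1 * x2) = t ^ c * j ^ (-b2) := by
    rw [← h, zpow_neg]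
    group
  have e1 := congrArg (fun g => (ρ g v).2.2) h'
  simp only [map_mul, mul_app] at e1
  rw [(fix_of_mem ht hi h1).1, (fix_of_mem ht hi (t_mem c)).1, rho_j hj, rho_j hj] at e1
  have e2 : (ρ x2 v).2.2 - be s b1 * fJ s μ (ρ x2 v) = v.2.2 - be s (-b2) * fJ s μ v := e1
  rw [(fix_of_mem ht hi h2).1] at e2
  linarith

/-- Two syllables `j ^ b`, the case `s ≠ 1`. -/
theorem eq_two' (hs0 : 0 < s) (hs1 : s ≠ 1) (hν : 0 < ν) (hμ : 0 < μ) (ht : ρ t = mT hs) (hi : ρ i = mI hs ν)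
    (hj : ρ j = mJ hs μ) {x1 x2 : A} (h1 : x1 ∈ Subgroup.closure {t, i})
    (h2 : x2 ∈ Subgroup.closure {t, i}) {b1 b2 c : ℤ} (hb : b1 ≠ 0)
    (h : x1 * j ^ b1 * x2 * j ^ b2 = t ^ c) (v : V3) : (ρ x2 v).2.1 = v.2.1 := by
  have e1 := eq_two ht hi hj h1 h2 h (nn s ν)
  rw [(fix_of_mem ht hi h2).2] at e1
  have e2 := mul_right_cancel₀ (fJ_nn_ne hs0 hs1 hν hμ) e1
  have e3 := eq_two ht hi hj h1 h2 h v
  rw [← e2] at e3
  have e4 := mul_left_cancel₀ (be_ne_zero hs0 hb) e3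
  simp only [fJ] at e4
  rw [(fix_of_mem ht hi h2).1] at e4
  have e5 : μ * s * ((ρ x2 v).2.1 - v.2.1) = 0 := by linarith
  rcases mul_eq_zero.1 e5 with e6 | e6
  · exact absurd e6 (mul_pos hμ hs0).ne'
  · linarith

/-- Three syllables `j ^ b`. -/
theorem eq_three (hs0 : 0 < s) (hs1 : s ≠ 1) (hν : 0 < ν) (hμ : 0 < μ) (ht : ρ t = mT hs) (hi : ρ i = mI hs ν)
    (hj : ρ j = mJ hs μ) {x1 x2 x3 : A} (h1 : x1 ∈ Subgroup.closure {t, i})
    (h2 : x2 ∈ Subgroup.closure {t, i}) (h3 : x3 ∈ Subgroup.closure {t, i}) {b1 b2 b3 c : ℤ}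
    (h : x1 * j ^ b1 * x2 * j ^ b2 * x3 * j ^ b3 = t ^ c) :
    be s (b1 + b2) - be s (-b3) = -(μ * (s * be s b1 * be s b2 * (ρ x2 (0, 0, 1)).2.1)) := by
  have h' : x1 * (j ^ b1 * (x2 * (j ^ b2 * x3))) = t ^ c * j ^ (-b3) := by
    rw [← h, zpow_neg]
    group
  have e1 := congrArg (fun g => (ρ g (nn s ν)).2.2) h'
  simp only [map_mul, mul_app] at e1
  rw [(fix_of_mem ht hi h1).1, (fix_of_mem ht hi (t_mem c)).1, (fix_of_mem ht hi h3).2, rho_j hj (-b3),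
    rho_j hj b1, rho_j hj b2] at e1
  have e0 : ((nn s ν).1, (nn s ν).2.1, (nn s ν).2.2 - be s b2 * fJ s μ (nn s ν)) =
      nn s ν - (be s b2 * fJ s μ (nn s ν)) • ((0, 0, 1) : V3) := by
    ext
    · simp
    · simp
    · simp
  rw [e0, map_sub, map_smul, (fix_of_mem ht hi h2).2] at e1
  obtain ⟨u, hu⟩ : ∃ u, ρ x2 (0, 0, 1) = u := ⟨_, rfl⟩
  have hu3 : u.2.2 = 1 := by rw [← hu, (fix_of_mem ht hi h2).1]
  rw [hu] at e1 ⊢
  have hF := fJ_nn_ne hs0 hs1 hν hμ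
  have e2 : fJ s μ (nn s ν - (be s b2 * fJ s μ (nn s ν)) • u) =
      fJ s μ (nn s ν) - be s b2 * fJ s μ (nn s ν) * (-(μ * s * u.2.1) + (1 - s)) := by
    have e3 : (nn s ν - (be s b2 * fJ s μ (nn s ν)) • u).2.1 =
        (nn s ν).2.1 - be s b2 * fJ s μ (nn s ν) * u.2.1 := rfl
    have e4 : (nn s ν - (be s b2 * fJ s μ (nn s ν)) • u).2.2 =
        (nn s ν).2.2 - be s b2 * fJ s μ (nn s ν) * u.2.2 := rfl
    rw [fJ, e3, e4, hu3]
    rw [fJ]
    ring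
  have e4 : (nn s ν - (be s b2 * fJ s μ (nn s ν)) • u).2.2 =
      (nn s ν).2.2 - be s b2 * fJ s μ (nn s ν) * u.2.2 := rfl
  have e5 : (nn s ν).2.2 - be s b2 * fJ s μ (nn s ν) * u.2.2 - be s b1 * (fJ s μ (nn s ν) -
      be s b2 * fJ s μ (nn s ν) * (-(μ * s * u.2.1) + (1 - s))) =
      (nn s ν).2.2 - be s (-b3) * fJ s μ (nn s ν) := by
    rw [← e2, ← e4]
    exact e1
  rw [hu3] at e5
  rw [be_add hs]
  refine mul_left_cancel₀ hF ?_
  linear_combination (-1 : ℝ) * e5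

end hom

end Pool.Agent.RG1
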