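import Pool.Agent.RG1.Step2

/-!
# The final class
-/

set_option autoImplicit false

namespace Pool.Agent.RG1

open Pool.Agent.Helper54.LA Pool.Agent.Helper54.EV Pool.Agent.Helper29.BA Pool.Agent.Helper13.LT
  Pool.Agent.Helper29.PA Pool.Agent.Helper3.FJ Pool.Agent.Helper9.EV Pool.Agent.Helper9.TD
  Pool.Agent.Helper83.EV Pool.Agent.AIR Pool.Agent.BR3

open scoped MatrixGroups

variable {C : ∀ (G : Type) [Group G], Prop}

/-- `T` contains three elements such that `1 / p + 1 / q + 1 / r ≤ 1`, where `p`, `q`, `r` are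
the labels of the pairs; each of them may be the label only if `T` without the third
element is sparse, and otherwise it is replaced by `2`. -/
def Red {S : Type} (M : CoxeterMatrix S) (T : Set S) : Prop :=
  ∃ i ∈ T, ∃ j ∈ T, ∃ k ∈ T, i ≠ j ∧ j ≠ k ∧ i ≠ k ∧ ∃ p q r : ℕ,
    (p = 2 ∨ p = M j k ∧ Sparse M (T \ {i})) ∧ (q = 2 ∨ q = M i k ∧ Sparse M (T \ {j})) ∧
      (r = 2 ∨ r = M i j ∧ Sparse M (T \ {k})) ∧ (1 : ℚ) / p + 1 / q + 1 / r ≤ 1

/-- Each finite irreducible set of at least four generators without infinite labels satisfies the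
condition above, or its Artin group is in the class. -/
def Good6 (C : ∀ (G : Type) [Group G], Prop) {S : Type} (M : CoxeterMatrix S) : Prop :=
  ∀ T : Set S, T.Finite → 4 ≤ T.ncard → Irr M T → (∀ s ∈ T, ∀ t ∈ T, M s t ≠ 0) →
    C (ArtinGroup (res M T)) ∨ Red M T

theorem Red.res {S : Type} {M : CoxeterMatrix S} {U : Set S} {T : Set U}
    (h : Red M (Subtype.val '' T)) : Red (Pool.Agent.Helper54.LA.res M U) T := by
  obtain ⟨_, ⟨i, hi, rfl⟩, _, ⟨j, hj, rfl⟩, _, ⟨k, hk, rfl⟩, hij, hjk, hik, p, q, r, h1, h2, h3,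
    h4⟩ := h
  have key : ∀ x : U, (Subtype.val '' (T \ {x}) : Set S) ⊆ Subtype.val '' T \ {x.1} := by
    rintro x _ ⟨y, hy, rfl⟩
    exact ⟨⟨y, hy.1, rfl⟩, fun e => hy.2 (Subtype.ext e)⟩
  exact ⟨i, hi, j, hj, k, hk, fun e => hij (congrArg Subtype.val e),
    fun e => hjk (congrArg Subtype.val e), fun e => hik (congrArg Subtype.val e), p, q, r,
    h1.imp id fun h => ⟨h.1, (h.2.mono (key i)).res⟩, h2.imp id fun h => ⟨h.1, (h.2.mono (key j)).res⟩,
    h3.imp id fun h => ⟨h.1, (h.2.mono (key k)).res⟩, h4⟩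

theorem Good6.res {S : Type} {M : CoxeterMatrix S} (hC : ClosedClass C) (h : Good6 C M)
    (Y : Set S) : Good6 C (Pool.Agent.Helper54.LA.res M Y) := by
  intro T hT hc hi h0
  have hn : (Subtype.val '' T : Set S).ncard = T.ncard :=
    Set.ncard_image_of_injective _ Subtype.val_injective
  rcases h (Subtype.val '' T) (hT.image _) (by rw [hn]; exact hc) (irr_image hi) (by
    rintro _ ⟨s, hs, rfl⟩ _ ⟨t, ht, rfl⟩
    exact h0 s hs t ht) with h1 | h1
  · obtain ⟨φ⟩ := artinCongr (M := Pool.Agent.Helper54.LA.res (Pool.Agent.Helper54.LA.res M Y) T)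
      (M' := Pool.Agent.Helper54.LA.res M (Subtype.val '' T : Set S))
      (Equiv.Set.image _ T Subtype.val_injective) fun s t => rfl
    exact Or.inl (hC.iso _ _ φ.symm h1)
  · exact Or.inr h1.res

/-! ### The smaller labels -/

section

variable {S : Type}

open Classical in
/-- Labels on three elements. -/
noncomputable def lab (i j k : S) (p q r : ℕ) (x y : S) : ℕ :=
  if x = y then 1 else if (x = j ∧ y = k) ∨ (x = k ∧ y = j) then p
  else if (x = i ∧ y = k) ∨ (x = k ∧ y = i) then q else r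

theorem lab_symm (i j k : S) (p q r : ℕ) (x y : S) : lab i j k p q r x y = lab i j k p q r y x := by
  classical
  unfold lab
  exact if_congr ⟨Eq.symm, Eq.symm⟩ rfl (if_congr (by tauto) rfl (if_congr (by tauto) rfl rfl))

theorem lab_self (i j k : S) (p q r : ℕ) (x : S) : lab i j k p q r x x = 1 := by
  rw [lab, if_pos rfl]

/-- The matrix of these labels. -/
noncomputable def labM (i j k : S) {p q r : ℕ} (hp : p ≠ 1) (hq : q ≠ 1) (hr : r ≠ 1) (U : Set S) :
    CoxeterMatrix U where
  M := Matrix.of fun x y => lab i j k p q r x.1 y.1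
  isSymm := by
    ext x y
    exact lab_symm _ _ _ _ _ _ _ _
  diagonal := fun x => lab_self _ _ _ _ _ _ _
  off_diagonal := by
    intro x y hxy
    change lab i j k p q r x.1 y.1 ≠ 1
    unfold lab
    rw [if_neg fun e => hxy (Subtype.ext e)]
    split_ifs <;> assumption

end

/-- The final induction. -/
theorem main6_finite (rg1 : RgOne) (hE : ExtClass C) (hC : CatClass C)
    (hGL : ∀ n, C (GL (Fin n) ℤ)) (n : ℕ) : ∀ {S : Type} [Finite S] {M : CoxeterMatrix S},
      Good6 C M → Nat.card S = n → C (ArtinGroup M) := by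
  classical
  induction n using Nat.strong_induction_on with
  | _ n ih =>
    intro S _ M hM hn
    have ih' : ∀ Y : Set S, Y ≠ Set.univ → C (ArtinGroup (Pool.Agent.Helper54.LA.res M Y)) := by
      intro Y hY
      refine ih (Nat.card ↥Y) ?_ (hM.res hC.toClosedClass Y) rfl
      rw [← hn]
      have h3 : Y.ncard < (Set.univ : Set S).ncard :=
        Set.ncard_lt_ncard (Set.ssubset_univ_iff.2 hY) (Set.toFinite _)
      rwa [Set.ncard_univ] at h3
    by_cases hu : 4 ≤ Nat.card S ∧ Irr M Set.univ ∧ ∀ s t, M s t ≠ 0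
    swap
    · refine artin_main4 hE hC hGL M fun T hT hc hirr h0 => Or.inl (ih' T ?_)
      rintro rfl
      rw [Set.ncard_univ] at hc
      exact hu ⟨hc, hirr, fun s t => h0 s trivial t trivial⟩
    obtain ⟨hc, hirr, h0⟩ := hu
    rcases hM Set.univ Set.finite_univ (by rwa [Set.ncard_univ]) hirr (fun s _ t _ => h0 s t) with
      h1 | ⟨i, -, j, -, k, -, hij, hjk, hik, p, q, r, hp, hq, hr, h4⟩
    · obtain ⟨φ⟩ := artinCongr (M := Pool.Agent.Helper54.LA.res M (Set.univ : Set S)) (M' := M)
        (Equiv.Set.univ S) fun s t => rfl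
      exact hC.iso _ _ φ h1
    · have hne : ∀ {m : ℕ} {x y z : S}, x ≠ y → (m = 2 ∨ m = M x y ∧ Sparse M (Set.univ \ {z})) →
          m ≠ 0 ∧ m ≠ 1 := by
        rintro m x y z hxy (rfl | ⟨rfl, -⟩)
        · exact ⟨by norm_num, by norm_num⟩
        · exact ⟨h0 x y, M.off_diagonal x y hxy⟩
      obtain ⟨hp0, hp1⟩ := hne hjk hp
      obtain ⟨hq0, hq1⟩ := hne hik hq
      obtain ⟨hr0, hr1⟩ := hne hij hr
      set T0 : Set S := {i, j, k}ᶜ with hT0
      have hmem : ∀ {x : S}, x ∉ T0 ↔ x = i ∨ x = j ∨ x = k := by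
        intro x
        rw [hT0, Set.mem_compl_iff, not_not]
        rfl
      have pair : ∀ {m : ℕ} {x y z : S}, x ∉ T0 → y ∉ T0 → z ∉ T0 → x ≠ y → z ≠ x → z ≠ y →
          (m = 2 ∨ m = M x y ∧ Sparse M (Set.univ \ {z})) →
          RG (Par M T0) (Par M (insert x T0)) (Par M (insert y T0)) m := by
        rintro m x y z hx hy hz hxy hzx hzy (rfl | ⟨rfl, hs⟩)
        · refine rg_two ((par_inter _ _).trans (par_mono M ?_)) (par_mono M (Set.subset_insert _ _))
            (par_mono M (Set.subset_insert _ _))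
          rintro s ⟨h5, h6⟩
          rcases h5 with rfl | h5
          · rcases h6 with h6 | h6
            · exact absurd h6 hxy
            · exact h6
          · exact h5
        · refine rg_sparse rg1 (hs.mono ?_) hxy (h0 x y) hx hy
          rintro w (rfl | rfl | hw)
          · exact ⟨trivial, fun e => hzx e.symm⟩
          · exact ⟨trivial, fun e => hzy e.symm⟩
          · exact ⟨trivial, fun e => hz (e ▸ hw)⟩
      have hi : i ∉ T0 := hmem.2 (Or.inl rfl)
      have hj : j ∉ T0 := hmem.2 (Or.inr (Or.inl rfl))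
      have hk : k ∉ T0 := hmem.2 (Or.inr (Or.inr rfl))
      have ejk : lab i j k p q r j k = p := by simp [lab, hjk]
      have eik : lab i j k p q r i k = q := by simp [lab, hik, hij]
      have eij : lab i j k p q r i j = r := by simp [lab, hij, hjk, hik]
      have ekj : lab i j k p q r k j = p := by rw [lab_symm, ejk]
      have eki : lab i j k p q r k i = q := by rw [lab_symm, eik]
      have eji : lab i j k p q r j i = r := by rw [lab_symm, eij]
      refine step' hE hC hGL (T := T0) (labM i j k hp1 hq1 hr1 _) ?_ ?_ ?_ ?_ ih'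
      · rintro ⟨s, hs⟩ ⟨t, ht⟩
        change lab i j k p q r s t = 0 ↔ M s t = 0
        refine iff_of_false ?_ (h0 s t)
        unfold lab
        split_ifs
        · simp
        · exact hp0
        · exact hq0
        · exact hr0
      · rintro ⟨s, hs⟩ ⟨t, ht⟩ ⟨u, hu⟩ hst htu hsu - - -
        change (1 : ℚ) / lab i j k p q r s t + 1 / lab i j k p q r t u +
          1 / lab i j k p q r s u ≤ 1
        have hst' : s ≠ t := fun e => hst (Subtype.ext e)
        have htu' : t ≠ u := fun e => htu (Subtype.ext e)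
        have hsu' : s ≠ u := fun e => hsu (Subtype.ext e)
        rcases hmem.1 hs with rfl | rfl | rfl <;> rcases hmem.1 ht with rfl | rfl | rfl <;>
          rcases hmem.1 hu with rfl | rfl | rfl <;>
          first
          | exact absurd rfl hst'
          | exact absurd rfl htu'
          | exact absurd rfl hsu'
          | (simp only [ejk, eik, eij, ekj, eki, eji]; linarith)
      · intro J hJ
        have h5 := union_ne (M := M) hij hjk hik J ⟨hJ.1, fun s _ t _ => h0 s.1 t.1⟩
        exact h5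
      · rintro ⟨s, hs⟩ ⟨t, ht⟩ hst -
        change RG (Par M T0) (Par M (insert s T0)) (Par M (insert t T0)) (lab i j k p q r s t)
        have hst' : s ≠ t := fun e => hst (Subtype.ext e)
        have sw : ∀ {m : ℕ} {x y z : S}, (m = 2 ∨ m = M x y ∧ Sparse M (Set.univ \ {z})) →
            (m = 2 ∨ m = M y x ∧ Sparse M (Set.univ \ {z})) := by
          rintro m x y z (h | ⟨h, h'⟩)
          · exact Or.inl h
          · exact Or.inr ⟨h.trans (M.symmetric x y), h'⟩
        rcases hmem.1 hs with rfl | rfl | rfl <;> rcases hmem.1 ht with rfl | rfl | rfl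
        · exact absurd rfl hst'
        · rw [eij]
          exact pair hi hj hk hij hik.symm hjk.symm hr
        · rw [eik]
          exact pair hi hk hj hik hij.symm hjk hq
        · rw [eji]
          exact pair hj hi hk hij.symm hjk.symm hik.symm (sw hr)
        · exact absurd rfl hst'
        · rw [ejk]
          exact pair hj hk hi hjk hij hik hp
        · rw [eki]
          exact pair hk hi hj hik.symm hjk hij.symm (sw hq)
        · rw [ekj]
          exact pair hk hj hi hjk.symm hik hij (sw hp)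
        · exact absurd rfl hst'

/-- **The main theorem.** -/
theorem artin_main6 (rg1 : RgOne) (hE : ExtClass C) (hC : CatClass C)
    (hGL : ∀ n, C (GL (Fin n) ℤ)) {S : Type} (M : CoxeterMatrix S) (h : Good6 C M) :
    C (ArtinGroup M) :=
  of_finite M hC.toClosedClass fun i =>
    main6_finite rg1 hE hC hGL _ (h.res hC.toClosedClass (i : Set S)) rfl

theorem red_of_not_sp3 {S : Type} {M : CoxeterMatrix S} {T : Set S}
    (h0 : ∀ s ∈ T, ∀ t ∈ T, M s t ≠ 0) {i j k : S} (hi : i ∈ T) (hj : j ∈ T) (hk : k ∈ T)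
    (hij : i ≠ j) (hjk : j ≠ k) (hik : i ≠ k) (hs : ¬ Sp3 M i j k) (h1 : Sparse M (T \ {i}))
    (h2 : Sparse M (T \ {j})) (h3 : Sparse M (T \ {k})) : Red M T := by
  refine ⟨i, hi, j, hj, k, hk, hij, hjk, hik, _, _, _, Or.inr ⟨rfl, h1⟩, Or.inr ⟨rfl, h2⟩,
    Or.inr ⟨rfl, h3⟩, ?_⟩
  by_contra h
  rw [not_le] at h
  exact hs ⟨h0 i hi j hj, h0 j hj k hk, h0 i hi k hk, by linarith⟩

/-- Sets of four generators which contain a triple which is not spherical satisfy the condition. -/
theorem red_four {S : Type} {M : CoxeterMatrix S} {T : Set S}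
    (h0 : ∀ s ∈ T, ∀ t ∈ T, M s t ≠ 0) (h4 : T.ncard = 4) {i j k : S} (hi : i ∈ T) (hj : j ∈ T)
    (hk : k ∈ T) (hij : i ≠ j) (hjk : j ≠ k) (hik : i ≠ k) (hs : ¬ Sp3 M i j k) : Red M T := by
  have key : ∀ x ∈ T, Sparse M (T \ {x}) := by
    intro x hx
    have h5 : (T \ {x}).ncard = 3 := by
      rw [Set.ncard_sdiff_singleton_of_mem hx, h4]
    obtain ⟨a, b, c, -, -, -, h6⟩ := Set.ncard_eq_three.1 h5
    rw [h6]
    exact sparse_three
  exact red_of_not_sp3 h0 hi hj hk hij hjk hik hs (key i hi) (key j hj) (key k hk)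

/-- Sparse sets satisfy the condition. -/
theorem Sparse.red {S : Type} [Finite S] {M : CoxeterMatrix S} (h : Sparse M Set.univ)
    (h0 : ∀ s t, M s t ≠ 0) (hirr : Irr M Set.univ) (hc : 4 ≤ Nat.card S) : Red M Set.univ := by
  have key : ∀ x : S, Sparse M (Set.univ \ {x}) := fun x => h.mono (Set.subset_univ _)
  obtain ⟨i, j, t, u, hij, hit, hiu, hjt, hju, htu, h2, h3⟩ := exists_four hirr hc
  by_cases h4 : Sp3 M i j t
  · have h5 := h i trivial j trivial t trivial u trivial hij hit hiu hjt hju htu h3 h2 h4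
    exact red_of_not_sp3 (fun s _ t _ => h0 s t) trivial trivial trivial hij hju hiu h5 (key i)
      (key j) (key u)
  · exact red_of_not_sp3 (fun s _ t _ => h0 s t) trivial trivial trivial hij hjt hit h4 (key i)
      (key j) (key t)

/-- Locally reducible Coxeter matrices are sparse. -/
theorem sparse_of_lr {S : Type} {M : CoxeterMatrix S} (h : LR M) (T : Set S) : Sparse M T := by
  intro i _ j _ t _ u _ hij hit hiu hjt hju htu hirr h2 hs hs'
  have key : ∀ v, i ≠ v → j ≠ v → Sp3 M i j v → M i v = 2 ∧ M j v = 2 := by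
    intro v hiv hjv hsp
    rcases h i j v hij hjv hiv hsp with ⟨h3, -⟩ | ⟨h3, h4⟩ | ⟨h3, -⟩
    · exact absurd h3 h2
    · exact ⟨h4, h3⟩
    · exact absurd h3 h2
  obtain ⟨h3, h4⟩ := key t hit hjt hs
  obtain ⟨h5, h6⟩ := key u hiu hju hs'
  obtain ⟨s, hs1, v, hv1, hsv⟩ := hirr {i, j} (by
    rintro x (rfl | rfl) <;> simp) ⟨i, by simp⟩
    ⟨t, by simp, by
      rintro (e | e)
      · exact hit e.symm
      · exact hjt e.symm⟩
  obtain ⟨hv1, hv2⟩ := hv1
  rw [Set.mem_insert_iff, Set.mem_singleton_iff, not_or] at hv2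
  rcases hv1 with rfl | rfl | rfl | rfl
  · exact hv2.1 rfl
  · exact hv2.2 rfl
  · rcases hs1 with rfl | rfl
    · exact hsv h3
    · exact hsv h4
  · rcases hs1 with rfl | rfl
    · exact hsv h5
    · exact hsv h6

end Pool.Agent.RG1
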