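import Pool.Agent.RG1.NF3

/-!
# Four syllables: the label 5

The equations for `x₁ j ^ b₁ x₂ j ^ b₂ x₃ j ^ b₃ x₄ j ^ b₄ = 1` are polynomials of degree two in the
parameter `μ`; the two conjugate values of `μ` are used.
-/

set_option autoImplicit false

namespace Pool.Agent.RG1

open Filter Topology

section eq

variable {A : Type} [Group A] {t i j : A} {s ν μ : ℝ} {hs : s ≠ 0} {ρ : A →* G3}

theorem rho_j' (hj : ρ j = mJ hs μ) (b : ℤ) (v : V3) :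
    ρ (j ^ b) v = v - (be s b * fJ s μ v) • ((0, 0, 1) : V3) := by
  rw [rho_j hj]
  ext
  · simp
  · simp
  · simp

theorem fJ_sub (v w : V3) (c : ℝ) : fJ s μ (v - c • w) = fJ s μ v - c * fJ s μ w := by
  have h1 : (v - c • w).2.1 = v.2.1 - c * w.2.1 := rfl
  have h2 : (v - c • w).2.2 = v.2.2 - c * w.2.2 := rfl
  rw [fJ, h1, h2, fJ, fJ]
  ring

theorem snd_sub (v w : V3) (c : ℝ) : (v - c • w).2.2 = v.2.2 - c * w.2.2 := rfl

/-- The first equation. -/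
theorem eq_four (hs0 : 0 < s) (hs1 : s ≠ 1) (hν : 0 < ν) (hμ : 0 < μ) (ht : ρ t = mT hs) (hi : ρ i = mI hs ν)
    (hj : ρ j = mJ hs μ) {x1 x2 x3 x4 : A} (h1 : x1 ∈ Subgroup.closure {t, i})
    (h2 : x2 ∈ Subgroup.closure {t, i}) (h3 : x3 ∈ Subgroup.closure {t, i})
    (h4 : x4 ∈ Subgroup.closure {t, i}) {b1 b2 b3 b4 : ℤ}
    (h : x1 * j ^ b1 * x2 * j ^ b2 * x3 * j ^ b3 * x4 * j ^ b4 = 1) :
    (be s b1 * be s b2 * be s b3 * s ^ 2 * (ρ x2 (0, 0, 1)).2.1 * (ρ x3 (0, 0, 1)).2.1) * μ ^ 2 +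
      (s * (be s b1 * be s b2 * (ρ x2 (0, 0, 1)).2.1 + be s b2 * be s b3 * (ρ x3 (0, 0, 1)).2.1 +
        be s b1 * be s b3 * (ρ x2 (ρ x3 (0, 0, 1))).2.1) -
        (1 - s) * s * be s b1 * be s b2 * be s b3 * ((ρ x2 (0, 0, 1)).2.1 + (ρ x3 (0, 0, 1)).2.1)) * μ +
      (be s (b1 + b2 + b3) - be s (-b4)) = 0 := by
  have h' : x1 * (j ^ b1 * (x2 * (j ^ b2 * (x3 * (j ^ b3 * x4))))) = j ^ (-b4) := by
    rw [zpow_neg, eq_inv_iff_mul_eq_one]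
    rw [← h]
    simp only [mul_assoc]
  have e1 := congrArg (fun g => (ρ g (nn s ν)).2.2) h'
  simp only [map_mul, mul_app] at e1
  rw [(fix_of_mem ht hi h1).1, (fix_of_mem ht hi h4).2] at e1
  simp only [rho_j' hj, map_sub, map_smul, (fix_of_mem ht hi h2).2, (fix_of_mem ht hi h3).2, fJ_sub, snd_sub,
    (fix_of_mem ht hi h2).1, (fix_of_mem ht hi h3).1] at e1
  have hF := fJ_nn_ne hs0 hs1 hν hμ
  have f2 : fJ s μ (ρ x2 (0, 0, 1)) = -(μ * s * (ρ x2 (0, 0, 1)).2.1) + (1 - s) := by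
    rw [fJ, (fix_of_mem ht hi h2).1, mul_one]
  have f3 : fJ s μ (ρ x3 (0, 0, 1)) = -(μ * s * (ρ x3 (0, 0, 1)).2.1) + (1 - s) := by
    rw [fJ, (fix_of_mem ht hi h3).1, mul_one]
  have f23 : fJ s μ (ρ x2 (ρ x3 (0, 0, 1))) = -(μ * s * (ρ x2 (ρ x3 (0, 0, 1))).2.1) + (1 - s) := by
    rw [fJ, (fix_of_mem ht hi h2).1, (fix_of_mem ht hi h3).1, mul_one]
  rw [f2, f3, f23] at e1
  rw [be_add hs, be_add hs]
  refine mul_left_cancel₀ hF ?_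
  linear_combination (-1 : ℝ) * e1

/-- The second equation. -/
theorem eq_four' (ht : ρ t = mT hs) (hi : ρ i = mI hs ν)
    (hj : ρ j = mJ hs μ) {x1 x2 x3 x4 : A} (h1 : x1 ∈ Subgroup.closure {t, i})
    (h2 : x2 ∈ Subgroup.closure {t, i}) (h3 : x3 ∈ Subgroup.closure {t, i})
    (h4 : x4 ∈ Subgroup.closure {t, i}) {b1 b2 b3 b4 : ℤ}
    (h : x1 * j ^ b1 * x2 * j ^ b2 * x3 * j ^ b3 * x4 * j ^ b4 = 1) :
    (s ^ 2 * be s b1 * be s b2 * (ρ x2 (0, 0, 1)).2.1 * (ρ x3 (1, 0, 0)).2.1) * μ ^ 2 +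
      s * (be s b2 * (ρ x3 (1, 0, 0)).2.1 + be s b1 * (ρ x2 (ρ x3 (1, 0, 0))).2.1 -
        be s b1 * be s b2 * (1 - s) * (ρ x3 (1, 0, 0)).2.1 -
        be s (-b4) * (ρ x4⁻¹ (1, 0, 0)).2.1) * μ = 0 := by
  have h' : x1 * (j ^ b1 * (x2 * (j ^ b2 * x3))) = j ^ (-b4) * (x4⁻¹ * j ^ (-b3)) := by
    have e0 : x1 * (j ^ b1 * (x2 * (j ^ b2 * x3))) * (j ^ b3 * x4 * j ^ b4) = 1 := by
      rw [← h]
      simp only [mul_assoc]
    rw [mul_eq_one_iff_eq_inv] at e0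
    rw [e0, zpow_neg, zpow_neg]
    simp only [mul_inv_rev, mul_assoc]
  have e1 := congrArg (fun g => (ρ g ((1, 0, 0) : V3)).2.2) h'
  simp only [map_mul, mul_app] at e1
  have f0 : fJ s μ (1, 0, 0) = 0 := by
    simp [fJ]
  have f1 : ρ (j ^ (-b3)) (1, 0, 0) = (1, 0, 0) := by
    rw [rho_j' hj, f0, mul_zero, zero_smul, sub_zero]
  have g3 : (ρ x3 (1, 0, 0)).2.2 = 0 := (fix_of_mem ht hi h3).1 _
  have g4 : (ρ x4⁻¹ (1, 0, 0)).2.2 = 0 := (fix_of_mem ht hi (inv_mem h4)).1 _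
  have g2 : (ρ x2 (ρ x3 (1, 0, 0))).2.2 = 0 := by rw [(fix_of_mem ht hi h2).1, g3]
  rw [(fix_of_mem ht hi h1).1, f1] at e1
  simp only [rho_j' hj, map_sub, map_smul, fJ_sub, snd_sub, (fix_of_mem ht hi h2).1, g3, g4] at e1
  have f2 : fJ s μ (ρ x2 (0, 0, 1)) = -(μ * s * (ρ x2 (0, 0, 1)).2.1) + (1 - s) := by
    rw [fJ, (fix_of_mem ht hi h2).1, mul_one]
  have f3 : fJ s μ (ρ x3 (1, 0, 0)) = -(μ * s * (ρ x3 (1, 0, 0)).2.1) := by
    rw [fJ, g3, mul_zero, add_zero]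
  have f23 : fJ s μ (ρ x2 (ρ x3 (1, 0, 0))) = -(μ * s * (ρ x2 (ρ x3 (1, 0, 0))).2.1) := by
    rw [fJ, g2, mul_zero, add_zero]
  have f4 : fJ s μ (ρ x4⁻¹ (1, 0, 0)) = -(μ * s * (ρ x4⁻¹ (1, 0, 0)).2.1) := by
    rw [fJ, g4, mul_zero, add_zero]
  rw [f2, f3, f23, f4] at e1
  linear_combination e1

end eq

/-! ### The functional of `i` near `s = 1` -/

section near

variable {A : Type} [Group A] {t i : A}

theorem W3.mem {n : ℕ} {w : A} (hw : W3 t i n w) : w ∈ Subgroup.closure ({t, i} : Set A) := by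
  have h2 : t ∈ Subgroup.closure ({t, i} : Set A) := Subgroup.subset_closure (Set.mem_insert _ _)
  have h3 : i ∈ Subgroup.closure ({t, i} : Set A) :=
    Subgroup.subset_closure (Set.mem_insert_of_mem _ (Set.mem_singleton _))
  induction hw with
  | one => exact one_mem _
  | t h ih => exact mul_mem ih (inv_mem h2)
  | i h ih => exact mul_mem ih h3

theorem zpow_eq_one_lt {s : ℝ} (h0 : 0 < s) (h1 : s ≠ 1) {l : ℤ} (h : (-s ^ 3) ^ l = 1) : l = 0 := by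
  have h2 : (s ^ 3) ^ l = 1 := by
    have h3 := congrArg abs h
    rwa [abs_zpow, abs_neg, abs_one, abs_of_pos (pow_pos h0 3)] at h3
  by_contra hl
  have h3 : s ^ 3 ≠ 1 := by
    intro h4
    have h5 : (s - 1) * (s ^ 2 + s + 1) = 0 := by ring_nf; linarith
    rcases mul_eq_zero.1 h5 with h6 | h6
    · exact h1 (sub_eq_zero.1 h6)
    · nlinarith [sq_nonneg s]
  exact hl (zpow_right_injective₀ (pow_pos h0 3) h3 (by
    change (s ^ 3) ^ l = (s ^ 3) ^ (0 : ℤ)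
    rw [h2, zpow_zero]))

/-- **The functional does not vanish near `s = 1`, `s < 1`.** -/
theorem near_one (hbr : t * i * t = i * t * i) {x : A} (hx : x ∈ Subgroup.closure {t, i})
    (hx0 : x ∉ Subgroup.zpowers t) :
    ∀ᶠ s in 𝓝[<] (1 : ℝ), ∀ (hs : s ≠ 0) (ρ : A →* G3), ρ t = mT hs → ρ i = mI hs 1 →
      (ρ x (0, 0, 1)).2.1 ≠ 0 := by
  obtain ⟨a, l, b, n, w, hw, rfl⟩ := N3.of_mem hbr hx
  have hI : ∀ᶠ s in 𝓝[<] (1 : ℝ), s ∈ Set.Ioo (0 : ℝ) 1 := Ioo_mem_nhdsLT one_pos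
  have hP : ∀ᶠ s in 𝓝[<] (1 : ℝ), 0 < (s ^ 3) ^ l * s ^ 2 + s - 1 := by
    have h1 : ContinuousAt (fun s : ℝ => (s ^ 3) ^ l * s ^ 2 + s - 1) 1 := by
      have h2 : ContinuousAt (fun s : ℝ => (s ^ 3) ^ l) 1 :=
        ContinuousAt.zpow₀ (by fun_prop) l (Or.inl (by norm_num))
      exact ((h2.mul (by fun_prop)).add continuousAt_id).sub continuousAt_const
    have h3 : (0 : ℝ) < (fun s : ℝ => (s ^ 3) ^ l * s ^ 2 + s - 1) 1 := by norm_num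
    exact nhdsWithin_le_nhds (h1.eventually_const_lt h3)
  filter_upwards [hI, hP] with s hsI hsP hs ρ ht hi
  obtain ⟨hs0, hs1⟩ := hsI
  have hD : 0 < 1 - s + s ^ 2 := by nlinarith [sq_nonneg (s - 1)]
  have hk : (s - 1) / (1 - s + s ^ 2) < 0 := div_neg_of_neg_of_pos (by linarith) hD
  have hk1 : (s - 1) / (1 - s + s ^ 2) + 1 = s ^ 2 / (1 - s + s ^ 2) := by
    field_simp
    ring
  rw [val3 hs0 ht hi a l b (fix_of_mem ht hi hw.mem |>.1 _)]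
  obtain ⟨-, -, p⟩ := hw.pos hs0 ht hi
  by_cases hwz : w ∈ Subgroup.zpowers t
  · have hw0 : (ρ w (0, 0, 1)).2.1 = 0 := by
      obtain ⟨k, hk⟩ := Subgroup.mem_zpowers_iff.1 hwz
      rw [← hk, t_zpow_ej ht]
    rw [hw0]
    intro h1
    have h2 : (1 - (-s ^ 3) ^ l) * ((s - 1) / (1 - s + s ^ 2)) = 0 := by linarith
    rcases mul_eq_zero.1 h2 with h3 | h3
    · have h4 := zpow_eq_one_lt hs0 hs1.ne (l := l) (by linarith)
      apply hx0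
      rw [h4, zpow_zero, mul_one]
      exact mul_mem (mul_mem (zpow_mem (Subgroup.mem_zpowers t) a) hwz) (zpow_mem (Subgroup.mem_zpowers t) b)
    · exact hk.ne h3
  · have hc : (ρ w (0, 0, 1)).2.1 ≤ -1 := by
      rcases p with ⟨p, -⟩ | p
      · exact absurd p hwz
      · exact p
    obtain ⟨c, hcc⟩ : ∃ c, (ρ w (0, 0, 1)).2.1 = c := ⟨_, rfl⟩
    obtain ⟨k, hkk⟩ : ∃ k, (s - 1) / (1 - s + s ^ 2) = k := ⟨_, rfl⟩
    rw [hcc] at hc ⊢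
    rw [hkk] at hk hk1 ⊢
    have hq : 0 < (s ^ 3) ^ l := zpow_pos (pow_pos hs0 3) l
    have hs2 : 0 < s ^ 2 / (1 - s + s ^ 2) := by positivity
    rcases Int.even_or_odd l with hl | hl
    · rw [hl.neg_zpow]
      have h1 : (s ^ 3) ^ l * (c - k) < 0 := mul_neg_of_pos_of_neg hq (by linarith)
      exact (by linarith : (s ^ 3) ^ l * (c - k) + k < 0).ne
    · rw [hl.neg_zpow]
      have h1 : (s ^ 3) ^ l * (k + 1) + k = ((s ^ 3) ^ l * s ^ 2 + s - 1) / (1 - s + s ^ 2) := by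
        rw [hk1, ← hkk]
        ring
      have h2 : 0 < ((s ^ 3) ^ l * s ^ 2 + s - 1) / (1 - s + s ^ 2) := div_pos hsP hD
      have h3 : (s ^ 3) ^ l * (k + 1) ≤ (s ^ 3) ^ l * (k - c) := mul_le_mul_of_nonneg_left (by linarith) hq.le
      have h4 : 0 < -(s ^ 3) ^ l * (c - k) + k := by
        have h5 : -(s ^ 3) ^ l * (c - k) + k = (s ^ 3) ^ l * (k - c) + k := by ring
        rw [h5]
        linarith
      exact h4.ne'

theorem W3.pos2 {s : ℝ} {hs : s ≠ 0} {ρ : A →* G3} (hs0 : 0 < s) (ht : ρ t = mT hs) (hi : ρ i = mI hs 1)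
    {n : ℕ} {w : A} (h : W3 t i n w) :
    0 < (ρ w (0, 1, 0)).2.1 ∧ 0 ≤ (ρ w (1, 0, 0)).2.1 ∧ (w ∈ Subgroup.zpowers t ∨ 0 < (ρ w (1, 0, 0)).2.1) := by
  induction h with
  | one =>
    rw [map_one]
    simp only [one_app]
    exact ⟨one_pos, le_refl _, Or.inl (one_mem _)⟩
  | @t n w h ih =>
    obtain ⟨h1, h2, h3⟩ := ih
    have e1 : ρ (w * t⁻¹) (1, 0, 0) = s⁻¹ • ρ w (1, 0, 0) := by
      rw [map_mul, mul_app, map_inv, ht, ← map_smul]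
      congr 1
      change (s⁻¹ * 1 + 0, (0 : ℝ), (0 : ℝ)) = _
      simp
    have e2 : ρ (w * t⁻¹) (0, 1, 0) = ρ w (1, 0, 0) + ρ w (0, 1, 0) := by
      rw [map_mul, mul_app, map_inv, ht, ← map_add]
      congr 1
      change (s⁻¹ * 0 + 1, (1 : ℝ), (0 : ℝ)) = _
      simp
    rw [e1, e2]
    change 0 < (ρ w (1, 0, 0)).2.1 + (ρ w (0, 1, 0)).2.1 ∧ 0 ≤ s⁻¹ * (ρ w (1, 0, 0)).2.1 ∧
      (w * t⁻¹ ∈ Subgroup.zpowers t ∨ 0 < s⁻¹ * (ρ w (1, 0, 0)).2.1)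
    refine ⟨by positivity, by positivity, ?_⟩
    rcases h3 with h3 | h3
    · exact Or.inl (mul_mem h3 (inv_mem (Subgroup.mem_zpowers t)))
    · exact Or.inr (by positivity)
  | @i n w h ih =>
    obtain ⟨h1, h2, h3⟩ := ih
    have e1 : ρ (w * i) (1, 0, 0) = ρ w (1, 0, 0) + ρ w (0, 1, 0) := by
      rw [map_mul, mul_app, hi, ← map_add]
      congr 1
      change ((1 : ℝ), s * 0 + 1 * 1 - 0, (0 : ℝ)) = _
      simp
    have e2 : ρ (w * i) (0, 1, 0) = s • ρ w (0, 1, 0) := by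
      rw [map_mul, mul_app, hi, ← map_smul]
      congr 1
      change ((0 : ℝ), s * 1 + 1 * 0 - 0, (0 : ℝ)) = _
      simp
    rw [e1, e2]
    change 0 < s * (ρ w (0, 1, 0)).2.1 ∧ 0 ≤ (ρ w (1, 0, 0)).2.1 + (ρ w (0, 1, 0)).2.1 ∧
      (w * i ∈ Subgroup.zpowers t ∨ 0 < (ρ w (1, 0, 0)).2.1 + (ρ w (0, 1, 0)).2.1)
    exact ⟨by positivity, by positivity, Or.inr (by positivity)⟩

theorem t_zpow_et {s : ℝ} {hs : s ≠ 0} {ρ : A →* G3} (ht : ρ t = mT hs) (b : ℤ) :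
    ρ (t ^ b) (1, 0, 0) = s ^ b • ((1, 0, 0) : V3) := by
  have h0 : mT hs (1, 0, 0) = s • ((1, 0, 0) : V3) := by
    rw [mT_apply]
    simp
  have h1 : (mT hs)⁻¹ (1, 0, 0) = s⁻¹ • ((1, 0, 0) : V3) := by
    change (s⁻¹ * 1 + 0, (0 : ℝ), (0 : ℝ)) = _
    simp
  rw [map_zpow, ht]
  induction b using Int.induction_on with
  | zero => rw [zpow_zero, zpow_zero, one_app, one_smul]
  | succ b ih => rw [zpow_add_one, mul_app, h0, map_smul, ih, smul_smul, zpow_add_one₀ hs, mul_comm]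
  | pred b ih => rw [zpow_sub_one, mul_app, h1, map_smul, ih, smul_smul, zpow_sub_one₀ hs, mul_comm]

/-- The elements which fix the line of `t`. -/
theorem mem_tz {s : ℝ} {hs : s ≠ 0} {ρ : A →* G3} (hbr : t * i * t = i * t * i) (hs0 : 0 < s)
    (ht : ρ t = mT hs) (hi : ρ i = mI hs 1) {x : A} (hx : x ∈ Subgroup.closure {t, i})
    (h : (ρ x (1, 0, 0)).2.1 = 0) : ∃ a l : ℤ, x = t ^ a * (t * i * t * (t * i * t)) ^ l := by
  obtain ⟨a, l, b, n, w, hw, rfl⟩ := N3.of_mem hbr hx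
  have e1 : (ρ (t ^ a * (t * i * t * (t * i * t)) ^ l * w * t ^ b) (1, 0, 0)).2.1 =
      s ^ b * ((-s ^ 3) ^ l * (ρ w (1, 0, 0)).2.1) := by
    rw [map_mul, mul_app, t_zpow_et ht, map_smul, mul_assoc, map_mul, mul_app, map_mul, mul_app,
      z_zpow ht hi l ((fix_of_mem ht hi hw.mem).1 _)]
    change s ^ b * (ρ (t ^ a) _).2.1 = _
    rw [t_zpow_snd ht]
    rfl
  rw [e1] at h
  have h1 : (ρ w (1, 0, 0)).2.1 = 0 := by
    rcases mul_eq_zero.1 h with h | h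
    · exact absurd h (zpow_ne_zero _ hs)
    · rcases mul_eq_zero.1 h with h | h
      · exact absurd h (zpow_ne_zero _ (neg_ne_zero.2 (pow_ne_zero 3 hs)))
      · exact h
  rcases (hw.pos2 hs0 ht hi).2.2 with h2 | h2
  · obtain ⟨k, rfl⟩ := Subgroup.mem_zpowers_iff.1 h2
    refine ⟨a + (k + b), l, ?_⟩
    have h3 : (t * i * t * (t * i * t)) ^ l * t ^ (k + b) = t ^ (k + b) * (t * i * t * (t * i * t)) ^ l :=
      ((z_comm_t hbr).zpow_zpow l (k + b)).eq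
    calc t ^ a * (t * i * t * (t * i * t)) ^ l * t ^ k * t ^ b =
          t ^ a * ((t * i * t * (t * i * t)) ^ l * t ^ (k + b)) := by
            rw [zpow_add t k]
            simp only [mul_assoc]
      _ = t ^ a * (t ^ (k + b) * (t * i * t * (t * i * t)) ^ l) := by rw [h3]
      _ = _ := by rw [← mul_assoc, ← zpow_add]
  · exact absurd h1 h2.ne'

theorem tendsto_be (b : ℤ) : Tendsto (fun s : ℝ => be s b) (𝓝[≠] 1) (𝓝 b) := by
  have h1 : HasDerivAt (fun x : ℝ => x ^ b) (b * (1 : ℝ) ^ (b - 1)) 1 :=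
    hasDerivAt_zpow b 1 (Or.inl one_ne_zero)
  rw [hasDerivAt_iff_tendsto_slope, one_zpow, mul_one] at h1
  refine h1.congr' ?_
  filter_upwards [self_mem_nhdsWithin] with s hs
  have hs' : s ≠ 1 := hs
  have h2 : (1 - s) ≠ 0 := sub_ne_zero.2 (Ne.symm hs')
  have h3 : (s - 1) ≠ 0 := sub_ne_zero.2 hs'
  rw [be_of_ne hs', slope_def_field, one_zpow]
  field_simp
  ring

/-- The functional on the elements `t ^ a z ^ l`. -/
theorem val_tz {s : ℝ} {hs : s ≠ 0} {ρ : A →* G3} (hs0 : 0 < s) (ht : ρ t = mT hs) (hi : ρ i = mI hs 1)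
    (a l : ℤ) : (ρ (t ^ a * (t * i * t * (t * i * t)) ^ l) (0, 0, 1)).2.1 =
      (1 - (-s ^ 3) ^ l) * ((s - 1) / (1 - s + s ^ 2)) := by
  have h1 := val3 hs0 ht hi a l 0 (w := 1) (by rw [map_one, one_app])
  rw [map_one, one_app, mul_one, zpow_zero, mul_one] at h1
  rw [h1]
  ring

end near

/-! ### Four syllables -/

section four

variable {A : Type} [Group A] {t i j : A}

/-- Homomorphisms which agree on `t` and `i`. -/
theorem rho_congr {ρ σ : A →* G3} (ht : ρ t = σ t) (hi : ρ i = σ i) {x : A} (hx : x ∈ Subgroup.closure {t, i}) :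
    ρ x = σ x := by
  have h1 : Subgroup.closure {t, i} ≤ ρ.eqLocus σ := by
    rw [Subgroup.closure_le]
    rintro _ (rfl | rfl)
    · exact ht
    · exact hi
  exact h1 hx

/-- The equation of degree two at two conjugate values. -/
theorem two_vals {P Q R μ μ' : ℝ} (hμ : μ ^ 2 = 3 * μ - 1) (hμ' : μ' ^ 2 = 3 * μ' - 1) (hne : μ ≠ μ')
    (h : P * μ ^ 2 + Q * μ + R = 0) (h' : P * μ' ^ 2 + Q * μ' + R = 0) : R = P := by
  have h1 : (μ - μ') * (3 * P + Q) = 0 := by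
    rw [hμ] at h
    rw [hμ'] at h'
    linear_combination h - h'
  have h2 : 3 * P + Q = 0 := by
    rcases mul_eq_zero.1 h1 with h2 | h2
    · exact absurd (sub_eq_zero.1 h2) hne
    · exact h2
  rw [hμ] at h
  linear_combination h - μ * h2

theorem two_vals' {P Q μ μ' : ℝ} (hμ : μ ≠ 0) (hμ' : μ' ≠ 0) (hne : μ ≠ μ')
    (h : P * μ ^ 2 + Q * μ = 0) (h' : P * μ' ^ 2 + Q * μ' = 0) : P = 0 := by
  have h1 : P * μ + Q = 0 := by
    have h2 : μ * (P * μ + Q) = 0 := by linear_combination h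
    exact (mul_eq_zero.1 h2).resolve_left hμ
  have h2 : P * μ' + Q = 0 := by
    have h2 : μ' * (P * μ' + Q) = 0 := by linear_combination h'
    exact (mul_eq_zero.1 h2).resolve_left hμ'
  have h3 : P * (μ - μ') = 0 := by linear_combination h1 - h2
  exact (mul_eq_zero.1 h3).resolve_right (sub_ne_zero.2 hne)

theorem ll_zero {s μ μ' : ℝ} {hs : s ≠ 0} (hs0 : 0 < s) (hμ0 : 0 < μ) (hμ0' : 0 < μ') (hne : μ ≠ μ')
    {ρ σ : A →* G3} (ht : ρ t = mT hs) (hi : ρ i = mI hs 1) (hj : ρ j = mJ hs μ) (ht' : σ t = mT hs)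
    (hi' : σ i = mI hs 1) (hj' : σ j = mJ hs μ') {x1 x2 x3 x4 : A} (h1 : x1 ∈ Subgroup.closure {t, i})
    (h2 : x2 ∈ Subgroup.closure {t, i}) (h3 : x3 ∈ Subgroup.closure {t, i})
    (h4 : x4 ∈ Subgroup.closure {t, i}) {b1 b2 b3 b4 : ℤ} (c1 : b1 ≠ 0) (c2 : b2 ≠ 0)
    (h : x1 * j ^ b1 * x2 * j ^ b2 * x3 * j ^ b3 * x4 * j ^ b4 = 1) (hc : (ρ x2 (0, 0, 1)).2.1 ≠ 0) :
    (ρ x3 (1, 0, 0)).2.1 = 0 := by
  have e1 := eq_four' ht hi hj h1 h2 h3 h4 h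
  have e2 := eq_four' ht' hi' hj' h1 h2 h3 h4 h
  have k1 : ∀ {x : A}, x ∈ Subgroup.closure {t, i} → σ x = ρ x := fun hx =>
    rho_congr (ht'.trans ht.symm) (hi'.trans hi.symm) hx
  rw [k1 h2, k1 h3, k1 (inv_mem h4)] at e2
  have e3 := two_vals' hμ0.ne' hμ0'.ne' hne e1 e2
  have e4 : s ^ 2 * be s b1 * be s b2 * (ρ x2 (0, 0, 1)).2.1 ≠ 0 :=
    mul_ne_zero (mul_ne_zero (mul_ne_zero (pow_ne_zero 2 hs) (be_ne_zero hs0 c1)) (be_ne_zero hs0 c2)) hc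
  exact (mul_eq_zero.1 e3).resolve_left e4

/-- **Four syllables.** -/
theorem four_ne (hbr : t * i * t = i * t * i) {μ μ' : ℝ} (hμ : μ ^ 2 = 3 * μ - 1) (hμ' : μ' ^ 2 = 3 * μ' - 1)
    (hne : μ ≠ μ') (hμ0 : 0 < μ) (hμ0' : 0 < μ')
    (H : ∀ (s : ℝ) (hs : s ≠ 0), ∃ ρ : A →* G3, ρ t = mT hs ∧ ρ i = mI hs 1 ∧ ρ j = mJ hs μ)
    (H' : ∀ (s : ℝ) (hs : s ≠ 0), ∃ ρ : A →* G3, ρ t = mT hs ∧ ρ i = mI hs 1 ∧ ρ j = mJ hs μ')
    {x1 x2 x3 x4 : A} (h1 : x1 ∈ Subgroup.closure {t, i})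
    (h2 : x2 ∈ Subgroup.closure {t, i}) (h3 : x3 ∈ Subgroup.closure {t, i})
    (h4 : x4 ∈ Subgroup.closure {t, i}) (n1 : x1 ∉ Subgroup.zpowers t) (n2 : x2 ∉ Subgroup.zpowers t)
    (n3 : x3 ∉ Subgroup.zpowers t) {b1 b2 b3 b4 : ℤ} (c1 : b1 ≠ 0) (c2 : b2 ≠ 0) (c3 : b3 ≠ 0)
    (c4 : b4 ≠ 0) : x1 * j ^ b1 * x2 * j ^ b2 * x3 * j ^ b3 * x4 * j ^ b4 ≠ 1 := by
  intro h
  have h' : x4 * j ^ b4 * x1 * j ^ b1 * x2 * j ^ b2 * x3 * j ^ b3 = 1 := by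
    calc x4 * j ^ b4 * x1 * j ^ b1 * x2 * j ^ b2 * x3 * j ^ b3 =
          (x4 * j ^ b4) * (x1 * j ^ b1 * x2 * j ^ b2 * x3 * j ^ b3 * x4 * j ^ b4) * (x4 * j ^ b4)⁻¹ := by group
      _ = 1 := by rw [h, mul_one, mul_inv_cancel]
  -- a value of `s` for which the functional does not vanish
  obtain ⟨s, ⟨hs1, hs2⟩, hsI⟩ := (((near_one hbr h1 n1).and (near_one hbr h2 n2)).and
    (Ioo_mem_nhdsLT (one_pos (α := ℝ)))).exists
  have hs : s ≠ 0 := hsI.1.ne'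
  obtain ⟨ρ, ht, hi, hj⟩ := H s hs
  obtain ⟨σ, ht', hi', hj'⟩ := H' s hs
  obtain ⟨a2, l2, e2⟩ := mem_tz hbr hsI.1 ht hi h2
    (ll_zero hsI.1 hμ0 hμ0' hne ht hi hj ht' hi' hj' h4 h1 h2 h3 c4 c1 h' (hs1 hs ρ ht hi))
  obtain ⟨a3, l3, e3⟩ := mem_tz hbr hsI.1 ht hi h3
    (ll_zero hsI.1 hμ0 hμ0' hne ht hi hj ht' hi' hj' h1 h2 h3 h4 c1 c2 h (hs2 hs ρ ht hi))
  have hl2 : l2 ≠ 0 := by
    rintro rfl
    exact n2 (by rw [e2, zpow_zero, mul_one]; exact zpow_mem (Subgroup.mem_zpowers t) _)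
  have hl3 : l3 ≠ 0 := by
    rintro rfl
    exact n3 (by rw [e3, zpow_zero, mul_one]; exact zpow_mem (Subgroup.mem_zpowers t) _)
  have key : ∀ s : ℝ, 0 < s → s ≠ 1 → be s (b1 + b2 + b3) - be s (-b4) =
      be s b1 * be s b2 * be s b3 * s ^ 2 * ((1 - (-s ^ 3) ^ l2) * ((s - 1) / (1 - s + s ^ 2))) *
        ((1 - (-s ^ 3) ^ l3) * ((s - 1) / (1 - s + s ^ 2))) := by
    intro s hs0 hs1
    obtain ⟨ρ, ht, hi, hj⟩ := H s hs0.ne'
    obtain ⟨σ, ht', hi', hj'⟩ := H' s hs0.ne'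
    have k1 : ∀ {x : A}, x ∈ Subgroup.closure {t, i} → σ x = ρ x := fun hx =>
      rho_congr (ht'.trans ht.symm) (hi'.trans hi.symm) hx
    have q1 := eq_four hs0 hs1 one_pos hμ0 ht hi hj h1 h2 h3 h4 h
    have q2 := eq_four hs0 hs1 one_pos hμ0' ht' hi' hj' h1 h2 h3 h4 h
    rw [k1 h2, k1 h3] at q2
    rw [two_vals hμ hμ' hne q1 q2, e2, e3, val_tz hs0 ht hi, val_tz hs0 ht hi]
  -- the limit for `s` to `1`
  have hσ : b1 + b2 + b3 = -b4 := by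
    have t1 : Tendsto (fun s : ℝ => be s (b1 + b2 + b3) - be s (-b4)) (𝓝[≠] 1)
        (𝓝 (((b1 + b2 + b3 : ℤ) : ℝ) - ((-b4 : ℤ) : ℝ))) := (tendsto_be _).sub (tendsto_be _)
    have t2 : ∀ l : ℤ, Tendsto (fun s : ℝ => (1 - (-s ^ 3) ^ l) * ((s - 1) / (1 - s + s ^ 2))) (𝓝[≠] 1) (𝓝 0) := by
      intro l
      have t3 : ContinuousAt (fun s : ℝ => (1 - (-s ^ 3) ^ l) * ((s - 1) / (1 - s + s ^ 2))) 1 := by
        have t4 : ContinuousAt (fun s : ℝ => (-s ^ 3) ^ l) 1 :=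
          ContinuousAt.zpow₀ (by fun_prop) l (Or.inl (by norm_num))
        have t5 : ContinuousAt (fun s : ℝ => (s - 1) / (1 - s + s ^ 2)) 1 :=
          ContinuousAt.div (by fun_prop) (by fun_prop) (by norm_num)
        exact (continuousAt_const.sub t4).mul t5
      have t6 : (1 - (-(1 : ℝ) ^ 3) ^ l) * ((1 - 1) / (1 - 1 + 1 ^ 2)) = 0 := by
        simp
      have t7 := t3.tendsto
      rw [t6] at t7
      exact t7.mono_left nhdsWithin_le_nhds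
    have t8 : Tendsto (fun s : ℝ => s ^ 2) (𝓝[≠] 1) (𝓝 (1 ^ 2)) :=
      ((continuous_pow 2).tendsto 1).mono_left nhdsWithin_le_nhds
    have t9 := ((((((tendsto_be b1).mul (tendsto_be b2)).mul (tendsto_be b3)).mul t8).mul (t2 l2)).mul (t2 l3))
    have t10 : Tendsto (fun s : ℝ => be s (b1 + b2 + b3) - be s (-b4)) (𝓝[≠] 1)
        (𝓝 ((b1 : ℝ) * b2 * b3 * 1 ^ 2 * 0 * 0)) := by
      refine t9.congr' ?_
      have : ∀ᶠ s in 𝓝[≠] (1 : ℝ), 0 < s := nhdsWithin_le_nhds (lt_mem_nhds one_pos)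
      filter_upwards [self_mem_nhdsWithin, this] with s hs hs0
      exact (key s hs0 hs).symm
    have t11 := tendsto_nhds_unique t1 t10
    rw [mul_zero, sub_eq_zero] at t11
    exact_mod_cast t11
  -- the value at `s = 2`
  have h5 := key 2 (by norm_num) (by norm_num)
  rw [hσ, sub_self] at h5
  have d1 : ∀ l : ℤ, l ≠ 0 → (1 - (-(2 : ℝ) ^ 3) ^ l) * ((2 - 1) / (1 - 2 + 2 ^ 2)) ≠ 0 := by
    intro l hl
    refine mul_ne_zero (fun h6 => hl (zpow_eq_one_lt (s := 2) (by norm_num) (by norm_num) ?_)) (by norm_num)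
    linarith
  have d2 : ∀ b : ℤ, b ≠ 0 → be 2 b ≠ 0 := fun b hb => be_ne_zero (by norm_num) hb
  exact mul_ne_zero (mul_ne_zero (mul_ne_zero (mul_ne_zero (mul_ne_zero (d2 _ c1) (d2 _ c2)) (d2 _ c3))
    (by norm_num)) (d1 _ hl2)) (d1 _ hl3) h5.symm

end four

end Pool.Agent.RG1
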