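import Mathlib

/-!
# Products of powers of conjugates of basis elements of a free group

If `x ^ k * y ^ l * z ^ m = 1` for conjugates `x`, `y`, `z` of basis elements and non-zero
exponents, then `x = y = z`. The proof uses a faithful representation in `SL(2, ℤ)` in which all
basis elements are unipotent (ping-pong).
-/

set_option autoImplicit false

namespace Pool.Agent.RG1

open Matrix

/-- The group `SL(2, ℤ)`. -/
abbrev SLZ : Type := Matrix.SpecialLinearGroup (Fin 2) ℤ

/-- The transvections along a vector. -/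
def tv (a b : ℤ) : Multiplicative ℤ →* SLZ where
  toFun k := ⟨!![1 + 4 * k.toAdd * (a * b), -(4 * k.toAdd * (a * a)); 4 * k.toAdd * (b * b),
    1 - 4 * k.toAdd * (a * b)], by
      rw [Matrix.det_fin_two_of]
      ring⟩
  map_one' := by
    ext i j
    fin_cases i <;> fin_cases j <;> simp
  map_mul' k l := by
    ext i j
    fin_cases i <;> fin_cases j <;>
      simp only [Matrix.SpecialLinearGroup.coe_mul, Matrix.mul_apply, Fin.sum_univ_two, toAdd_mul,
        Matrix.of_apply, Matrix.cons_val', Matrix.cons_val_zero, Matrix.cons_val_one,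
        Matrix.cons_val_fin_one, Fin.zero_eta, Fin.mk_one] <;> ring

theorem tv_coe (a b : ℤ) (k : Multiplicative ℤ) : (tv a b k : Matrix (Fin 2) (Fin 2) ℤ) =
    !![1 + 4 * k.toAdd * (a * b), -(4 * k.toAdd * (a * a)); 4 * k.toAdd * (b * b),
      1 - 4 * k.toAdd * (a * b)] := rfl

/-- Conjugation moves the vector. -/
theorem conj_tv (g : SLZ) (a b : ℤ) (k : Multiplicative ℤ) :
    g * tv a b k * g⁻¹ = tv (g.1 0 0 * a + g.1 0 1 * b) (g.1 1 0 * a + g.1 1 1 * b) k := by
  rw [mul_inv_eq_iff_eq_mul]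
  have hd : g.1 0 0 * g.1 1 1 - g.1 0 1 * g.1 1 0 = 1 := by
    rw [← Matrix.det_fin_two]
    exact g.2
  ext i j
  simp only [Matrix.SpecialLinearGroup.coe_mul, Matrix.mul_apply, Fin.sum_univ_two, tv_coe]
  generalize k.toAdd = n
  generalize hp : g.1 0 0 = p at *
  generalize hq : g.1 0 1 = q at *
  generalize hr : g.1 1 0 = r at *
  generalize hs : g.1 1 1 = s at *
  fin_cases i <;> fin_cases j <;>
    simp only [Matrix.of_apply, Matrix.cons_val', Matrix.cons_val_zero, Matrix.cons_val_one,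
        Matrix.cons_val_fin_one, Fin.zero_eta, Fin.mk_one, hp, hq, hr, hs]
  · linear_combination (-(4 * n * a * b * p + 4 * n * b * b * q)) * hd
  · linear_combination (4 * n * a * a * p + 4 * n * a * b * q) * hd
  · linear_combination (-(4 * n * a * b * r + 4 * n * b * b * s)) * hd
  · linear_combination (4 * n * a * a * r + 4 * n * a * b * s) * hd

/-- Non-zero vectors. -/
def NV : Type := {v : ℤ × ℤ // v ≠ 0}

/-- The linear action. -/
def mv (g : SLZ) (v : ℤ × ℤ) : ℤ × ℤ :=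
  (g.1 0 0 * v.1 + g.1 0 1 * v.2, g.1 1 0 * v.1 + g.1 1 1 * v.2)

theorem mv_one (v : ℤ × ℤ) : mv 1 v = v := by
  simp [mv]

theorem mv_mul (g h : SLZ) (v : ℤ × ℤ) : mv (g * h) v = mv g (mv h v) := by
  simp only [mv, Matrix.SpecialLinearGroup.coe_mul, Matrix.mul_apply, Fin.sum_univ_two]
  refine Prod.ext ?_ ?_ <;> dsimp only <;> ring

theorem mv_zero (g : SLZ) : mv g 0 = 0 := by
  simp [mv]

theorem mv_ne (g : SLZ) {v : ℤ × ℤ} (h : v ≠ 0) : mv g v ≠ 0 := by
  intro h1
  apply h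
  have h2 := mv_mul g⁻¹ g v
  rw [inv_mul_cancel, mv_one, h1, mv_zero] at h2
  exact h2

instance : MulAction SLZ NV where
  smul g v := ⟨mv g v.1, mv_ne g v.2⟩
  one_smul v := Subtype.ext (mv_one v.1)
  mul_smul g h v := Subtype.ext (mv_mul g h v.1)

theorem smul_val (g : SLZ) (v : NV) : (g • v).1 = mv g v.1 := rfl

section

variable {ι : Type} (c : ι → ℤ)

/-- The images of the basis elements. -/
def gen (i : ι) : SLZ := tv (c i) 1 (Multiplicative.ofAdd 1)

theorem mv_gen (i : ι) (v : ℤ × ℤ) :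
    mv (gen c i) v = (v.1 + 4 * c i * (v.1 - c i * v.2), v.2 + 4 * (v.1 - c i * v.2)) := by
  simp only [mv, gen, tv_coe, toAdd_ofAdd, Matrix.of_apply, Matrix.cons_val', Matrix.cons_val_zero,
    Matrix.cons_val_one, Matrix.cons_val_fin_one]
  refine Prod.ext ?_ ?_ <;> dsimp only <;> ring

/-- The attracting sets. -/
def XS (i : ι) : Set NV := {v | 2 * (v.1.1 - c i * v.1.2) ^ 2 ≤ v.1.2 * (v.1.1 - c i * v.1.2)}

/-- The repelling sets. -/
def YS (i : ι) : Set NV := {v | v.1.2 * (v.1.1 - c i * v.1.2) < -(2 * (v.1.1 - c i * v.1.2) ^ 2)}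

theorem xs_range {y u : ℤ} (hy : y ≠ 0) (h : 2 * u ^ 2 ≤ y * u) :
    (0 < y ∧ 0 ≤ u ∧ 2 * u ≤ y) ∨ (y < 0 ∧ u ≤ 0 ∧ y ≤ 2 * u) := by
  rcases lt_or_gt_of_ne hy with h1 | h1
  · right
    have h2 : u ≤ 0 := by
      by_contra h3
      nlinarith
    refine ⟨h1, h2, ?_⟩
    rcases eq_or_lt_of_le h2 with h4 | h4
    · rw [h4]
      linarith
    · by_contra h5
      nlinarith
  · left
    have h2 : 0 ≤ u := by
      by_contra h3
      nlinarith
    refine ⟨h1, h2, ?_⟩
    rcases eq_or_lt_of_le h2 with h4 | h4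
    · rw [← h4]
      linarith
    · by_contra h5
      nlinarith

theorem ys_range {y u : ℤ} (h : y * u < -(2 * u ^ 2)) :
    (0 < y ∧ u < 0 ∧ -y < 2 * u) ∨ (y < 0 ∧ 0 < u ∧ 2 * u < -y) := by
  have hu : u ≠ 0 := by
    rintro rfl
    simp at h
  rcases lt_or_gt_of_ne hu with h1 | h1
  · left
    have h2 : -y < 2 * u := by
      by_contra h3
      nlinarith
    exact ⟨by linarith, h1, h2⟩
  · right
    have h2 : 2 * u < -y := by
      by_contra h3
      nlinarith
    exact ⟨by linarith, h1, h2⟩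

theorem small {y k : ℤ} (h1 : |k * y| < |y|) : k = 0 := by
  by_contra h
  have h2 : 1 ≤ |k| := Int.one_le_abs h
  rw [abs_mul] at h1
  nlinarith [abs_nonneg y]

theorem y_ne {v : NV} {i : ι} (h : v ∈ XS c i) : v.1.2 ≠ 0 := by
  intro h0
  simp only [XS, Set.mem_ofPred_eq, h0, mul_zero, sub_zero, zero_mul] at h
  have h1 : v.1.1 = 0 := by nlinarith
  exact v.2 (Prod.ext h1 h0)

theorem gen_injective [Nontrivial ι] (hc : Function.Injective c) :
    Function.Injective (FreeGroup.lift (gen c)) := by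
  refine FreeGroup.injective_lift_of_ping_pong (gen c) (XS c) (YS c) ?_ ?_ ?_ ?_ ?_ ?_
  · intro i
    refine ⟨⟨(c i, 1), by simp⟩, ?_⟩
    simp [XS]
  · intro i j hij
    rw [Function.onFun, Set.disjoint_left]
    intro v hi hj
    apply hij
    apply hc
    have hy := y_ne c hi
    have h1 := xs_range hy hi
    have h2 := xs_range hy hj
    rw [← sub_eq_zero]
    apply small (y := v.1.2)
    have e : (c i - c j) * v.1.2 = (v.1.1 - c j * v.1.2) - (v.1.1 - c i * v.1.2) := by ring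
    rw [e]
    rcases h1 with ⟨h3, h4, h5⟩ | ⟨h3, h4, h5⟩ <;> rcases h2 with ⟨h6, h7, h8⟩ | ⟨h6, h7, h8⟩
    · rw [abs_of_pos h3, abs_lt]
      constructor <;> linarith
    · linarith
    · linarith
    · rw [abs_of_neg h3, abs_lt]
      constructor <;> linarith
  · intro i j hij
    rw [Function.onFun, Set.disjoint_left]
    intro v hi hj
    apply hij
    apply hc
    have h1 := ys_range hi
    have h2 := ys_range hj
    rw [← sub_eq_zero]
    apply small (y := v.1.2)
    have e : (c i - c j) * v.1.2 = (v.1.1 - c j * v.1.2) - (v.1.1 - c i * v.1.2) := by ring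
    rw [e]
    rcases h1 with ⟨h3, h4, h5⟩ | ⟨h3, h4, h5⟩ <;> rcases h2 with ⟨h6, h7, h8⟩ | ⟨h6, h7, h8⟩
    · rw [abs_of_pos h3, abs_lt]
      constructor <;> linarith
    · linarith
    · linarith
    · rw [abs_of_neg h3, abs_lt]
      constructor <;> linarith
  · intro i j
    rw [Set.disjoint_left]
    intro v hi hj
    have hy := y_ne c hi
    have h1 := xs_range hy hi
    have h2 := ys_range hj
    have e : (c i - c j) * v.1.2 = (v.1.1 - c j * v.1.2) - (v.1.1 - c i * v.1.2) := by ring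
    have h9 : c i - c j = 0 := by
      apply small (y := v.1.2)
      rw [e]
      rcases h1 with ⟨h3, h4, h5⟩ | ⟨h3, h4, h5⟩ <;> rcases h2 with ⟨h6, h7, h8⟩ | ⟨h6, h7, h8⟩
      · rw [abs_of_pos h3, abs_lt]
        constructor <;> linarith
      · linarith
      · linarith
      · rw [abs_of_neg h3, abs_lt]
        constructor <;> linarith
    rw [h9, zero_mul] at e
    rcases h1 with ⟨h3, h4, h5⟩ | ⟨h3, h4, h5⟩ <;> rcases h2 with ⟨h6, h7, h8⟩ | ⟨h6, h7, h8⟩ <;>
      linarith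
  · rintro i _ ⟨v, hv, rfl⟩
    simp only [Set.mem_compl_iff, YS, Set.mem_ofPred_eq, not_lt] at hv
    simp only [XS, Set.mem_ofPred_eq, smul_val, mv_gen]
    ring_nf
    ring_nf at hv
    nlinarith
  · intro i v hv
    rw [Pi.inv_apply, Set.mem_inv_smul_set_iff, Set.mem_compl_iff] at hv
    simp only [XS, Set.mem_ofPred_eq, smul_val, mv_gen, not_le] at hv
    simp only [YS, Set.mem_ofPred_eq]
    ring_nf at hv ⊢
    linarith

end

theorem trace_tv (a b a' b' : ℤ) (k l : Multiplicative ℤ) :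
    Matrix.trace (tv a b k * tv a' b' l : SLZ).1 =
      2 - 16 * k.toAdd * l.toAdd * (a * b' - b * a') ^ 2 := by
  rw [Matrix.trace_fin_two]
  simp only [Matrix.SpecialLinearGroup.coe_mul, Matrix.mul_apply, Fin.sum_univ_two, tv_coe,
    Matrix.of_apply, Matrix.cons_val', Matrix.cons_val_zero, Matrix.cons_val_one,
    Matrix.cons_val_fin_one]
  ring

theorem trace_tv' (a b : ℤ) (k : Multiplicative ℤ) : Matrix.trace (tv a b k : SLZ).1 = 2 := by
  rw [Matrix.trace_fin_two, tv_coe]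
  simp only [Matrix.of_apply, Matrix.cons_val', Matrix.cons_val_zero, Matrix.cons_val_one,
    Matrix.cons_val_fin_one]
  ring

theorem tv_eq {a b a' b' : ℤ} (h : IsCoprime a b) (h' : IsCoprime a' b')
    (hp : a * b' - b * a' = 0) : tv a b = tv a' b' := by
  obtain ⟨u, v, huv⟩ := h
  obtain ⟨u', v', huv'⟩ := h'
  set e := u * a' + v * b' with he
  have h1 : a' = e * a := by
    rw [he]
    linear_combination (-a') * huv - v * hp
  have h2 : b' = e * b := by
    rw [he]
    linear_combination (-b') * huv + u * hp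
  have h3 : IsUnit e := by
    rw [isUnit_iff_exists_inv]
    refine ⟨u' * a + v' * b, ?_⟩
    rw [h1, h2] at huv'
    linear_combination huv'
  have h4 : e * e = 1 := by
    rcases Int.isUnit_iff.1 h3 with h5 | h5 <;> rw [h5] <;> norm_num
  refine MonoidHom.ext fun k => Subtype.ext (Matrix.ext fun i j => ?_)
  rw [tv_coe, tv_coe, h1, h2]
  fin_cases i <;> fin_cases j <;>
    simp only [Matrix.of_apply, Matrix.cons_val', Matrix.cons_val_zero, Matrix.cons_val_one,
        Matrix.cons_val_fin_one, Fin.zero_eta, Fin.mk_one]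
  · linear_combination (-(4 * k.toAdd * a * b)) * h4
  · linear_combination (4 * k.toAdd * a * a) * h4
  · linear_combination (-(4 * k.toAdd * b * b)) * h4
  · linear_combination (4 * k.toAdd * a * b) * h4

/-- Conjugates of basis elements. -/
def IsBC {ι : Type} (x : FreeGroup ι) : Prop := ∃ g i, x = g * FreeGroup.of i * g⁻¹

theorem IsBC.conj {ι : Type} {x : FreeGroup ι} (h : IsBC x) (g : FreeGroup ι) :
    IsBC (g * x * g⁻¹) := by
  obtain ⟨g', i, rfl⟩ := h
  exact ⟨g * g', i, by group⟩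

section

variable {ι : Type} (c : ι → ℤ)

theorem exists_tv {x : FreeGroup ι} (h : IsBC x) : ∃ a b : ℤ, IsCoprime a b ∧
    ∀ k : ℤ, FreeGroup.lift (gen c) (x ^ k) = tv a b (Multiplicative.ofAdd k) := by
  obtain ⟨g, i, rfl⟩ := h
  set r := FreeGroup.lift (gen c) g with hr
  refine ⟨r.1 0 0 * c i + r.1 0 1 * 1, r.1 1 0 * c i + r.1 1 1 * 1, ⟨-(r.1 1 0), r.1 0 0, ?_⟩, ?_⟩
  · have hd : r.1 0 0 * r.1 1 1 - r.1 0 1 * r.1 1 0 = 1 := by
      rw [← Matrix.det_fin_two]
      exact r.2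
    linear_combination hd
  · intro k
    rw [map_zpow, map_mul, map_mul, map_inv, FreeGroup.lift_apply_of, ← hr, gen, conj_tv, ← map_zpow]
    congr 1
    rw [← ofAdd_zsmul]
    simp

variable [Nontrivial ι] (hc : Function.Injective c)

include hc

theorem eq_of_aux {x y z : FreeGroup ι} (hx : IsBC x) (hy : IsBC y) (hz : IsBC z) {k l m : ℤ}
    (hk : k ≠ 0) (hl : l ≠ 0) (h : x ^ k * y ^ l = z ^ m) : x = y := by
  obtain ⟨a, b, hab, ha⟩ := exists_tv c hx
  obtain ⟨a', b', hab', ha'⟩ := exists_tv c hy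
  obtain ⟨a1, b1, -, h1⟩ := exists_tv c hz
  have h2 := congrArg (fun w => Matrix.trace (FreeGroup.lift (gen c) w).1) h
  simp only [map_mul] at h2
  rw [ha, ha', h1, trace_tv, trace_tv', toAdd_ofAdd, toAdd_ofAdd] at h2
  have h3 : a * b' - b * a' = 0 := by
    have h4 : 16 * k * l * (a * b' - b * a') ^ 2 = 0 := by linarith
    rcases mul_eq_zero.1 h4 with h5 | h5
    · rcases mul_eq_zero.1 h5 with h6 | h6
      · rcases mul_eq_zero.1 h6 with h7 | h7
        · norm_num at h7
        · exact absurd h7 hk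
      · exact absurd h6 hl
    · exact pow_eq_zero_iff (two_ne_zero) |>.1 h5
  have h4 := tv_eq hab hab' h3
  apply gen_injective c hc
  have h5 := ha 1
  have h6 := ha' 1
  rw [zpow_one] at h5 h6
  rw [h5, h6, h4]

end

/-- **The lemma on free groups.** -/
theorem eq_of_mul_eq {ι : Type} [Nontrivial ι] [Countable ι] {x y z : FreeGroup ι} (hx : IsBC x)
    (hy : IsBC y) (hz : IsBC z) {k l m : ℤ} (hk : k ≠ 0) (hl : l ≠ 0)
    (h : x ^ k * y ^ l = z ^ m) : x = y := by
  obtain ⟨f, hf⟩ := exists_injective_nat ι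
  exact eq_of_aux (fun i => (f i : ℤ)) (fun i j hij => hf (Int.ofNat_injective hij)) hx hy hz hk hl h

/-- Three factors. -/
theorem eq_of_three {ι : Type} [Nontrivial ι] [Countable ι] {x y z : FreeGroup ι} (hx : IsBC x)
    (hy : IsBC y) (hz : IsBC z) {k l m : ℤ} (hk : k ≠ 0) (hl : l ≠ 0) (hm : m ≠ 0)
    (h : x ^ k * y ^ l * z ^ m = 1) : x = y ∧ y = z := by
  refine ⟨eq_of_mul_eq hx hy hz hk hl (m := -m) ?_, eq_of_mul_eq hy hz hx hl hm (m := -k) ?_⟩
  · rw [_root_.zpow_neg]
    exact mul_eq_one_iff_eq_inv.1 h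
  · rw [_root_.zpow_neg, ← mul_eq_one_iff_eq_inv]
    have h1 : x ^ k * (y ^ l * z ^ m * x ^ k) * (x ^ k)⁻¹ = 1 := by
      rw [show x ^ k * (y ^ l * z ^ m * x ^ k) * (x ^ k)⁻¹ = x ^ k * y ^ l * z ^ m by group, h]
    rwa [conj_eq_one_iff] at h1

/-- Two factors. -/
theorem eq_of_zpow_eq {ι : Type} [Nontrivial ι] [Countable ι] {x y : FreeGroup ι} (hx : IsBC x)
    (hy : IsBC y) {k l : ℤ} (hk : k ≠ 0) (hl : l ≠ 0) (h : x ^ k = y ^ l) : x = y := by
  refine eq_of_mul_eq hx hy hx hk (neg_ne_zero.2 hl) (m := 0) ?_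
  rw [h, zpow_zero, ← _root_.zpow_add, add_neg_cancel, zpow_zero]

/-- What commutes with a power commutes with the element. -/
theorem commute_of_zpow {ι : Type} [Nontrivial ι] [Countable ι] {x g : FreeGroup ι} (hx : IsBC x)
    {k : ℤ} (hk : k ≠ 0) (h : Commute (x ^ k) g) : Commute x g := by
  have h1 : (g * x * g⁻¹) ^ k = x ^ k := by
    rw [conj_zpow, ← h.eq, mul_inv_cancel_right]
  have h2 := eq_of_zpow_eq (hx.conj g) hx hk hk h1
  exact (mul_inv_eq_iff_eq_mul.1 h2).symm

end Pool.Agent.RG1
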