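import Mathlib

/-!
# The Artin group of type A2: a normal form, and the coordinate which detects `⟨t⟩`
-/

set_option autoImplicit false

namespace Pool.Agent.RG1

section nf

variable {G : Type} [Group G] {t i : G} (h : i * t * i = t * i * t)

include h

theorem semi (n : ℤ) : t ^ n * (i * t) = i * t * i ^ n := by
  have h1 : SemiconjBy (i * t) i t := by
    rw [SemiconjBy, h, mul_assoc]
  exact (h1.zpow_right n).symm

theorem z_t : t * (t * i) ^ 3 = (t * i) ^ 3 * t := by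
  have e : (t * i) ^ 3 = (t * i * t) * (i * t * i) := by
    rw [pow_succ, pow_two]
    simp only [mul_assoc]
  have h1 : t * (t * i * t) = (t * i * t) * i := by
    rw [← h]
    calc t * (i * t * i) = (t * i * t) * i := by simp only [mul_assoc]
      _ = i * t * i * i := by rw [h]
  have h2 : i * (t * i * t) = (t * i * t) * t := by
    calc i * (t * i * t) = (i * t * i) * t := by simp only [mul_assoc]
      _ = t * i * t * t := by rw [h]
  rw [e, h]
  calc t * (t * i * t * (t * i * t)) = t * (t * i * t) * (t * i * t) := by simp only [mul_assoc]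
    _ = (t * i * t) * (i * (t * i * t)) := by rw [h1, mul_assoc (t * i * t)]
    _ = (t * i * t) * (t * i * t) * t := by rw [h2, ← mul_assoc]

theorem z_i : i * (t * i) ^ 3 = (t * i) ^ 3 * i := by
  have e : (t * i) ^ 3 = (t * i * t) * (i * t * i) := by
    rw [pow_succ, pow_two]
    simp only [mul_assoc]
  have h1 : t * (t * i * t) = (t * i * t) * i := by
    rw [← h]
    calc t * (i * t * i) = (t * i * t) * i := by simp only [mul_assoc]
      _ = i * t * i * i := by rw [h]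
  have h2 : i * (t * i * t) = (t * i * t) * t := by
    calc i * (t * i * t) = (i * t * i) * t := by simp only [mul_assoc]
      _ = t * i * t * t := by rw [h]
  rw [e, h]
  calc i * (t * i * t * (t * i * t)) = i * (t * i * t) * (t * i * t) := by simp only [mul_assoc]
    _ = (t * i * t) * (t * (t * i * t)) := by rw [h2, mul_assoc (t * i * t)]
    _ = (t * i * t) * (t * i * t) * i := by rw [h1, ← mul_assoc]

theorem it_it (n : ℤ) : i * t ^ (n + 2) * i = (t * i) ^ 3 * t⁻¹ * i ^ n * t⁻¹ := by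
  have h1 : (t * i) ^ 3 * t⁻¹ = i * t * (i * t) * i := by
    rw [mul_inv_eq_iff_eq_mul, ← mul_right_inj t, z_t h, pow_succ, pow_two]
    simp only [mul_assoc]
  have h2 := semi h (n + 1)
  calc i * t ^ (n + 2) * i = i * t * (t ^ (n + 1) * (i * t)) * t⁻¹ := by
        rw [show n + 2 = 1 + (n + 1) by ring, zpow_add, zpow_one]
        group
    _ = i * t * (i * t * i ^ (n + 1)) * t⁻¹ := by rw [h2]
    _ = i * t * (i * t) * i * i ^ n * t⁻¹ := by
        rw [show n + 1 = 1 + n by ring, zpow_add, zpow_one]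
        simp only [mul_assoc]
    _ = (t * i) ^ 3 * t⁻¹ * i ^ n * t⁻¹ := by rw [h1]

/-- The normal form. -/
def NF (t i x : G) : Prop := ∃ a l b : ℤ, ∃ P ∈ Submonoid.closure ({t⁻¹, i} : Set G),
  x = t ^ a * ((t * i) ^ 3) ^ l * P * t ^ b

theorem nf_mul_t {x : G} (hx : NF t i x) (n : ℤ) : NF t i (x * t ^ n) := by
  obtain ⟨a, l, b, P, hP, rfl⟩ := hx
  exact ⟨a, l, b + n, P, hP, by rw [zpow_add]; simp only [mul_assoc]⟩

theorem zt (l n : ℤ) : ((t * i) ^ 3) ^ l * t ^ n = t ^ n * ((t * i) ^ 3) ^ l := by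
  have h1 : Commute t ((t * i) ^ 3) := z_t h
  exact ((h1.zpow_zpow n l).eq).symm

theorem z_closure (l : ℤ) {P : G} (hP : P ∈ Submonoid.closure ({t⁻¹, i} : Set G)) :
    ((t * i) ^ 3) ^ l * P = P * ((t * i) ^ 3) ^ l := by
  have h1 : Commute t⁻¹ (((t * i) ^ 3) ^ l) := (Commute.zpow_right (z_t h) l).inv_left
  have h2 : Commute i (((t * i) ^ 3) ^ l) := Commute.zpow_right (z_i h) l
  have h3 : Submonoid.closure ({t⁻¹, i} : Set G) ≤ Submonoid.centralizer {((t * i) ^ 3) ^ l} := by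
    rw [Submonoid.closure_le]
    rintro y (rfl | rfl)
    · exact Submonoid.mem_centralizer_iff.2 (by rintro _ rfl; exact h1.eq.symm)
    · exact Submonoid.mem_centralizer_iff.2 (by rintro _ rfl; exact h2.eq.symm)
  exact Submonoid.mem_centralizer_iff.1 (h3 hP) _ rfl

theorem nf_left {x : G} (hx : NF t i x) (a l : ℤ) : NF t i (t ^ a * ((t * i) ^ 3) ^ l * x) := by
  obtain ⟨a', l', b, P, hP, rfl⟩ := hx
  refine ⟨a + a', l + l', b, P, hP, ?_⟩
  rw [zpow_add t, zpow_add ((t * i) ^ 3)]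
  calc t ^ a * ((t * i) ^ 3) ^ l * (t ^ a' * ((t * i) ^ 3) ^ l' * P * t ^ b) =
        t ^ a * (((t * i) ^ 3) ^ l * t ^ a') * ((t * i) ^ 3) ^ l' * P * t ^ b := by
        simp only [mul_assoc]
    _ = t ^ a * (t ^ a' * ((t * i) ^ 3) ^ l) * ((t * i) ^ 3) ^ l' * P * t ^ b := by rw [zt h]
    _ = _ := by simp only [mul_assoc]

theorem nf_word {P : G} (hP : P ∈ Submonoid.closure ({t⁻¹, i} : Set G)) :
    ∀ b : ℤ, NF t i (P * t ^ b * i) := by
  induction hP using Submonoid.closure_induction_right with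
  | one =>
    intro b
    exact ⟨b, 0, 0, i, Submonoid.subset_closure (by simp), by simp⟩
  | mul_right P hP g hg ih =>
    intro b
    rcases hg with rfl | rfl
    · have := ih (b - 1)
      rwa [show P * t ^ (b - 1) * i = P * t⁻¹ * t ^ b * i by
        rw [sub_eq_neg_add, zpow_add, zpow_neg_one]; simp only [mul_assoc]] at this
    · rcases lt_trichotomy b 1 with hb | rfl | hb
      · -- `t ^ b` is in the monoid
        obtain ⟨n, hn⟩ := Int.exists_eq_neg_ofNat (show b ≤ 0 by omega)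
        refine ⟨0, 0, 0, P * g * t ^ b * g, ?_, by simp⟩
        refine Submonoid.mul_mem _ (Submonoid.mul_mem _ (Submonoid.mul_mem _ hP
          (Submonoid.subset_closure (by simp))) ?_) (Submonoid.subset_closure (by simp))
        rw [hn, zpow_neg, zpow_natCast, ← inv_pow]
        exact Submonoid.pow_mem _ (Submonoid.subset_closure (by simp)) _
      · have h1 := nf_mul_t h (ih 1) 1
        rwa [show P * t ^ (1 : ℤ) * g * t ^ (1 : ℤ) = P * g * t ^ (1 : ℤ) * g by
          rw [zpow_one]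
          calc P * t * g * t = P * (t * g * t) := by simp only [mul_assoc]
            _ = P * (g * t * g) := by rw [h]
            _ = P * g * t * g := by simp only [mul_assoc]] at h1
      · obtain ⟨n, rfl⟩ : ∃ n : ℕ, b = (n : ℤ) + 2 := ⟨(b - 2).toNat, by omega⟩
        refine ⟨0, 1, -1, P * t⁻¹ * g ^ n, ?_, ?_⟩
        · exact Submonoid.mul_mem _ (Submonoid.mul_mem _ hP (Submonoid.subset_closure (by simp)))
            (Submonoid.pow_mem _ (Submonoid.subset_closure (by simp)) _)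
        · have h1 := it_it h (n : ℤ)
          have h2 := z_closure h 1 hP
          rw [zpow_one] at h2
          calc P * g * t ^ ((n : ℤ) + 2) * g = P * (g * t ^ ((n : ℤ) + 2) * g) := by
                simp only [mul_assoc]
            _ = P * ((t * g) ^ 3 * t⁻¹ * g ^ (n : ℤ) * t⁻¹) := by rw [h1]
            _ = (P * (t * g) ^ 3) * t⁻¹ * g ^ (n : ℤ) * t⁻¹ := by simp only [mul_assoc]
            _ = ((t * g) ^ 3 * P) * t⁻¹ * g ^ (n : ℤ) * t⁻¹ := by rw [h2]
            _ = _ := by simp only [zpow_zero, one_mul, zpow_one, zpow_natCast, zpow_neg_one,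
              mul_assoc]

theorem nf_mul_i {x : G} (hx : NF t i x) : NF t i (x * i) := by
  obtain ⟨a, l, b, P, hP, rfl⟩ := hx
  have h1 := nf_left h (nf_word h hP b) a l
  rwa [show t ^ a * ((t * i) ^ 3) ^ l * (P * t ^ b * i) =
    t ^ a * ((t * i) ^ 3) ^ l * P * t ^ b * i by simp only [mul_assoc]] at h1

theorem nf_mul_z {x : G} (hx : NF t i x) (n : ℤ) : NF t i (x * ((t * i) ^ 3) ^ n) := by
  obtain ⟨a, l, b, P, hP, rfl⟩ := hx
  refine ⟨a, l + n, b, P, hP, ?_⟩
  calc t ^ a * ((t * i) ^ 3) ^ l * P * t ^ b * ((t * i) ^ 3) ^ n =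
        t ^ a * ((t * i) ^ 3) ^ l * P * (t ^ b * ((t * i) ^ 3) ^ n) := by simp only [mul_assoc]
    _ = t ^ a * ((t * i) ^ 3) ^ l * (P * ((t * i) ^ 3) ^ n) * t ^ b := by
        rw [(zt h n b).symm]
        simp only [mul_assoc]
    _ = t ^ a * ((t * i) ^ 3) ^ (l + n) * P * t ^ b := by
        rw [← z_closure h n hP, zpow_add]
        simp only [mul_assoc]

/-- **The normal form.** -/
theorem nf3 {x : G} (hx : x ∈ Subgroup.closure ({t, i} : Set G)) : NF t i x := by
  have ht : ∀ {x : G}, NF t i x → NF t i (x * t) := fun {x} hx => by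
    have := nf_mul_t h hx 1
    rwa [zpow_one] at this
  induction hx using Subgroup.closure_induction_right with
  | one => exact ⟨0, 0, 0, 1, Submonoid.one_mem _, by simp⟩
  | mul_right x _ y hy ih =>
    rcases hy with rfl | rfl
    · exact ht ih
    · exact nf_mul_i h ih
  | mul_inv_cancel x _ y hy ih =>
    rcases hy with rfl | rfl
    · have := nf_mul_t h ih (-1)
      rwa [zpow_neg_one] at this
    · have h1 := nf_mul_z h (ht (nf_mul_i h (ht (nf_mul_i h (ht ih))))) (-1)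
      have h2 : x * t * y * t * y * t * ((t * y) ^ 3) ^ (-1 : ℤ) = x * y⁻¹ := by
        rw [zpow_neg_one, mul_inv_eq_iff_eq_mul, mul_assoc x y⁻¹, ← mul_right_inj x⁻¹]
        have h3 : y⁻¹ * (t * y) ^ 3 = (t * y) ^ 3 * y⁻¹ := by
          rw [inv_mul_eq_iff_eq_mul, ← mul_assoc, z_i h, mul_inv_cancel_right]
        rw [h3, pow_succ, pow_two]
        group
      rwa [h2] at h1

end nf

section rep

variable {G : Type} [Group G] {t i : G}

/-- The Burau representation, extended by the vector `(0, 0, 1)`. -/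
structure Bur (t i : G) (s : ℝ) (r : G →* Module.End ℝ (ℝ × ℝ × ℝ)) : Prop where
  t_apply : ∀ u v w, r t (u, v, w) = (s * u - v, v, w)
  i_apply : ∀ u v w, r i (u, v, w) = (u, s * u + s * v + w, w)

variable {s : ℝ} {r : G →* Module.End ℝ (ℝ × ℝ × ℝ)} (hr : Bur t i s r)

theorem r_mul_apply (r : G →* Module.End ℝ (ℝ × ℝ × ℝ)) (x y : G) (p : ℝ × ℝ × ℝ) :
    r (x * y) p = r x (r y p) := by
  rw [map_mul, Module.End.mul_apply]

theorem r_inv_apply (r : G →* Module.End ℝ (ℝ × ℝ × ℝ)) (x : G) (p : ℝ × ℝ × ℝ) :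
    r x⁻¹ (r x p) = p := by
  rw [← r_mul_apply, inv_mul_cancel, map_one, Module.End.one_apply]

include hr

theorem tinv_apply (hs : s ≠ 0) (u v w : ℝ) : r t⁻¹ (u, v, w) = ((u + v) / s, v, w) := by
  have h1 : (u, v, w) = r t ((u + v) / s, v, w) := by
    rw [hr.t_apply, mul_div_cancel₀ _ hs, add_sub_cancel_right]
  rw [h1, r_inv_apply]

theorem t_zpow (a : ℤ) : (∀ p, (r (t ^ a) p).2.1 = p.2.1) ∧ r (t ^ a) (0, 0, 1) = (0, 0, 1) := by
  have h1 : ∀ p, (r t p).2.1 = p.2.1 := by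
    rintro ⟨u, v, w⟩
    rw [hr.t_apply]
  have h2 : r t (0, 0, 1) = (0, 0, 1) := by
    rw [hr.t_apply]
    simp
  have h1' : ∀ p, (r t⁻¹ p).2.1 = p.2.1 := fun p => by
    rw [← h1 (r t⁻¹ p), ← r_mul_apply, mul_inv_cancel, map_one, Module.End.one_apply]
  have h2' : r t⁻¹ (0, 0, 1) = (0, 0, 1) := by
    nth_rewrite 1 [← h2]
    rw [r_inv_apply]
  induction a using Int.induction_on with
  | zero => simp
  | succ n ih =>
    refine ⟨fun p => ?_, ?_⟩
    · rw [zpow_add_one, r_mul_apply, ih.1, h1]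
    · rw [zpow_add_one, r_mul_apply, h2, ih.2]
  | pred n ih =>
    refine ⟨fun p => ?_, ?_⟩
    · rw [zpow_sub_one, r_mul_apply, ih.1, h1']
    · rw [zpow_sub_one, r_mul_apply, h2', ih.2]

/-- The centre acts on the fixed vector `(q₁, q₂, 1)` and by a scalar on the plane. -/
theorem z_apply (hs : 1 - s + s ^ 2 ≠ 0) (a b : ℝ) :
    r ((t * i) ^ 3) (-1 / (1 - s + s ^ 2) + a, (1 - s) / (1 - s + s ^ 2) + b, 1) =
      (-1 / (1 - s + s ^ 2) + -s ^ 3 * a, (1 - s) / (1 - s + s ^ 2) + -s ^ 3 * b, 1) := by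
  rw [pow_succ, pow_two]
  simp only [r_mul_apply, hr.t_apply, hr.i_apply]
  refine Prod.ext ?_ (Prod.ext ?_ rfl) <;> dsimp only <;> field_simp <;> ring

theorem z_zpow (hs : 1 - s + s ^ 2 ≠ 0) (hs0 : s ≠ 0) (l : ℤ) : ∀ a b : ℝ,
    r (((t * i) ^ 3) ^ l) (-1 / (1 - s + s ^ 2) + a, (1 - s) / (1 - s + s ^ 2) + b, 1) =
      (-1 / (1 - s + s ^ 2) + (-s ^ 3) ^ l * a, (1 - s) / (1 - s + s ^ 2) + (-s ^ 3) ^ l * b, 1) := by
  have hne : (-s ^ 3 : ℝ) ≠ 0 := neg_ne_zero.2 (pow_ne_zero _ hs0)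
  induction l using Int.induction_on with
  | zero => intro a b; simp
  | succ n ih =>
    intro a b
    rw [zpow_add_one, r_mul_apply, z_apply hr hs, ih, zpow_add_one₀ hne]
    refine Prod.ext ?_ (Prod.ext ?_ rfl) <;> dsimp only <;> ring
  | pred n ih =>
    intro a b
    have h1 := ih (a / -s ^ 3) (b / -s ^ 3)
    have h2 := z_apply hr hs (a / -s ^ 3) (b / -s ^ 3)
    rw [mul_div_cancel₀ _ hne, mul_div_cancel₀ _ hne] at h2
    rw [← h2, zpow_sub_one, r_mul_apply, r_inv_apply, h1, zpow_sub_one₀ hne]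
    refine Prod.ext ?_ (Prod.ext ?_ rfl) <;> dsimp only <;> ring

/-- Positivity. -/
theorem word_apply (hs : 0 < s) {P : G} (hP : P ∈ Submonoid.closure ({t⁻¹, i} : Set G)) :
    ∃ u v : ℝ, 0 ≤ u ∧ 0 ≤ v ∧ r P (0, 0, 1) = (u, v, 1) ∧
      (1 ≤ v ∨ (v = 0 ∧ P ∈ Subgroup.zpowers t)) := by
  induction hP using Submonoid.closure_induction_left with
  | one => exact ⟨0, 0, le_rfl, le_rfl, by simp, Or.inr ⟨rfl, one_mem _⟩⟩
  | mul_left g hg P hP ih =>
    obtain ⟨u, v, hu, hv, h1, h2⟩ := ih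
    rcases hg with rfl | rfl
    · refine ⟨(u + v) / s, v, by positivity, hv, ?_, ?_⟩
      · rw [r_mul_apply, h1, tinv_apply hr hs.ne']
      · rcases h2 with h2 | ⟨h2, h3⟩
        · exact Or.inl h2
        · exact Or.inr ⟨h2, mul_mem (inv_mem (Subgroup.mem_zpowers t)) h3⟩
    · refine ⟨u, s * u + s * v + 1, hu, by positivity, ?_, Or.inl ?_⟩
      · rw [r_mul_apply, h1, hr.i_apply]
      · have : 0 ≤ s * u + s * v := by positivity
        linarith

theorem nf_apply (hs : 1 - s + s ^ 2 ≠ 0) (hs0 : s ≠ 0) {P : G} {a l b : ℤ} {u v : ℝ}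
    (h : r P (0, 0, 1) = (u, v, 1)) :
    (r (t ^ a * ((t * i) ^ 3) ^ l * P * t ^ b) (0, 0, 1)).2.1 =
      (1 - s) / (1 - s + s ^ 2) + (-s ^ 3) ^ l * (v - (1 - s) / (1 - s + s ^ 2)) := by
  rw [r_mul_apply, r_mul_apply, r_mul_apply, (t_zpow hr b).2, h, (t_zpow hr a).1]
  have := z_zpow hr hs hs0 l (u - -1 / (1 - s + s ^ 2)) (v - (1 - s) / (1 - s + s ^ 2))
  rw [add_sub_cancel, add_sub_cancel] at this
  rw [this]

omit hr

/-- **Lemma C.** -/
theorem lemC (h : i * t * i = t * i * t) {r₁ r₂ : G →* Module.End ℝ (ℝ × ℝ × ℝ)}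
    (h₁ : Bur t i 2 r₁) (h₂ : Bur t i (1 / 2) r₂) {x : G}
    (hx : x ∈ Subgroup.closure ({t, i} : Set G)) (h1 : (r₁ x (0, 0, 1)).2.1 = 0)
    (h2 : (r₂ x (0, 0, 1)).2.1 = 0) : x ∈ Subgroup.zpowers t := by
  obtain ⟨a, l, b, P, hP, rfl⟩ := nf3 h hx
  obtain ⟨u, v, hu, hv, h3, h4⟩ := word_apply h₁ (by norm_num) hP
  obtain ⟨u', v', hu', hv', h3', h4'⟩ := word_apply h₂ (by norm_num) hP
  rw [nf_apply h₁ (by norm_num) (by norm_num) h3] at h1
  rw [nf_apply h₂ (by norm_num) (by norm_num) h3'] at h2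
  norm_num at h1 h2
  have h5 : (-8 : ℝ) ^ l * (3 * v + 1) = 1 := by linarith
  have h6 : (-(1 / 8) : ℝ) ^ l = ((-8 : ℝ) ^ l)⁻¹ := by
    rw [← inv_zpow]
    norm_num
  have h7 : (-8 : ℝ) ^ l ≠ 0 := zpow_ne_zero _ (by norm_num)
  have h8 : 0 < (-8 : ℝ) ^ l := by
    by_contra h9
    push Not at h9
    nlinarith
  have hv0 : v' = 0 ∧ P ∈ Subgroup.zpowers t := by
    rcases h4' with h9 | h9
    · exfalso
      rw [h6] at h2
      have h10 : 0 < ((-8 : ℝ) ^ l)⁻¹ := inv_pos.2 h8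
      nlinarith
    · exact h9
  have hl : l = 0 := by
    rw [h6, hv0.1] at h2
    have h10 : ((-8 : ℝ) ^ l)⁻¹ = 1 := by linarith
    have h11 : (8 : ℝ) ^ l = 1 := by
      have h12 := congrArg abs h10
      rw [abs_inv, abs_zpow, abs_neg, abs_one, inv_eq_one] at h12
      rwa [abs_of_pos (by norm_num : (0 : ℝ) < 8)] at h12
    exact (zpow_eq_one_iff_right₀ (by norm_num) (by norm_num)).1 h11
  rw [hl, zpow_zero, mul_one]
  exact mul_mem (mul_mem (Subgroup.zpow_mem_zpowers t a) hv0.2) (Subgroup.zpow_mem_zpowers t b)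

end rep

end Pool.Agent.RG1
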