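import Pool.Agent.RG1.Sparse
import Pool.Agent.BR3.Main

/-!
# The main theorem for sparse Coxeter matrices
-/

set_option autoImplicit false

namespace Pool.Agent.RG1

open Pool.Agent.Helper54.LA Pool.Agent.Helper54.EV Pool.Agent.Helper29.BA Pool.Agent.Helper13.LT
  Pool.Agent.Helper29.PA Pool.Agent.Helper3.FJ Pool.Agent.Helper9.EV Pool.Agent.Helper9.TD
  Pool.Agent.Helper83.EV Pool.Agent.AIR Pool.Agent.BR3

open scoped MatrixGroups

variable {C : ∀ (G : Type) [Group G], Prop}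

/-- Each finite irreducible parabolic subgroup of rank at least four without infinite labels is in
the class, or sparse, or has four generators three of which generate an infinite Coxeter group. -/
def Good5 (C : ∀ (G : Type) [Group G], Prop) {S : Type} (M : CoxeterMatrix S) : Prop :=
  ∀ T : Set S, T.Finite → 4 ≤ T.ncard → Irr M T → (∀ s ∈ T, ∀ t ∈ T, M s t ≠ 0) →
    C (ArtinGroup (res M T)) ∨ Sparse M T ∨
      (T.ncard = 4 ∧ ∃ i ∈ T, ∃ j ∈ T, ∃ k ∈ T, i ≠ j ∧ j ≠ k ∧ i ≠ k ∧ ¬ Sp3 M i j k)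

theorem Good5.res {S : Type} {M : CoxeterMatrix S} (hC : ClosedClass C) (h : Good5 C M)
    (Y : Set S) : Good5 C (Pool.Agent.Helper54.LA.res M Y) := by
  intro T hT hc hi h0
  have hn : (Subtype.val '' T : Set S).ncard = T.ncard :=
    Set.ncard_image_of_injective _ Subtype.val_injective
  rcases h (Subtype.val '' T) (hT.image _) (by rw [hn]; exact hc) (irr_image hi) (by
    rintro _ ⟨s, hs, rfl⟩ _ ⟨t, ht, rfl⟩
    exact h0 s hs t ht) with h1 | h1 | ⟨h1, _, ⟨i, hi, rfl⟩, _, ⟨j, hj, rfl⟩, _, ⟨k, hk, rfl⟩,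
      hij, hjk, hik, h2⟩
  · obtain ⟨φ⟩ := artinCongr (M := Pool.Agent.Helper54.LA.res (Pool.Agent.Helper54.LA.res M Y) T)
      (M' := Pool.Agent.Helper54.LA.res M (Subtype.val '' T : Set S))
      (Equiv.Set.image _ T Subtype.val_injective) fun s t => rfl
    exact Or.inl (hC.iso _ _ φ.symm h1)
  · exact Or.inr (Or.inl h1.res)
  · exact Or.inr (Or.inr ⟨by rw [← hn]; exact h1, i, hi, j, hj, k, hk,
      fun e => hij (congrArg Subtype.val e), fun e => hjk (congrArg Subtype.val e),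
      fun e => hik (congrArg Subtype.val e), h2⟩)

section

variable {S : Type} {M : CoxeterMatrix S}

theorem union_ne {i j k : S} (hij : i ≠ j) (hjk : j ≠ k) (hik : i ≠ k)
    (J : Finset ↥({i, j, k}ᶜ : Set S)ᶜ)
    (hJ : SJ (Pool.Agent.Helper54.LA.res M ({i, j, k}ᶜ : Set S)ᶜ) J) :
    ({i, j, k}ᶜ : Set S) ∪ Subtype.val '' (J : Set ↥({i, j, k}ᶜ : Set S)ᶜ) ≠ Set.univ := by
  classical
  intro hu
  have hmem : ∀ x ∈ ({i, j, k} : Set S),
      ∃ a ∈ (J : Set ↥({i, j, k}ᶜ : Set S)ᶜ), a.1 = x := by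
    intro x hx
    have h2 : x ∈ ({i, j, k}ᶜ : Set S) ∪ Subtype.val '' (J : Set ↥({i, j, k}ᶜ : Set S)ᶜ) :=
      hu ▸ Set.mem_univ x
    rcases h2 with h2 | ⟨a, ha, hax⟩
    · exact absurd hx h2
    · exact ⟨a, ha, hax⟩
  obtain ⟨a, ha, ha'⟩ := hmem i (by simp)
  obtain ⟨b, hb, hb'⟩ := hmem j (by simp)
  obtain ⟨c, hc, hc'⟩ := hmem k (by simp)
  have h3 : ({a, b, c} : Finset _) ⊆ J := by
    rw [Finset.insert_subset_iff, Finset.insert_subset_iff, Finset.singleton_subset_iff]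
    exact ⟨ha, hb, hc⟩
  have h4 := Finset.card_le_card h3
  rw [Finset.card_eq_three.2 ⟨a, b, c,
    fun e => hij (ha'.symm.trans ((congrArg Subtype.val e).trans hb')),
    fun e => hik (ha'.symm.trans ((congrArg Subtype.val e).trans hc')),
    fun e => hjk (hb'.symm.trans ((congrArg Subtype.val e).trans hc')), rfl⟩] at h4
  have := hJ.1
  omega

/-- Four generators of an irreducible matrix which are irreducible. -/
theorem exists_four [Finite S] (hirr : Irr M Set.univ) (hc : 4 ≤ Nat.card S) :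
    ∃ i j t u, i ≠ j ∧ i ≠ t ∧ i ≠ u ∧ j ≠ t ∧ j ≠ u ∧ t ≠ u ∧ M i j ≠ 2 ∧
      Irr M {i, j, t, u} := by
  have hne : ∀ U : Set S, U.ncard < 4 → (Set.univ \ U).Nonempty := by
    intro U hU
    rw [Set.nonempty_iff_ne_empty]
    intro h
    rw [Set.sdiff_eq_empty] at h
    have h1 := Set.ncard_le_ncard h (Set.toFinite _)
    rw [Set.ncard_univ] at h1
    omega
  have hS : Nonempty S := (Nat.card_pos_iff.1 (by omega)).1
  obtain ⟨i⟩ := hS
  obtain ⟨i', hi', j, ⟨-, hj⟩, hij2⟩ := hirr {i} (Set.subset_univ _) ⟨i, rfl⟩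
    (hne _ (by rw [Set.ncard_singleton]; omega))
  rw [Set.mem_singleton_iff] at hi'
  rw [hi'] at hij2
  have hij : i ≠ j := fun e => hj (by rw [Set.mem_singleton_iff]; exact e.symm)
  obtain ⟨s, hs, t, ⟨-, ht⟩, hst⟩ := hirr {i, j} (Set.subset_univ _) ⟨i, by simp⟩
    (hne _ (by rw [Set.ncard_pair hij]; omega))
  rw [Set.mem_insert_iff, Set.mem_singleton_iff, not_or] at ht
  obtain ⟨r, hr, u, ⟨-, hu⟩, hru⟩ := hirr {i, j, t} (Set.subset_univ _) ⟨i, by simp⟩
    (hne _ (by
      rw [Set.ncard_eq_three.2 ⟨i, j, t, hij, fun e => ht.1 e.symm, fun e => ht.2 e.symm, rfl⟩]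
      omega))
  rw [Set.mem_insert_iff, Set.mem_insert_iff, Set.mem_singleton_iff, not_or, not_or] at hu
  refine ⟨i, j, t, u, hij, fun e => ht.1 e.symm, fun e => hu.1 e.symm, fun e => ht.2 e.symm,
    fun e => hu.2.1 e.symm, fun e => hu.2.2 e.symm, hij2, ?_⟩
  intro V hV hn hn'
  by_contra hcon
  push Not at hcon
  have hp : ∀ x ∈ ({i, j, t, u} : Set S), ∀ y ∈ ({i, j, t, u} : Set S), M x y ≠ 2 →
      (x ∈ V ↔ y ∈ V) := by
    intro x hx y hy hxy
    constructor
    · intro h1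
      by_contra h2
      exact hxy (hcon x h1 y ⟨hy, h2⟩)
    · intro h1
      by_contra h2
      exact hxy ((M.symmetric x y).trans (hcon y h1 x ⟨hx, h2⟩))
  have h1 : i ∈ V ↔ j ∈ V := hp i (by simp) j (by simp) hij2
  have h2 : i ∈ V ↔ t ∈ V := by
    rcases hs with rfl | rfl
    · exact hp s (by simp) t (by simp) hst
    · exact h1.trans (hp s (by simp) t (by simp) hst)
  have h3 : i ∈ V ↔ u ∈ V := by
    rcases hr with rfl | rfl | rfl
    · exact hp r (by simp) u (by simp) hru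
    · exact h1.trans (hp r (by simp) u (by simp) hru)
    · exact h2.trans (hp r (by simp) u (by simp) hru)
  by_cases hi : i ∈ V
  · obtain ⟨x, hx, hxV⟩ := hn'
    rcases hx with rfl | rfl | rfl | rfl
    · exact hxV hi
    · exact hxV (h1.1 hi)
    · exact hxV (h2.1 hi)
    · exact hxV (h3.1 hi)
  · obtain ⟨x, hxV⟩ := hn
    rcases hV hxV with rfl | rfl | rfl | rfl
    · exact hi hxV
    · exact hi (h1.2 hxV)
    · exact hi (h2.2 hxV)
    · exact hi (h3.2 hxV)

end

/-- The final induction. -/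
theorem main5_finite (rg1 : RgOne) (hE : ExtClass C) (hC : CatClass C)
    (hGL : ∀ n, C (GL (Fin n) ℤ)) (n : ℕ) : ∀ {S : Type} [Finite S] {M : CoxeterMatrix S},
      Good5 C M → Nat.card S = n → C (ArtinGroup M) := by
  classical
  induction n using Nat.strong_induction_on with
  | _ n ih =>
    intro S _ M hM hn
    have ih' : ∀ Y : Set S, Y ≠ Set.univ → C (ArtinGroup (Pool.Agent.Helper54.LA.res M Y)) := by
      intro Y hY
      refine ih (Nat.card ↥Y) ?_ (hM.res hC.toClosedClass Y) rfl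
      rw [← hn]
      have h3 : Y.ncard < (Set.univ : Set S).ncard :=
        Set.ncard_lt_ncard (Set.ssubset_univ_iff.2 hY) (Set.toFinite _)
      rwa [Set.ncard_univ] at h3
    by_cases hu : 4 ≤ Nat.card S ∧ Irr M Set.univ ∧ ∀ s t, M s t ≠ 0
    swap
    · refine artin_main4 hE hC hGL M fun T hT hc hirr h0 => Or.inl (ih' T ?_)
      rintro rfl
      rw [Set.ncard_univ] at hc
      exact hu ⟨hc, hirr, fun s t => h0 s trivial t trivial⟩
    obtain ⟨hc, hirr, h0⟩ := hu
    have stp : ∀ {i j k : S}, i ≠ j → j ≠ k → i ≠ k → ¬ Sp3 M i j k →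
        (∀ x y, x ∉ ({i, j, k}ᶜ : Set S) → y ∉ ({i, j, k}ᶜ : Set S) →
          Sparse M (insert x (insert y ({i, j, k}ᶜ : Set S)))) → C (ArtinGroup M) := by
      intro i j k hij hjk hik hns hsp
      refine step hE hC hGL (T := {i, j, k}ᶜ) (twoDim_triple hns) (union_ne hij hjk hik) ?_ ih'
      intro x y hx hy hxy hxy0
      exact rg_sparse rg1 (hsp x y hx hy) hxy hxy0 hx hy
    rcases hM Set.univ Set.finite_univ (by rwa [Set.ncard_univ]) hirr (fun s _ t _ => h0 s t) with
      h1 | h1 | ⟨h1, i, -, j, -, k, -, hij, hjk, hik, h2⟩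
    · obtain ⟨φ⟩ := artinCongr (M := Pool.Agent.Helper54.LA.res M (Set.univ : Set S)) (M' := M)
        (Equiv.Set.univ S) fun s t => rfl
      exact hC.iso _ _ φ h1
    · -- a triple which is not spherical
      obtain ⟨i, j, t, u, hij, hit, hiu, hjt, hju, htu, h2, h3⟩ := exists_four hirr hc
      by_cases h4 : Sp3 M i j t
      · have h5 := h1 i trivial j trivial t trivial u trivial hij hit hiu hjt hju htu h3 h2 h4
        exact stp hij hju hiu h5 fun x y _ _ => h1.mono (Set.subset_univ _)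
      · exact stp hij hjt hit h4 fun x y _ _ => h1.mono (Set.subset_univ _)
    · refine stp hij hjk hik h2 fun x y hx hy => ?_
      have h3 : ({i, j, k}ᶜ : Set S).ncard = 1 := by
        have h4 := Set.ncard_add_ncard_compl ({i, j, k} : Set S)
        rw [Set.ncard_eq_three.2 ⟨i, j, k, hij, hik, hjk, rfl⟩] at h4
        rw [Set.ncard_univ] at h1
        omega
      obtain ⟨l, hl⟩ := Set.ncard_eq_one.1 h3
      rw [hl]
      exact sparse_three

/-- **The main theorem.** -/
theorem artin_main5 (rg1 : RgOne) (hE : ExtClass C) (hC : CatClass C)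
    (hGL : ∀ n, C (GL (Fin n) ℤ)) {S : Type} (M : CoxeterMatrix S) (h : Good5 C M) :
    C (ArtinGroup M) :=
  of_finite M hC.toClosedClass fun i =>
    main5_finite rg1 hE hC hGL _ (h.res hC.toClosedClass (i : Set S)) rfl

end Pool.Agent.RG1
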