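import Pool.Agent.RG1.Eq

/-!
# The label 3: a normal form and positivity
-/

set_option autoImplicit false

namespace Pool.Agent.RG1

/-- The products of `n` factors `t⁻¹` and `i`. -/
inductive W3 {A : Type} [Group A] (t i : A) : ℕ → A → Prop
  | one : W3 t i 0 1
  | t {n : ℕ} {w : A} : W3 t i n w → W3 t i (n + 1) (w * t⁻¹)
  | i {n : ℕ} {w : A} : W3 t i n w → W3 t i (n + 1) (w * i)

/-- The elements `t ^ a z ^ l w t ^ b`, where `w` is a product of factors `t⁻¹` and `i`. -/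
def N3 {A : Type} [Group A] (t i : A) (x : A) : Prop :=
  ∃ (a l b : ℤ) (n : ℕ) (w : A), W3 t i n w ∧ x = t ^ a * (t * i * t * (t * i * t)) ^ l * w * t ^ b

section group

variable {A : Type} [Group A] {t i : A}

theorem W3.pow_t {n : ℕ} {w : A} (h : W3 t i n w) (k : ℕ) : W3 t i (n + k) (w * t⁻¹ ^ k) := by
  induction k with
  | zero =>
    rw [pow_zero, mul_one]
    exact h
  | succ k ih =>
    rw [pow_succ, ← mul_assoc]
    exact ih.t

theorem W3.pow_i {n : ℕ} {w : A} (h : W3 t i n w) (k : ℕ) : W3 t i (n + k) (w * i ^ k) := by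
  induction k with
  | zero =>
    rw [pow_zero, mul_one]
    exact h
  | succ k ih =>
    rw [pow_succ, ← mul_assoc]
    exact ih.i

theorem N3.mul_t {x : A} (h : N3 t i x) (k : ℤ) : N3 t i (x * t ^ k) := by
  obtain ⟨a, l, b, n, w, hw, rfl⟩ := h
  exact ⟨a, l, b + k, n, w, hw, by rw [zpow_add]; group⟩

theorem N3.t_mul {x : A} (h : N3 t i x) (k : ℤ) : N3 t i (t ^ k * x) := by
  obtain ⟨a, l, b, n, w, hw, rfl⟩ := h
  exact ⟨k + a, l, b, n, w, hw, by rw [zpow_add]; group⟩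

variable (hbr : t * i * t = i * t * i)

include hbr

theorem z_comm_t : Commute (t * i * t * (t * i * t)) t := by
  have h1 : t * (t * i * t) = (t * i * t) * i := by
    calc t * (t * i * t) = t * (i * t * i) := by rw [hbr]
      _ = (t * i * t) * i := by group
  have h2 : i * (t * i * t) = (t * i * t) * t := by
    calc i * (t * i * t) = (i * t * i) * t := by group
      _ = (t * i * t) * t := by rw [hbr]
  have h3 : t * (t * i * t * (t * i * t)) = (t * i * t * (t * i * t)) * t := by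
    rw [← mul_assoc t, h1, mul_assoc, h2, ← mul_assoc]
  exact h3.symm

theorem z_comm_i : Commute (t * i * t * (t * i * t)) i := by
  have h1 : t * (t * i * t) = (t * i * t) * i := by
    calc t * (t * i * t) = t * (i * t * i) := by rw [hbr]
      _ = (t * i * t) * i := by group
  have h2 : i * (t * i * t) = (t * i * t) * t := by
    calc i * (t * i * t) = (i * t * i) * t := by group
      _ = (t * i * t) * t := by rw [hbr]
  have h3 : i * (t * i * t * (t * i * t)) = (t * i * t * (t * i * t)) * i := by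
    rw [← mul_assoc i, h2, mul_assoc, h1, ← mul_assoc]
  exact h3.symm

theorem z_comm_w {n : ℕ} {w : A} (h : W3 t i n w) : Commute (t * i * t * (t * i * t)) w := by
  induction h with
  | one => exact Commute.one_right _
  | t _ ih => exact ih.mul_right (z_comm_t hbr).inv_right
  | i _ ih => exact ih.mul_right (z_comm_i hbr)

theorem N3.mul_z {x : A} (h : N3 t i x) (k : ℤ) : N3 t i (x * (t * i * t * (t * i * t)) ^ k) := by
  obtain ⟨a, l, b, n, w, hw, rfl⟩ := h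
  refine ⟨a, l + k, b, n, w, hw, ?_⟩
  have h1 : t ^ b * (t * i * t * (t * i * t)) ^ k = (t * i * t * (t * i * t)) ^ k * t ^ b :=
    ((z_comm_t hbr).zpow_zpow k b).eq.symm
  have h2 : w * (t * i * t * (t * i * t)) ^ k = (t * i * t * (t * i * t)) ^ k * w :=
    ((z_comm_w hbr hw).zpow_left k).eq.symm
  rw [mul_assoc _ (t ^ b), h1, ← mul_assoc, mul_assoc _ w, h2, ← mul_assoc, mul_assoc (t ^ a), ← zpow_add]

theorem N3.z_mul {x : A} (h : N3 t i x) (k : ℤ) : N3 t i ((t * i * t * (t * i * t)) ^ k * x) := by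
  obtain ⟨a, l, b, n, w, hw, rfl⟩ := h
  refine ⟨a, k + l, b, n, w, hw, ?_⟩
  have h1 : (t * i * t * (t * i * t)) ^ k * t ^ a = t ^ a * (t * i * t * (t * i * t)) ^ k :=
    ((z_comm_t hbr).zpow_zpow k a).eq
  rw [← mul_assoc, ← mul_assoc, ← mul_assoc, h1, mul_assoc (t ^ a), ← zpow_add]

/-- `i t ^ (k + 2) i = z t⁻¹ i ^ k t⁻¹` -/
theorem iti_pow (k : ℕ) : i * t ^ (k + 2) * i = (t * i * t * (t * i * t)) * t⁻¹ * i ^ k * t⁻¹ := by
  have h1 : i⁻¹ * t * i = t * i * t⁻¹ := by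
    have h2 : i⁻¹ * t * i * t = t * i := by
      calc i⁻¹ * t * i * t = i⁻¹ * (t * i * t) := by group
        _ = i⁻¹ * (i * t * i) := by rw [hbr]
        _ = t * i := by group
    rw [eq_mul_inv_iff_mul_eq, h2]
  have h3 : i⁻¹ * t ^ k * i = t * i ^ k * t⁻¹ := by
    rw [← conj_pow, ← h1]
    have h4 : i⁻¹ * t * i = i⁻¹ * t * i⁻¹⁻¹ := by rw [inv_inv]
    rw [h4, conj_pow, inv_inv]
  have h5 : i * t * t * i = (t * i * t * (t * i * t)) * t⁻¹ * t⁻¹ := by
    have h6 := z_comm_t hbr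
    have h7 : i * t * t * i = t⁻¹ * ((t * i * t * (t * i * t)) * t⁻¹) := by group
    rw [h7, ← mul_assoc, ← h6.inv_right.eq]
  calc i * t ^ (k + 2) * i = (i * t * t * i) * (i⁻¹ * t ^ k * i) := by
        rw [add_comm, pow_add]
        group
    _ = (t * i * t * (t * i * t)) * t⁻¹ * t⁻¹ * (t * i ^ k * t⁻¹) := by rw [h3, h5]
    _ = _ := by group

theorem N3.of_w {n : ℕ} {w : A} (h : W3 t i n w) : ∀ b : ℤ, N3 t i (w * t ^ b * i) := by
  induction h with
  | one =>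
    intro b
    exact ⟨b, 0, 0, 1, 1 * i, W3.one.i, by rw [zpow_zero, zpow_zero]; group⟩
  | t h ih =>
    intro b
    have h1 := ih (b - 1)
    rwa [zpow_sub_one, ← mul_assoc, mul_assoc _ (t ^ b), ← (Commute.refl t).inv_left.zpow_right b |>.eq,
      ← mul_assoc] at h1
  | @i n w h ih =>
    intro b
    rcases le_or_gt b 0 with hb | hb
    · obtain ⟨k, hk⟩ := Int.eq_ofNat_of_zero_le (neg_nonneg.2 hb)
      have h1 : t ^ b = t⁻¹ ^ k := by
        have h2 : b = -(k : ℤ) := by omega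
        rw [h2, zpow_neg, zpow_natCast, inv_pow]
      refine ⟨0, 0, 0, _, _, (h.i.pow_t k).i, ?_⟩
      rw [h1, zpow_zero, zpow_zero, one_mul, one_mul, mul_one]
    · obtain ⟨k, hk⟩ := Int.eq_ofNat_of_zero_le hb.le
      rcases k with _ | _ | k
      · omega
      · have h1 := (ih 1).mul_t 1
        have h2 : w * i * t ^ b * i = w * t ^ (1 : ℤ) * i * t ^ (1 : ℤ) := by
          have h3 : b = 1 := by omega
          rw [h3, zpow_one]
          calc w * i * t * i = w * (i * t * i) := by group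
            _ = w * (t * i * t) := by rw [hbr]
            _ = _ := by group
        rw [h2]
        exact h1
      · have h2 : w * i * t ^ b * i = (t * i * t * (t * i * t)) ^ (1 : ℤ) * (w * t⁻¹ * i ^ k * t ^ (-1 : ℤ)) := by
          have h3 : b = ((k + 2 : ℕ) : ℤ) := by omega
          rw [h3, zpow_natCast, zpow_one, zpow_neg_one]
          calc w * i * t ^ (k + 2) * i = w * (i * t ^ (k + 2) * i) := by group
            _ = w * (t * i * t * (t * i * t)) * (t⁻¹ * i ^ k * t⁻¹) := by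
              rw [iti_pow hbr]
              group
            _ = (t * i * t * (t * i * t)) * w * (t⁻¹ * i ^ k * t⁻¹) := by rw [(z_comm_w hbr h).eq]
            _ = _ := by group
        rw [h2]
        exact N3.z_mul hbr ⟨0, 0, -1, _, _, h.t.pow_i k, by rw [zpow_zero, zpow_zero]; group⟩ 1

theorem N3.mul_i {x : A} (h : N3 t i x) : N3 t i (x * i) := by
  obtain ⟨a, l, b, n, w, hw, rfl⟩ := h
  have h1 := (N3.z_mul hbr (N3.of_w hbr hw b) l).t_mul a
  have h2 : t ^ a * (t * i * t * (t * i * t)) ^ l * w * t ^ b * i =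
      t ^ a * ((t * i * t * (t * i * t)) ^ l * (w * t ^ b * i)) := by
    simp only [mul_assoc]
  rw [h2]
  exact h1

theorem N3.mul_i_inv {x : A} (h : N3 t i x) : N3 t i (x * i⁻¹) := by
  have h1 := (((((h.mul_z hbr (-1)).mul_t 1).mul_i hbr).mul_t 1).mul_i hbr).mul_t 1
  have h2 : (t * i * t * (t * i * t)) * i⁻¹ = t * i * t * i * t := by
    calc (t * i * t * (t * i * t)) * i⁻¹ = (t * i * t) * (t * i * t) * i⁻¹ := by group
      _ = (t * i * t) * (i * t * i) * i⁻¹ := by rw [hbr]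
      _ = _ := by group
  have h3 : x * (t * i * t * (t * i * t)) ^ (-1 : ℤ) * t ^ (1 : ℤ) * i * t ^ (1 : ℤ) * i * t ^ (1 : ℤ) = x * i⁻¹ := by
    calc _ = x * ((t * i * t * (t * i * t))⁻¹ * (t * i * t * i * t)) := by
          rw [zpow_one, zpow_neg_one]
          simp only [mul_assoc]
      _ = x * i⁻¹ := by
          rw [← h2]
          group
  rwa [h3] at h1

/-- The normal form. -/
theorem N3.of_mem {x : A} (hx : x ∈ Subgroup.closure {t, i}) : N3 t i x := by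
  induction hx using Subgroup.closure_induction_right with
  | one => exact ⟨0, 0, 0, 0, 1, W3.one, by simp⟩
  | mul_right x hx y hy ih =>
    rcases hy with rfl | hy
    · have h1 := ih.mul_t 1
      rwa [zpow_one] at h1
    · have hy' : y = i := hy
      rw [hy']
      exact ih.mul_i hbr
  | mul_inv_cancel x hx y hy ih =>
    rcases hy with rfl | hy
    · have h1 := ih.mul_t (-1)
      rwa [zpow_neg_one] at h1
    · have hy' : y = i := hy
      rw [hy']
      exact ih.mul_i_inv hbr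

end group

/-! ### Positivity -/

section pos

variable {A : Type} [Group A] {t i : A} {s : ℝ} {hs : s ≠ 0} {ρ : A →* G3}

theorem t_zpow_ej (ht : ρ t = mT hs) (b : ℤ) : ρ (t ^ b) (0, 0, 1) = (0, 0, 1) := by
  have h0 : mT hs (0, 0, 1) = (0, 0, 1) := by
    rw [mT_apply]
    simp
  have h1 : (mT hs)⁻¹ (0, 0, 1) = (0, 0, 1) := by
    conv_lhs => rw [← h0]
    rw [← mul_app, inv_mul_cancel, one_app]
  rw [map_zpow, ht]
  induction b using Int.induction_on with
  | zero => rw [zpow_zero, one_app]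
  | succ b ih => rw [zpow_add_one, mul_app, h0, ih]
  | pred b ih => rw [zpow_sub_one, mul_app, h1, ih]

theorem t_zpow_snd (ht : ρ t = mT hs) (b : ℤ) (v : V3) : (ρ (t ^ b) v).2.1 = v.2.1 := by
  have h0 : ∀ v, (mT hs v).2.1 = v.2.1 := fun v => rfl
  have h1 : ∀ v, ((mT hs)⁻¹ v).2.1 = v.2.1 := fun v => rfl
  rw [map_zpow, ht]
  induction b using Int.induction_on generalizing v with
  | zero => rw [zpow_zero, one_app]
  | succ b ih => rw [zpow_add_one, mul_app, ih, h0]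
  | pred b ih => rw [zpow_sub_one, mul_app, ih, h1]

theorem z_app (ht : ρ t = mT hs) (hi : ρ i = mI hs 1) (v : V3) :
    ρ (t * i * t * (t * i * t)) v = (-s ^ 3) • v + ((1 + s) * v.2.2) • nn s 1 := by
  obtain ⟨x, y, z⟩ := v
  simp only [map_mul, mul_app, ht, hi, mT_apply, mI_apply, nn, Prod.smul_mk, Prod.mk_add_mk, smul_eq_mul,
    Prod.mk.injEq]
  refine ⟨by ring, by ring, by ring⟩

theorem z_zpow (ht : ρ t = mT hs) (hi : ρ i = mI hs 1) (l : ℤ) {u : V3} (hu : u.2.2 = 0) :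
    ρ ((t * i * t * (t * i * t)) ^ l) u = (-s ^ 3) ^ l • u := by
  have hs3 : (-s ^ 3) ≠ 0 := neg_ne_zero.2 (pow_ne_zero 3 hs)
  have h0 : ρ (t * i * t * (t * i * t)) u = (-s ^ 3) • u := by
    rw [z_app ht hi, hu, mul_zero, zero_smul, add_zero]
  have h1 : (ρ (t * i * t * (t * i * t)))⁻¹ u = (-s ^ 3)⁻¹ • u := by
    have h2 : (ρ (t * i * t * (t * i * t)))⁻¹ ((-s ^ 3) • u) = u := by
      rw [← h0, ← mul_app, inv_mul_cancel, one_app]
    rw [map_smul] at h2
    conv_rhs => rw [← h2]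
    rw [smul_smul, inv_mul_cancel₀ hs3, one_smul]
  rw [map_zpow]
  induction l using Int.induction_on with
  | zero => rw [zpow_zero, zpow_zero, one_app, one_smul]
  | succ l ih => rw [zpow_add_one, mul_app, h0, map_smul, ih, smul_smul, zpow_add_one₀ hs3, mul_comm]
  | pred l ih => rw [zpow_sub_one, mul_app, h1, map_smul, ih, smul_smul, zpow_sub_one₀ hs3, mul_comm]

theorem W3.pos (hs0 : 0 < s) (ht : ρ t = mT hs) (hi : ρ i = mI hs 1) {n : ℕ} {w : A} (h : W3 t i n w) :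
    0 ≤ (ρ w (1, 0, 0)).2.1 ∧ 0 ≤ (ρ w (0, 1, 0)).2.1 ∧
      ((w ∈ Subgroup.zpowers t ∧ (ρ w (0, 0, 1)).2.1 = 0 ∧ (ρ w (0, 1, 0)).2.1 = 1) ∨
        (ρ w (0, 0, 1)).2.1 ≤ -1) := by
  induction h with
  | one =>
    rw [map_one]
    simp only [one_app]
    exact ⟨le_refl _, zero_le_one, Or.inl ⟨one_mem _, trivial, trivial⟩⟩
  | @t n w h ih =>
    obtain ⟨h1, h2, h3⟩ := ih
    have e1 : ρ (w * t⁻¹) (1, 0, 0) = s⁻¹ • ρ w (1, 0, 0) := by
      rw [map_mul, mul_app, map_inv, ht, ← map_smul]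
      congr 1
      change (s⁻¹ * 1 + 0, (0 : ℝ), (0 : ℝ)) = _
      simp
    have e2 : ρ (w * t⁻¹) (0, 1, 0) = ρ w (1, 0, 0) + ρ w (0, 1, 0) := by
      rw [map_mul, mul_app, map_inv, ht, ← map_add]
      congr 1
      change (s⁻¹ * 0 + 1, (1 : ℝ), (0 : ℝ)) = _
      simp
    have e3 : ρ (w * t⁻¹) (0, 0, 1) = ρ w (0, 0, 1) := by
      rw [map_mul, mul_app, map_inv, ht]
      congr 1
      change (s⁻¹ * 0 + 0, (0 : ℝ), (1 : ℝ)) = _
      simp
    rw [e1, e2, e3]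
    change 0 ≤ s⁻¹ * (ρ w (1, 0, 0)).2.1 ∧ 0 ≤ (ρ w (1, 0, 0)).2.1 + (ρ w (0, 1, 0)).2.1 ∧
      ((w * t⁻¹ ∈ Subgroup.zpowers t ∧ (ρ w (0, 0, 1)).2.1 = 0 ∧
        (ρ w (1, 0, 0)).2.1 + (ρ w (0, 1, 0)).2.1 = 1) ∨ (ρ w (0, 0, 1)).2.1 ≤ -1)
    refine ⟨by positivity, by positivity, ?_⟩
    rcases h3 with ⟨h3, h4, h5⟩ | h3
    · have h6 : (ρ w (1, 0, 0)).2.1 = 0 := by
        obtain ⟨k, hk⟩ := Subgroup.mem_zpowers_iff.1 h3
        rw [← hk, t_zpow_snd ht]
      rw [h6, zero_add]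
      exact Or.inl ⟨mul_mem h3 (inv_mem (Subgroup.mem_zpowers t)), h4, h5⟩
    · exact Or.inr h3
  | @i n w h ih =>
    obtain ⟨h1, h2, h3⟩ := ih
    have e1 : ρ (w * i) (1, 0, 0) = ρ w (1, 0, 0) + ρ w (0, 1, 0) := by
      rw [map_mul, mul_app, hi, ← map_add]
      congr 1
      change ((1 : ℝ), s * 0 + 1 * 1 - 0, (0 : ℝ)) = _
      simp
    have e2 : ρ (w * i) (0, 1, 0) = s • ρ w (0, 1, 0) := by
      rw [map_mul, mul_app, hi, ← map_smul]
      congr 1
      change ((0 : ℝ), s * 1 + 1 * 0 - 0, (0 : ℝ)) = _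
      simp
    have e3 : ρ (w * i) (0, 0, 1) = ρ w (0, 0, 1) - ρ w (0, 1, 0) := by
      rw [map_mul, mul_app, hi, ← map_sub]
      congr 1
      change ((0 : ℝ), s * 0 + 1 * 0 - 1, (1 : ℝ)) = _
      simp
    rw [e1, e2, e3]
    change 0 ≤ (ρ w (1, 0, 0)).2.1 + (ρ w (0, 1, 0)).2.1 ∧ 0 ≤ s * (ρ w (0, 1, 0)).2.1 ∧
      ((w * i ∈ Subgroup.zpowers t ∧ (ρ w (0, 0, 1)).2.1 - (ρ w (0, 1, 0)).2.1 = 0 ∧
        s * (ρ w (0, 1, 0)).2.1 = 1) ∨ (ρ w (0, 0, 1)).2.1 - (ρ w (0, 1, 0)).2.1 ≤ -1)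
    refine ⟨by positivity, by positivity, Or.inr ?_⟩
    rcases h3 with ⟨-, h4, h5⟩ | h3
    · rw [h4, h5]
      norm_num
    · linarith

/-- The value of the functional of `i` at the image of the last basis vector. -/
theorem val3 (hs0 : 0 < s) (ht : ρ t = mT hs) (hi : ρ i = mI hs 1) (a l b : ℤ) {w : A}
    (hw : (ρ w (0, 0, 1)).2.2 = 1) :
    (ρ (t ^ a * (t * i * t * (t * i * t)) ^ l * w * t ^ b) (0, 0, 1)).2.1 =
      (-s ^ 3) ^ l * ((ρ w (0, 0, 1)).2.1 - (s - 1) / (1 - s + s ^ 2)) + (s - 1) / (1 - s + s ^ 2) := by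
  have hD : 0 < 1 - s + s ^ 2 := by nlinarith [sq_nonneg (s - 1)]
  rw [map_mul, mul_app, t_zpow_ej ht, mul_assoc, map_mul, mul_app, t_zpow_snd ht, map_mul, mul_app]
  obtain ⟨v, hv⟩ : ∃ v, ρ w (0, 0, 1) = v := ⟨_, rfl⟩
  rw [hv] at hw ⊢
  have hn : ρ ((t * i * t * (t * i * t)) ^ l) (nn s 1) = nn s 1 := by
    have h1 : (t * i * t * (t * i * t)) ^ l ∈ Subgroup.closure ({t, i} : Set A) := by
      have h2 : t ∈ Subgroup.closure ({t, i} : Set A) := Subgroup.subset_closure (Set.mem_insert _ _)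
      have h3 : i ∈ Subgroup.closure ({t, i} : Set A) :=
        Subgroup.subset_closure (Set.mem_insert_of_mem _ (Set.mem_singleton _))
      exact zpow_mem (mul_mem (mul_mem (mul_mem h2 h3) h2) (mul_mem (mul_mem h2 h3) h2)) l
    exact (fix_of_mem ht hi h1).2
  have e1 : v = (v - (1 - s + s ^ 2)⁻¹ • nn s 1) + (1 - s + s ^ 2)⁻¹ • nn s 1 := by
    rw [sub_add_cancel]
  have e2 : (v - (1 - s + s ^ 2)⁻¹ • nn s 1).2.2 = 0 := by
    change v.2.2 - (1 - s + s ^ 2)⁻¹ * (1 * s + (1 - s) ^ 2) = 0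
    rw [hw]
    have h1 : 1 * s + (1 - s) ^ 2 = 1 - s + s ^ 2 := by ring
    rw [h1, inv_mul_cancel₀ hD.ne', sub_self]
  rw [e1, map_add, z_zpow ht hi l e2, map_smul, hn, sub_add_cancel]
  change (-s ^ 3) ^ l * (v.2.1 - (1 - s + s ^ 2)⁻¹ * (s - 1)) + (1 - s + s ^ 2)⁻¹ * (s - 1) = _
  ring

end pos

section main

variable {A : Type} [Group A] {t i : A} {hs2 : (2 : ℝ) ≠ 0} {hsh : (1 / 2 : ℝ) ≠ 0} {ρ σ : A →* G3}

/-- **The values at `s = 2` and `s = 1 / 2` detect the powers of `t`.** -/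
theorem mem3 (hbr : t * i * t = i * t * i) (ht : ρ t = mT hs2) (hi : ρ i = mI hs2 1) (ht' : σ t = mT hsh)
    (hi' : σ i = mI hsh 1) {x : A} (hx : x ∈ Subgroup.closure {t, i}) (h1 : (ρ x (0, 0, 1)).2.1 = 0)
    (h2 : (σ x (0, 0, 1)).2.1 = 0) : x ∈ Subgroup.zpowers t := by
  obtain ⟨a, l, b, n, w, hw, rfl⟩ := N3.of_mem hbr hx
  have hwm : w ∈ Subgroup.closure ({t, i} : Set A) := by
    clear hx h1 h2
    have h2 : t ∈ Subgroup.closure ({t, i} : Set A) := Subgroup.subset_closure (Set.mem_insert _ _)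
    have h3 : i ∈ Subgroup.closure ({t, i} : Set A) :=
      Subgroup.subset_closure (Set.mem_insert_of_mem _ (Set.mem_singleton _))
    induction hw with
    | one => exact one_mem _
    | t h ih => exact mul_mem ih (inv_mem h2)
    | i h ih => exact mul_mem ih h3
  rw [val3 (by norm_num) ht hi a l b (fix_of_mem ht hi hwm |>.1 _)] at h1
  rw [val3 (by norm_num) ht' hi' a l b (fix_of_mem ht' hi' hwm |>.1 _)] at h2
  obtain ⟨-, -, p1⟩ := hw.pos (by norm_num) ht hi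
  obtain ⟨-, -, p2⟩ := hw.pos (by norm_num) ht' hi'
  rcases Int.even_or_odd l with hl | hl
  · have hQ : (-(1 / 2 : ℝ) ^ 3) ^ l = (1 / 8 : ℝ) ^ l := by
      have : (-(1 / 2 : ℝ) ^ 3) = -(1 / 8) := by norm_num
      rw [this, hl.neg_zpow]
    have hQ0 : (0 : ℝ) < (1 / 8 : ℝ) ^ l := by positivity
    rw [hQ] at h2
    rcases p2 with ⟨p3, p4, -⟩ | p2
    · rw [p4] at h2
      have h3 : (1 / 8 : ℝ) ^ l = 1 := by
        norm_num at h2 ⊢
        linarith
      have h4 : l = 0 := by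
        by_contra hl0
        have h5 := zpow_right_injective₀ (show (0 : ℝ) < 1 / 8 by norm_num) (by norm_num)
        exact hl0 (h5 (by
          change (1 / 8 : ℝ) ^ l = (1 / 8 : ℝ) ^ (0 : ℤ)
          rw [h3, zpow_zero]))
      rw [h4, zpow_zero, mul_one]
      exact mul_mem (mul_mem (zpow_mem (Subgroup.mem_zpowers t) a) p3) (zpow_mem (Subgroup.mem_zpowers t) b)
    · exfalso
      have h3 : (1 / 8 : ℝ) ^ l * ((σ w (0, 0, 1)).2.1 + 2 / 3) = 2 / 3 := by
        norm_num at h2 ⊢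
        linarith
      nlinarith
  · exfalso
    have hQ : (-(2 : ℝ) ^ 3) ^ l = -(8 : ℝ) ^ l := by
      have : (-(2 : ℝ) ^ 3) = -8 := by norm_num
      rw [this, hl.neg_zpow]
    have hQ0 : (0 : ℝ) < (8 : ℝ) ^ l := by positivity
    rw [hQ] at h1
    have h3 : (8 : ℝ) ^ l * ((ρ w (0, 0, 1)).2.1 - 1 / 3) = 1 / 3 := by
      norm_num at h1 ⊢
      linarith
    rcases p1 with ⟨-, p4, -⟩ | p1
    · rw [p4] at h3
      nlinarith
    · nlinarith

end main

end Pool.Agent.RG1
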