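import Pool.Agent.RG1.NF3

/-!
# The label 4: a normal form and an invariant cone
-/

set_option autoImplicit false

namespace Pool.Agent.RG1

/-- The products `z ^ l (t i) t ^ a` and `(t i) t ^ c y` with `c ≠ 0`. -/
inductive R4 {A : Type} [Group A] (t i : A) : A → Prop
  | base (l a : ℤ) : R4 t i ((t * i * t * i) ^ l * (t * i) * t ^ a)
  | step {y : A} (c : ℤ) : c ≠ 0 → R4 t i y → R4 t i (t * i * t ^ c * y)

/-- The normal forms. -/
def U4 {A : Type} [Group A] (t i : A) (x : A) : Prop :=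
  (∃ a l : ℤ, x = t ^ a * (t * i * t * i) ^ l) ∨ ∃ (a : ℤ) (y : A), R4 t i y ∧ x = t ^ a * y

section group

variable {A : Type} [Group A] {t i : A} (hbr : t * i * t * i = i * t * i * t)

include hbr

theorem z4_comm_t : Commute (t * i * t * i) t := by
  have h1 : t * (t * i * t * i) = (t * i * t * i) * t := by
    calc t * (t * i * t * i) = t * (i * t * i * t) := by rw [hbr]
      _ = _ := by group
  exact h1.symm

theorem z4_comm_i : Commute (t * i * t * i) i := by
  have h1 : i * (t * i * t * i) = (t * i * t * i) * i := by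
    calc i * (t * i * t * i) = (i * t * i * t) * i := by group
      _ = _ := by rw [hbr]
  exact h1.symm

theorem R4.z_mul {y : A} (h : R4 t i y) (k : ℤ) : R4 t i ((t * i * t * i) ^ k * y) := by
  induction h with
  | base l a =>
    rw [← mul_assoc, ← mul_assoc, ← zpow_add]
    exact R4.base _ _
  | @step y c hc h ih =>
    have h1 : (t * i * t * i) ^ k * (t * i * t ^ c * y) = t * i * t ^ c * ((t * i * t * i) ^ k * y) := by
      have h2 : Commute ((t * i * t * i) ^ k) (t * i * t ^ c) :=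
        (((z4_comm_t hbr).mul_right (z4_comm_i hbr)).mul_right ((z4_comm_t hbr).zpow_right c)).zpow_left k
      rw [← mul_assoc, h2.eq, mul_assoc]
    rw [h1]
    exact R4.step c hc ih

theorem U4.t_mul {x : A} (h : U4 t i x) (k : ℤ) : U4 t i (t ^ k * x) := by
  rcases h with ⟨a, l, rfl⟩ | ⟨a, y, hy, rfl⟩
  · exact Or.inl ⟨k + a, l, by rw [zpow_add]; simp only [mul_assoc]⟩
  · exact Or.inr ⟨k + a, y, hy, by rw [zpow_add, mul_assoc]⟩

theorem U4.z_mul {x : A} (h : U4 t i x) (k : ℤ) : U4 t i ((t * i * t * i) ^ k * x) := by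
  have h1 : ∀ a : ℤ, (t * i * t * i) ^ k * t ^ a = t ^ a * (t * i * t * i) ^ k := fun a =>
    ((z4_comm_t hbr).zpow_zpow k a).eq
  rcases h with ⟨a, l, rfl⟩ | ⟨a, y, hy, rfl⟩
  · exact Or.inl ⟨a, k + l, by rw [← mul_assoc, h1, mul_assoc, ← zpow_add]⟩
  · exact Or.inr ⟨a, _, hy.z_mul hbr k, by rw [← mul_assoc, h1, mul_assoc]⟩

theorem U4.w_mul {x : A} (h : U4 t i x) : U4 t i (t * i * x) := by
  have h1 : ∀ a : ℤ, (t * i * t * i) ^ a * (t * i) = t * i * (t * i * t * i) ^ a := fun a =>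
    (((z4_comm_t hbr).mul_right (z4_comm_i hbr)).zpow_left a).eq
  rcases h with ⟨a, l, rfl⟩ | ⟨a, y, hy, rfl⟩
  · refine Or.inr ⟨0, _, R4.base l a, ?_⟩
    have h2 : (t * i * t * i) ^ l * t ^ a = t ^ a * (t * i * t * i) ^ l :=
      ((z4_comm_t hbr).zpow_zpow l a).eq
    rw [zpow_zero, one_mul, h1, mul_assoc (t * i) _ (t ^ a), h2]
  · by_cases ha : a = 0
    · rw [ha, zpow_zero, one_mul]
      cases hy with
      | base l a =>
        have h3 : t * i * ((t * i * t * i) ^ l * (t * i) * t ^ a) = (t * i * t * i) ^ (l + 1) * t ^ a := by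
          rw [h1, zpow_add_one, (((Commute.refl (t * i * t * i)).zpow_left l)).eq]
          group
        rw [h3]
        exact U4.z_mul hbr (Or.inl ⟨a, 0, by rw [zpow_zero, mul_one]⟩) _
      | @step y c hc h =>
        have h3 : t * i * (t * i * t ^ c * y) = t ^ c * ((t * i * t * i) ^ (1 : ℤ) * y) := by
          have h4 : t ^ c * (t * i * t * i) = (t * i * t * i) * t ^ c := ((z4_comm_t hbr).zpow_right c).eq.symm
          rw [zpow_one, ← mul_assoc (t ^ c), h4]
          simp only [mul_assoc]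
        rw [h3]
        exact Or.inr ⟨c, _, h.z_mul hbr 1, rfl⟩
    · exact Or.inr ⟨0, _, R4.step a ha hy, by rw [zpow_zero, one_mul]; simp only [mul_assoc]⟩

theorem U4.of_mem {x : A} (hx : x ∈ Subgroup.closure {t, i}) : U4 t i x := by
  induction hx using Subgroup.closure_induction_left with
  | one => exact Or.inl ⟨0, 0, by simp⟩
  | mul_left y hy x hx ih =>
    rcases hy with rfl | hy
    · have h1 := U4.t_mul hbr ih 1
      rwa [zpow_one] at h1
    · have hy' : y = i := hy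
      rw [hy']
      have h1 := U4.t_mul hbr (ih.w_mul hbr) (-1)
      have h2 : t ^ (-1 : ℤ) * (t * i * x) = i * x := by group
      rwa [h2] at h1
  | inv_mul_cancel y hy x hx ih =>
    rcases hy with rfl | hy
    · have h1 := U4.t_mul hbr ih (-1)
      rwa [zpow_neg_one] at h1
    · have hy' : y = i := hy
      rw [hy']
      have h1 := ((U4.t_mul hbr ih 1).w_mul hbr).z_mul hbr (-1)
      have h2 : (t * i * t * i) ^ (-1 : ℤ) * (t * i * (t ^ (1 : ℤ) * x)) = i⁻¹ * x := by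
        rw [zpow_neg_one, zpow_one]
        group
      rwa [h2] at h1

end group

section cone

variable {A : Type} [Group A] {t i : A} {hs1 : (1 : ℝ) ≠ 0} {ρ : A →* G3}

theorem t_zpow_one (ht : ρ t = mT hs1) (b : ℤ) (x y z : ℝ) : ρ (t ^ b) (x, y, z) = (x - b * y, y, z) := by
  rw [map_zpow, ht]
  induction b using Int.induction_on generalizing x with
  | zero =>
    rw [zpow_zero, one_app]
    simp
  | succ b ih =>
    rw [zpow_add_one, mul_app, mT_apply, ih]
    simp only [Prod.mk.injEq, and_true]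
    push_cast
    ring
  | pred b ih =>
    have h1 : (mT hs1)⁻¹ (x, y, z) = (x + y, y, z) := by
      change ((1 : ℝ)⁻¹ * x + y, y, z) = _
      rw [inv_one, one_mul]
    rw [zpow_sub_one, mul_app, h1, ih]
    simp only [Prod.mk.injEq, and_true]
    push_cast
    ring

theorem z4_zpow {s : ℝ} {hs : s ≠ 0} {ρ : A →* G3} (ht : ρ t = mT hs) (hi : ρ i = mI hs 2) (l : ℤ) (x y : ℝ) :
    ρ ((t * i * t * i) ^ l) (x, y, 0) = ((-s ^ 2) ^ l * x, (-s ^ 2) ^ l * y, 0) := by
  have hs3 : (-s ^ 2) ≠ 0 := neg_ne_zero.2 (pow_ne_zero 2 hs)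
  have h0 : ∀ x y : ℝ, ρ (t * i * t * i) (x, y, 0) = ((-s ^ 2) * x, (-s ^ 2) * y, 0) := by
    intro x y
    simp only [map_mul, mul_app, ht, hi, mT_apply, mI_apply, Prod.mk.injEq]
    refine ⟨by ring, by ring, trivial⟩
  have h1 : ∀ x y : ℝ, (ρ (t * i * t * i))⁻¹ (x, y, 0) = ((-s ^ 2)⁻¹ * x, (-s ^ 2)⁻¹ * y, 0) := by
    intro x y
    have h2 : (ρ (t * i * t * i))⁻¹ (ρ (t * i * t * i) ((-s ^ 2)⁻¹ * x, (-s ^ 2)⁻¹ * y, 0)) =
        ((-s ^ 2)⁻¹ * x, (-s ^ 2)⁻¹ * y, 0) := by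
      rw [← mul_app, inv_mul_cancel, one_app]
    rwa [h0, mul_inv_cancel_left₀ hs3, mul_inv_cancel_left₀ hs3] at h2
  rw [map_zpow]
  induction l using Int.induction_on generalizing x y with
  | zero => rw [zpow_zero, zpow_zero, one_app, one_mul, one_mul]
  | succ l ih => rw [zpow_add_one, mul_app, h0, ih, zpow_add_one₀ hs3, mul_assoc, mul_assoc]
  | pred l ih => rw [zpow_sub_one, mul_app, h1, ih, zpow_sub_one₀ hs3, mul_assoc, mul_assoc]

theorem R4.cone (ht : ρ t = mT hs1) (hi : ρ i = mI hs1 2) {y : A} (h : R4 t i y) :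
    ∃ X Y : ℝ, ρ y (1, 0, 0) = (X, Y, 0) ∧ Y ≠ 0 ∧ |2 * X + Y| ≤ |Y| := by
  have hw : ∀ x y : ℝ, ρ (t * i) (x, y, 0) = (-x - y, 2 * x + y, 0) := by
    intro x y
    simp only [map_mul, mul_app, ht, hi, mT_apply, mI_apply, Prod.mk.injEq]
    refine ⟨by ring, by ring, trivial⟩
  induction h with
  | base l a =>
    have h1 : ρ ((t * i * t * i) ^ l * (t * i) * t ^ a) (1, 0, 0) =
        ((-1 ^ 2) ^ l * -1, (-1 ^ 2) ^ l * 2, 0) := by
      rw [map_mul, mul_app, t_zpow_one ht, map_mul, mul_app, hw, z4_zpow ht hi]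
      simp
    refine ⟨_, _, h1, ?_, ?_⟩
    · refine mul_ne_zero (zpow_ne_zero _ (by norm_num)) (by norm_num)
    · have h2 : (2 : ℝ) * ((-1 ^ 2) ^ l * -1) + (-1 ^ 2) ^ l * 2 = 0 := by ring
      rw [h2, abs_zero]
      exact abs_nonneg _
  | @step y c hc h ih =>
    obtain ⟨X, Y, h1, h2, h3⟩ := ih
    refine ⟨-(X - c * Y) - Y, 2 * (X - c * Y) + Y, ?_, ?_⟩
    · rw [map_mul, mul_app, h1, map_mul, mul_app, t_zpow_one ht, hw]
    · have h4 : (1 : ℝ) ≤ |(c : ℝ)| := by
        have h5 : (1 : ℤ) ≤ |c| := Int.one_le_abs hc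
        exact_mod_cast h5
      have h5 : |Y| ≤ |2 * (X - c * Y) + Y| := by
        have h6 : |2 * (c : ℝ) * Y| = 2 * |(c : ℝ)| * |Y| := by
          rw [abs_mul, abs_mul]
          norm_num
        have h7 : |2 * (c : ℝ) * Y| ≤ |2 * (X - c * Y) + Y| + |2 * X + Y| := by
          have h8 : 2 * (c : ℝ) * Y = (2 * X + Y) - (2 * (X - c * Y) + Y) := by ring
          rw [h8]
          have h9 := abs_sub (2 * X + Y) (2 * (X - c * Y) + Y)
          linarith
        nlinarith [abs_nonneg Y]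
      refine ⟨?_, ?_⟩
      · intro h6
        rw [h6, abs_zero] at h5
        exact h2 (abs_nonpos_iff.1 h5)
      · have h6 : 2 * (-(X - c * Y) - Y) + (2 * (X - c * Y) + Y) = -Y := by ring
        rw [h6, abs_neg]
        exact h5

/-- **Label 4: the values at `s = 1` and `s = 2` detect the powers of `t`.** -/
theorem mem4 {hs2 : (2 : ℝ) ≠ 0} {σ : A →* G3} (hbr : t * i * t * i = i * t * i * t) (ht : ρ t = mT hs1)
    (hi : ρ i = mI hs1 2) (ht' : σ t = mT hs2) (hi' : σ i = mI hs2 2) {x : A}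
    (hx : x ∈ Subgroup.closure {t, i}) (h1 : (ρ x (1, 0, 0)).2.1 = 0)
    (h2 : (σ x (0, 1, 0)).2.1 = 1) : x ∈ Subgroup.zpowers t := by
  rcases U4.of_mem hbr hx with ⟨a, l, rfl⟩ | ⟨a, y, hy, rfl⟩
  · rw [map_mul, mul_app, t_zpow_snd ht', z4_zpow ht' hi', mul_one] at h2
    have h3 : l = 0 := by
      by_contra hl0
      have h4 : (4 : ℝ) ^ l = 1 := by
        have h5 := congrArg abs h2
        rw [abs_zpow, abs_one] at h5
        norm_num at h5 ⊢
        exact h5
      have h5 := zpow_right_injective₀ (show (0 : ℝ) < 4 by norm_num) (by norm_num)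
      exact hl0 (h5 (by
        change (4 : ℝ) ^ l = (4 : ℝ) ^ (0 : ℤ)
        rw [h4, zpow_zero]))
    rw [h3, zpow_zero, mul_one]
    exact zpow_mem (Subgroup.mem_zpowers t) a
  · exfalso
    obtain ⟨X, Y, h3, h4, -⟩ := hy.cone ht hi
    rw [map_mul, mul_app, t_zpow_snd ht, h3] at h1
    exact h4 h1

end cone

end Pool.Agent.RG1
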