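import Pool.Agent.RG1.NF4

/-!
# The label 5: a normal form

The group is generated by `w = t i` and `D = t i t i t`, with `w ^ 5 = D ^ 2 = z`. Each element is
`t ^ a z ^ l y t ^ b`, where `y` is a product of factors `D w ^ a` with `1 ≤ a ≤ 4`.
-/

set_option autoImplicit false

namespace Pool.Agent.RG1

/-- The products of `n` factors `D w ^ a` with `1 ≤ a ≤ 4`. -/
inductive W5 {A : Type} [Group A] (D w : A) : ℕ → A → Prop
  | one : W5 D w 0 1
  | step {n : ℕ} {x : A} (a : ℕ) : 1 ≤ a → a ≤ 4 → W5 D w n x → W5 D w (n + 1) (x * (D * w ^ a))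

/-- The normal forms. -/
def N5 {A : Type} [Group A] (D w t z : A) (x : A) : Prop :=
  ∃ (a l b : ℤ) (n : ℕ) (y : A), W5 D w n y ∧ x = t ^ a * z ^ l * y * t ^ b

/-- The relations. -/
structure Rel5 {A : Type} [Group A] (D w t z : A) : Prop where
  dd : D * D = z
  ww : w ^ 5 = z
  wt : w * w * t = D

section group

variable {A : Type} [Group A] {D w t z : A} (R : Rel5 D w t z)

include R

theorem Rel5.zD : Commute z D := by
  rw [← R.dd]
  exact (Commute.refl D).mul_left (Commute.refl D)

theorem Rel5.zw : Commute z w := by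
  rw [← R.ww]
  exact (Commute.refl w).pow_left 5

theorem Rel5.t_eq : t = w⁻¹ * w⁻¹ * D := by
  rw [← R.wt]
  group

theorem Rel5.zt : Commute z t := by
  rw [R.t_eq]
  exact (R.zw.inv_right.mul_right R.zw.inv_right).mul_right R.zD

theorem Rel5.zW {n : ℕ} {y : A} (h : W5 D w n y) : Commute z y := by
  induction h with
  | one => exact Commute.one_right _
  | step a _ _ _ ih => exact ih.mul_right (R.zD.mul_right (R.zw.pow_right a))

theorem N5.mul_t {x : A} (h : N5 D w t z x) (k : ℤ) : N5 D w t z (x * t ^ k) := by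
  obtain ⟨a, l, b, n, y, hy, rfl⟩ := h
  exact ⟨a, l, b + k, n, y, hy, by rw [zpow_add]; simp only [mul_assoc]⟩

theorem N5.t_mul {x : A} (h : N5 D w t z x) (k : ℤ) : N5 D w t z (t ^ k * x) := by
  obtain ⟨a, l, b, n, y, hy, rfl⟩ := h
  exact ⟨k + a, l, b, n, y, hy, by rw [zpow_add]; simp only [mul_assoc]⟩

theorem N5.z_mul {x : A} (h : N5 D w t z x) (k : ℤ) : N5 D w t z (z ^ k * x) := by
  obtain ⟨a, l, b, n, y, hy, rfl⟩ := h
  refine ⟨a, k + l, b, n, y, hy, ?_⟩
  have h1 : z ^ k * t ^ a = t ^ a * z ^ k := (R.zt.zpow_zpow k a).eq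
  rw [← mul_assoc, ← mul_assoc, ← mul_assoc, h1, mul_assoc (t ^ a), ← zpow_add]

theorem N5.mul_z {x : A} (h : N5 D w t z x) (k : ℤ) : N5 D w t z (x * z ^ k) := by
  have h1 : x * z ^ k = z ^ k * x := by
    obtain ⟨a, l, b, n, y, hy, rfl⟩ := h
    have h1 : Commute z (t ^ a * z ^ l * y * t ^ b) :=
      (((R.zt.zpow_right a).mul_right ((Commute.refl z).zpow_right l)).mul_right (R.zW hy)).mul_right
        (R.zt.zpow_right b)
    exact (h1.zpow_left k).eq.symm
  rw [h1]
  exact N5.z_mul R h k

theorem N5.of_W {n : ℕ} {y : A} (hy : W5 D w n y) : N5 D w t z y :=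
  ⟨0, 0, 0, n, y, hy, by simp⟩

theorem Rel5.w_eq : w = z ^ (-1 : ℤ) * (t * (D * w ^ 3)) := by
  have h1 : t * (D * w ^ 3) = z * w := by
    calc t * (D * w ^ 3) = w⁻¹ * w⁻¹ * (D * D) * w ^ 3 := by
          rw [R.t_eq]
          simp only [mul_assoc]
      _ = z * w⁻¹ * w⁻¹ * w ^ 3 := by
          rw [R.dd, ← (R.zw.inv_right.mul_right R.zw.inv_right).eq]
          simp only [mul_assoc]
      _ = z * w := by group
  rw [h1, zpow_neg_one, inv_mul_cancel_left]

theorem Rel5.D_eq : D = z ^ (-1 : ℤ) * (t * (D * w ^ 4) * t) := by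
  have h1 : t * (D * w ^ 4) * t = z * D := by
    calc t * (D * w ^ 4) * t = w⁻¹ * w⁻¹ * (D * D) * (w ^ 4 * (w⁻¹ * w⁻¹ * D)) := by
          conv_lhs => rw [R.t_eq]
          simp only [mul_assoc]
      _ = z * w⁻¹ * w⁻¹ * (w ^ 4 * (w⁻¹ * w⁻¹ * D)) := by
          rw [R.dd, ← (R.zw.inv_right.mul_right R.zw.inv_right).eq]
          simp only [mul_assoc]
      _ = z * D := by group
  rw [h1, zpow_neg_one, inv_mul_cancel_left]

theorem N5.mul_D {n : ℕ} {y : A} (hy : W5 D w n y) : N5 D w t z (y * D) := by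
  induction hy with
  | one =>
    have e0 : 1 * D = z ^ (-1 : ℤ) * (t * (D * w ^ 4) * t) := by
      rw [one_mul]
      exact R.D_eq
    rw [e0]
    refine N5.z_mul R ?_ _
    exact ⟨1, 0, 1, _, _, W5.one.step 4 (by norm_num) le_rfl, by simp⟩
  | @step n y a h1 h4 h ih =>
    have e0 : y * (D * w ^ a) * D = y * (D * w ^ (a + 2)) * t := by
      calc y * (D * w ^ a) * D = y * (D * w ^ a) * (w * w * t) := by rw [R.wt]
        _ = _ := by
          rw [pow_add, pow_two]
          simp only [mul_assoc]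
    rw [e0]
    have hc : a = 1 ∨ a = 2 ∨ a = 3 ∨ a = 4 := by omega
    rcases hc with rfl | rfl | rfl | rfl
    · have h2 := N5.mul_t R (N5.of_W R (h.step 3 (by norm_num) (by norm_num))) 1
      rwa [zpow_one] at h2
    · have h2 := N5.mul_t R (N5.of_W R (h.step 4 (by norm_num) (by norm_num))) 1
      rwa [zpow_one] at h2
    · have h2 := N5.mul_t R (N5.mul_z R ih 1) 1
      rw [zpow_one, zpow_one] at h2
      have e1 : y * (D * w ^ (3 + 2)) * t = y * D * z * t := by
        rw [R.ww]
        simp only [mul_assoc]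
      rwa [e1]
    · have h2 := N5.mul_t R (N5.mul_z R (N5.of_W R (h.step 1 (by norm_num) (by norm_num))) 1) 1
      rw [zpow_one, zpow_one] at h2
      have e1 : y * (D * w ^ (4 + 2)) * t = y * (D * w ^ 1) * z * t := by
        have e2 : w ^ (4 + 2) = w ^ 1 * z := by
          rw [← R.ww, ← pow_add]
        rw [e2]
        simp only [mul_assoc]
      rwa [e1]

theorem N5.mul_DTW (k : ℕ) : ∀ {n : ℕ} {y : A}, W5 D w n y → N5 D w t z (y * D * t ^ k * w) := by
  induction k with
  | zero =>
    intro n y h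
    have e1 : y * D * t ^ 0 * w = y * (D * w ^ 1) := by
      rw [pow_zero, pow_one, mul_one, mul_assoc]
    rw [e1]
    exact N5.of_W R (h.step 1 (by norm_num) (by norm_num))
  | succ k ih =>
    intro n y h
    have e1 : D * t = z ^ (-1 : ℤ) * (D * w ^ 3) * D := by
      calc D * t = D * (w⁻¹ * w⁻¹ * D) := by rw [← R.t_eq]
        _ = D * (w ^ 5)⁻¹ * w ^ 3 * D := by group
        _ = D * z⁻¹ * w ^ 3 * D := by rw [R.ww]
        _ = z⁻¹ * D * w ^ 3 * D := by rw [R.zD.inv_left.eq]
        _ = _ := by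
          rw [zpow_neg_one]
          simp only [mul_assoc]
    have e2 : y * D * t ^ (k + 1) * w = z ^ (-1 : ℤ) * (y * (D * w ^ 3) * D * t ^ k * w) := by
      calc y * D * t ^ (k + 1) * w = y * (D * t) * t ^ k * w := by
            rw [pow_succ']
            simp only [mul_assoc]
        _ = (y * z ^ (-1 : ℤ)) * (D * w ^ 3) * D * t ^ k * w := by
            rw [e1]
            simp only [mul_assoc]
        _ = (z ^ (-1 : ℤ) * y) * (D * w ^ 3) * D * t ^ k * w := by
            rw [((R.zW h).zpow_left (-1)).eq]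
        _ = _ := by simp only [mul_assoc]
    rw [e2]
    exact N5.z_mul R (ih (h.step 3 (by norm_num) (by norm_num))) _

theorem W5.mul_tinv {n : ℕ} {y : A} (h : W5 D w n y) (k : ℕ) :
    ∃ (m : ℕ) (y' : A), W5 D w m y' ∧ y * t⁻¹ ^ k = z ^ (-(k : ℤ)) * y' := by
  induction k with
  | zero => exact ⟨n, y, h, by simp⟩
  | succ k ih =>
    obtain ⟨m, y', hy', he⟩ := ih
    refine ⟨m + 1, _, hy'.step 2 (by norm_num) (by norm_num), ?_⟩
    have e1 : t⁻¹ = z ^ (-1 : ℤ) * (D * w ^ 2) := by
      rw [R.t_eq, ← R.dd, zpow_neg_one]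
      group
    rw [pow_succ, ← mul_assoc, he, mul_assoc, e1, ← mul_assoc y', ← ((R.zW hy').zpow_left (-1)).eq]
    have e2 : (-((k + 1 : ℕ) : ℤ)) = -(k : ℤ) + (-1) := by
      push_cast
      ring
    rw [e2, zpow_add]
    simp only [mul_assoc]

theorem N5.mul_tw {n : ℕ} {y : A} (h : W5 D w n y) : ∀ b : ℤ, N5 D w t z (y * t ^ b * w) := by
  induction h with
  | one =>
    intro b
    have e1 : 1 * t ^ b * w = z ^ (-1 : ℤ) * (t ^ (b + 1) * (1 * (D * w ^ 3))) := by
      conv_lhs => rw [R.w_eq]
      rw [one_mul, ← mul_assoc, (R.zt.zpow_zpow (-1) b).eq.symm, zpow_add_one]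
      simp only [mul_assoc, one_mul]
    rw [e1]
    exact N5.z_mul R (N5.t_mul R (N5.of_W R (W5.one.step 3 (by norm_num) (by norm_num))) _) _
  | @step n y a h1 h4 h ih =>
    intro b
    have h' : W5 D w (n + 1) (y * (D * w ^ a)) := h.step a h1 h4
    rcases lt_trichotomy b 0 with hb | hb | hb
    · obtain ⟨k, hk⟩ := Int.eq_ofNat_of_zero_le (show 0 ≤ -b - 1 by omega)
      have e1 : t ^ b = t⁻¹ ^ k * t⁻¹ := by
        have h2 : b = -((k + 1 : ℕ) : ℤ) := by
          push_cast
          omega
        rw [h2, zpow_neg, zpow_natCast, ← inv_pow, pow_succ]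
      obtain ⟨m, y', hy', he⟩ := W5.mul_tinv R h' k
      have e2 : t⁻¹ * w = z ^ (-1 : ℤ) * (D * w ^ 3) := by
        rw [R.t_eq, ← R.dd, zpow_neg_one]
        group
      have e3 : y * (D * w ^ a) * t ^ b * w = z ^ (-(k : ℤ)) * (z ^ (-1 : ℤ) * (y' * (D * w ^ 3))) := by
        calc y * (D * w ^ a) * t ^ b * w = (y * (D * w ^ a) * t⁻¹ ^ k) * (t⁻¹ * w) := by
              rw [e1]
              simp only [mul_assoc]
          _ = z ^ (-(k : ℤ)) * (y' * z ^ (-1 : ℤ)) * (D * w ^ 3) := by
              rw [he, e2]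
              simp only [mul_assoc]
          _ = _ := by
              rw [← ((R.zW hy').zpow_left (-1)).eq]
              simp only [mul_assoc]
      rw [e3]
      exact N5.z_mul R (N5.z_mul R (N5.of_W R (hy'.step 3 (by norm_num) (by norm_num))) _) _
    · rw [hb, zpow_zero, mul_one]
      by_cases ha : a = 4
      · have e1 : y * (D * w ^ a) * w = z ^ (1 : ℤ) * (y * D) := by
          have e2 : w ^ a * w = z := by
            rw [ha, ← R.ww, ← pow_succ]
          calc y * (D * w ^ a) * w = y * D * (w ^ a * w) := by simp only [mul_assoc]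
            _ = y * D * z := by rw [e2]
            _ = _ := by
              rw [zpow_one, ((R.zW h).mul_right R.zD).eq]
        rw [e1]
        exact N5.z_mul R (N5.mul_D R h) _
      · have e1 : y * (D * w ^ a) * w = y * (D * w ^ (a + 1)) := by
          rw [pow_succ]
          simp only [mul_assoc]
        rw [e1]
        exact N5.of_W R (h.step (a + 1) (by omega) (by omega))
    · obtain ⟨k, hk⟩ := Int.eq_ofNat_of_zero_le (show 0 ≤ b - 1 by omega)
      have e1 : t ^ b = t * t ^ k := by
        have h2 : b = ((k + 1 : ℕ) : ℤ) := by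
          push_cast
          omega
        rw [h2, zpow_natCast, pow_succ']
      have e2 : y * (D * w ^ a) * t ^ b * w = y * (D * (w ^ a * (w⁻¹ * w⁻¹))) * D * t ^ k * w := by
        have e5 : t * t ^ k = w⁻¹ * w⁻¹ * D * t ^ k := by
          conv_lhs =>
            arg 1
            rw [R.t_eq]
        rw [e1, e5]
        simp only [mul_assoc]
      have hc : a = 2 ∨ a = 1 ∨ a = 3 ∨ a = 4 := by omega
      rcases hc with ha | ha | ha | ha
      · have e3 : y * (D * w ^ a) * t ^ b * w = z ^ (1 : ℤ) * (y * t ^ (k : ℤ) * w) := by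
          have e4 : w ^ a * (w⁻¹ * w⁻¹) = 1 := by
            rw [ha]
            group
          rw [e2, e4, mul_one]
          calc y * D * D * t ^ k * w = y * (D * D) * t ^ k * w := by simp only [mul_assoc]
            _ = y * z * t ^ k * w := by rw [R.dd]
            _ = _ := by
              rw [← (R.zW h).eq, zpow_one, zpow_natCast]
              simp only [mul_assoc]
        rw [e3]
        exact N5.z_mul R (ih k) _
      · have e3 : y * (D * w ^ a) * t ^ b * w = z ^ (-1 : ℤ) * (y * (D * w ^ 4) * D * t ^ k * w) := by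
          have e4 : w ^ a * (w⁻¹ * w⁻¹) = z⁻¹ * w ^ 4 := by
            rw [ha, ← R.ww]
            group
          rw [e2, e4]
          calc y * (D * (z⁻¹ * w ^ 4)) * D * t ^ k * w = (y * D * z⁻¹) * w ^ 4 * D * t ^ k * w := by
                simp only [mul_assoc]
            _ = (z⁻¹ * (y * D)) * w ^ 4 * D * t ^ k * w := by
                rw [((R.zW h).mul_right R.zD).inv_left.eq]
            _ = _ := by
                rw [zpow_neg_one]
                simp only [mul_assoc]
        rw [e3]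
        exact N5.z_mul R (N5.mul_DTW R k (h.step 4 (by norm_num) (by norm_num))) _
      · have e4 : w ^ a * (w⁻¹ * w⁻¹) = w ^ 1 := by
          rw [ha]
          group
        rw [e2, e4]
        exact N5.mul_DTW R k (h.step 1 (by norm_num) (by norm_num))
      · have e4 : w ^ a * (w⁻¹ * w⁻¹) = w ^ 2 := by
          rw [ha]
          group
        rw [e2, e4]
        exact N5.mul_DTW R k (h.step 2 (by norm_num) (by norm_num))

theorem N5.mul_w {x : A} (h : N5 D w t z x) : N5 D w t z (x * w) := by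
  obtain ⟨a, l, b, n, y, hy, rfl⟩ := h
  have h1 := N5.t_mul R (N5.z_mul R (N5.mul_tw R hy b) l) a
  have h2 : t ^ a * z ^ l * y * t ^ b * w = t ^ a * (z ^ l * (y * t ^ b * w)) := by
    simp only [mul_assoc]
  rw [h2]
  exact h1

theorem N5.of_mem {i : A} (hi : w = t * i) {x : A} (hx : x ∈ Subgroup.closure {t, i}) : N5 D w t z x := by
  induction hx using Subgroup.closure_induction_right with
  | one => exact ⟨0, 0, 0, 0, 1, W5.one, by simp⟩
  | mul_right x hx y hy ih =>
    rcases hy with rfl | hy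
    · have h1 := N5.mul_t R ih 1
      rwa [zpow_one] at h1
    · have hy' : y = i := hy
      have h1 := N5.mul_w R (N5.mul_t R ih (-1))
      have h2 : x * t ^ (-1 : ℤ) * w = x * y := by
        rw [hi, hy']
        group
      rwa [h2] at h1
  | mul_inv_cancel x hx y hy ih =>
    rcases hy with rfl | hy
    · have h1 := N5.mul_t R ih (-1)
      rwa [zpow_neg_one] at h1
    · have hy' : y = i := hy
      have h1 := N5.mul_t R (N5.mul_z R (N5.mul_w R (N5.mul_w R (N5.mul_w R (N5.mul_w R ih)))) (-1)) 1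
      have h2 : x * w * w * w * w * z ^ (-1 : ℤ) * t ^ (1 : ℤ) = x * y⁻¹ := by
        have h3 : i = t⁻¹ * w := by
          rw [hi]
          group
        rw [hy', h3, ← R.ww]
        group
      rwa [h2] at h1

end group

end Pool.Agent.RG1
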