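import Pool.Agent.RG1.NF5

/-!
# The label 5: positivity
-/

set_option autoImplicit false

namespace Pool.Agent.RG1

section rel

variable {A : Type} [Group A] {t i : A}

theorem rel5 (hbr : t * i * t * i * t = i * t * i * t * i) :
    Rel5 (t * i * t * i * t) (t * i) t (t * i * t * i * t * (t * i * t * i * t)) where
  dd := rfl
  ww := by
    calc (t * i) ^ 5 = t * i * t * i * t * (i * t * i * t * i) := by
          simp only [pow_succ, pow_zero, one_mul, mul_assoc]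
      _ = _ := by rw [hbr]
  wt := by simp only [mul_assoc]

end rel

section pos

variable {A : Type} [Group A] {t i : A} {hs1 : (1 : ℝ) ≠ 0} {ρ : A →* G3} {ν : ℝ}

theorem D_app {s : ℝ} {hs : s ≠ 0} {ρ : A →* G3} (hν : ν ^ 2 = 3 * ν - 1) (ht : ρ t = mT hs)
    (hi : ρ i = mI hs ν) (x y : ℝ) :
    ρ (t * i * t * i * t) (x, y, 0) = (s ^ 3 * (ν - 2) * y, -(s ^ 2 * (ν - 1) * x), 0) := by
  simp only [map_mul, mul_app, ht, hi, mT_apply, mI_apply, Prod.mk.injEq]
  refine ⟨?_, ?_, trivial⟩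
  · linear_combination (x * s ^ 3 - y * s ^ 3) * hν
  · linear_combination (- x * s ^ 2 + y * s ^ 2) * hν

theorem z5_zpow {s : ℝ} {hs : s ≠ 0} {ρ : A →* G3} (hν : ν ^ 2 = 3 * ν - 1) (ht : ρ t = mT hs)
    (hi : ρ i = mI hs ν) (l : ℤ) (x y : ℝ) :
    ρ ((t * i * t * i * t * (t * i * t * i * t)) ^ l) (x, y, 0) = ((-s ^ 5) ^ l * x, (-s ^ 5) ^ l * y, 0) := by
  have hs3 : (-s ^ 5) ≠ 0 := neg_ne_zero.2 (pow_ne_zero 5 hs)
  have h0 : ∀ x y : ℝ, ρ (t * i * t * i * t * (t * i * t * i * t)) (x, y, 0) =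
      ((-s ^ 5) * x, (-s ^ 5) * y, 0) := by
    intro x y
    rw [map_mul, mul_app, D_app hν ht hi, D_app hν ht hi]
    simp only [Prod.mk.injEq, and_true]
    refine ⟨?_, ?_⟩
    · linear_combination (-s ^ 5 * x) * hν
    · linear_combination (-s ^ 5 * y) * hν
  have h1 : ∀ x y : ℝ, (ρ (t * i * t * i * t * (t * i * t * i * t)))⁻¹ (x, y, 0) =
      ((-s ^ 5)⁻¹ * x, (-s ^ 5)⁻¹ * y, 0) := by
    intro x y
    have h2 : (ρ (t * i * t * i * t * (t * i * t * i * t)))⁻¹
        (ρ (t * i * t * i * t * (t * i * t * i * t)) ((-s ^ 5)⁻¹ * x, (-s ^ 5)⁻¹ * y, 0)) =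
        ((-s ^ 5)⁻¹ * x, (-s ^ 5)⁻¹ * y, 0) := by
      rw [← mul_app, inv_mul_cancel, one_app]
    rwa [h0, mul_inv_cancel_left₀ hs3, mul_inv_cancel_left₀ hs3] at h2
  rw [map_zpow]
  induction l using Int.induction_on generalizing x y with
  | zero => rw [zpow_zero, zpow_zero, one_app, one_mul, one_mul]
  | succ l ih => rw [zpow_add_one, mul_app, h0, ih, zpow_add_one₀ hs3, mul_assoc, mul_assoc]
  | pred l ih => rw [zpow_sub_one, mul_app, h1, ih, zpow_sub_one₀ hs3, mul_assoc, mul_assoc]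

theorem w_app1 (ht : ρ t = mT hs1) (hi : ρ i = mI hs1 ν) (x y : ℝ) :
    ρ (t * i) (x, y, 0) = (-((ν - 1) * x) - y, ν * x + y, 0) := by
  simp only [map_mul, mul_app, ht, hi, mT_apply, mI_apply, Prod.mk.injEq]
  refine ⟨by ring, by ring, trivial⟩

theorem w_app2 (hν : ν ^ 2 = 3 * ν - 1) (ht : ρ t = mT hs1) (hi : ρ i = mI hs1 ν) (x y : ℝ) :
    ρ ((t * i) ^ 2) (x, y, 0) = ((ν - 2) * y, -((ν - 1) * x) - (ν - 1) * y, 0) := by
  rw [pow_succ, pow_one, map_mul, mul_app, w_app1 ht hi, w_app1 ht hi]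
  simp only [Prod.mk.injEq, and_true]
  refine ⟨?_, ?_⟩
  · linear_combination x * hν
  · linear_combination (-x) * hν

theorem w_app3 (hν : ν ^ 2 = 3 * ν - 1) (ht : ρ t = mT hs1) (hi : ρ i = mI hs1 ν) (x y : ℝ) :
    ρ ((t * i) ^ 3) (x, y, 0) = ((ν - 1) * x + (ν - 2) * y, -((ν - 1) * x), 0) := by
  rw [pow_succ, map_mul, mul_app, w_app1 ht hi, w_app2 hν ht hi]
  simp only [Prod.mk.injEq, and_true]
  refine ⟨?_, ?_⟩
  · linear_combination x * hν
  · ring

theorem w_app4 (hν : ν ^ 2 = 3 * ν - 1) (ht : ρ t = mT hs1) (hi : ρ i = mI hs1 ν) (x y : ℝ) :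
    ρ ((t * i) ^ 4) (x, y, 0) = (-x - y, ν * x + (ν - 1) * y, 0) := by
  rw [pow_succ, map_mul, mul_app, w_app1 ht hi, w_app3 hν ht hi]
  simp only [Prod.mk.injEq, and_true]
  refine ⟨?_, ?_⟩
  · linear_combination (0 : ℝ) * hν
  · linear_combination x * hν

/-- The second coordinates of the images of the letters. -/
theorem L_app (hν : ν ^ 2 = 3 * ν - 1) (hν2 : 2 < ν) (ht : ρ t = mT hs1) (hi : ρ i = mI hs1 ν) {a : ℕ}
    (h1 : 1 ≤ a) (h4 : a ≤ 4) :
    ∃ ε p q r s : ℝ, (ε = 1 ∨ ε = -1) ∧ 0 < p ∧ 0 ≤ q ∧ 0 ≤ r ∧ 0 < s ∧ (a = 2 ∨ 0 < q) ∧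
      ρ (t * i * t * i * t * (t * i) ^ a) (1, 0, 0) = ε • (p, q, 0) ∧
      ρ (t * i * t * i * t * (t * i) ^ a) (0, 1, 0) = ε • (r, s, 0) := by
  have hc : a = 1 ∨ a = 2 ∨ a = 3 ∨ a = 4 := by omega
  have hD := fun x y : ℝ => D_app (hs := hs1) hν ht hi x y
  rcases hc with rfl | rfl | rfl | rfl
  · refine ⟨1, ν - 1, ν, ν - 2, ν - 1, Or.inl rfl, by linarith, by linarith, by linarith, by linarith,
      Or.inr (by linarith), ?_, ?_⟩
    · rw [map_mul, mul_app, pow_one, w_app1 ht hi, hD, one_smul]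
      simp only [Prod.mk.injEq, and_true]
      refine ⟨?_, ?_⟩
      · linear_combination hν
      · linear_combination hν
    · rw [map_mul, mul_app, pow_one, w_app1 ht hi, hD, one_smul]
      simp only [Prod.mk.injEq, and_true]
      refine ⟨by ring, by ring⟩
  · refine ⟨-1, 1, 0, 1, 1, Or.inr rfl, by norm_num, by norm_num, by norm_num, by norm_num,
      Or.inl rfl, ?_, ?_⟩
    · rw [map_mul, mul_app, w_app2 hν ht hi, hD]
      simp only [Prod.smul_mk, smul_eq_mul, Prod.mk.injEq]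
      refine ⟨?_, by ring, by ring⟩
      linear_combination (-1 : ℝ) * hν
    · rw [map_mul, mul_app, w_app2 hν ht hi, hD]
      simp only [Prod.smul_mk, smul_eq_mul, Prod.mk.injEq]
      refine ⟨?_, ?_, by ring⟩
      · linear_combination (-1 : ℝ) * hν
      · linear_combination (-1 : ℝ) * hν
  · refine ⟨-1, 1, ν, 0, 1, Or.inr rfl, by norm_num, by linarith, by norm_num, by norm_num,
      Or.inr (by linarith), ?_, ?_⟩
    · rw [map_mul, mul_app, w_app3 hν ht hi, hD]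
      simp only [Prod.smul_mk, smul_eq_mul, Prod.mk.injEq]
      refine ⟨?_, ?_, by ring⟩
      · linear_combination (-1 : ℝ) * hν
      · linear_combination (-1 : ℝ) * hν
    · rw [map_mul, mul_app, w_app3 hν ht hi, hD]
      simp only [Prod.smul_mk, smul_eq_mul, Prod.mk.injEq]
      refine ⟨by ring, ?_, by ring⟩
      linear_combination (-1 : ℝ) * hν
  · refine ⟨1, ν - 1, ν - 1, 1, ν - 1, Or.inl rfl, by linarith, by linarith, by norm_num, by linarith,
      Or.inr (by linarith), ?_, ?_⟩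
    · rw [map_mul, mul_app, w_app4 hν ht hi, hD, one_smul]
      simp only [Prod.mk.injEq, and_true]
      refine ⟨?_, by ring⟩
      linear_combination hν
    · rw [map_mul, mul_app, w_app4 hν ht hi, hD, one_smul]
      simp only [Prod.mk.injEq, and_true]
      refine ⟨?_, by ring⟩
      linear_combination hν

theorem W5.pos (hbr : t * i * t * i * t = i * t * i * t * i) (hν : ν ^ 2 = 3 * ν - 1) (hν2 : 2 < ν)
    (ht : ρ t = mT hs1) (hi : ρ i = mI hs1 ν) {n : ℕ} {y : A} (h : W5 (t * i * t * i * t) (t * i) n y) :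
    ∃ ε Y Y' : ℝ, (ε = 1 ∨ ε = -1) ∧ 0 ≤ Y ∧ 0 < Y' ∧ (ρ y (1, 0, 0)).2.1 = ε * Y ∧
      (ρ y (0, 1, 0)).2.1 = ε * Y' ∧ (0 < Y ∨
        ∃ a l : ℤ, y = t ^ a * (t * i * t * i * t * (t * i * t * i * t)) ^ l) := by
  induction h with
  | one =>
    refine ⟨1, 0, 1, Or.inl rfl, le_rfl, zero_lt_one, ?_, ?_, Or.inr ⟨0, 0, by simp⟩⟩
    · rw [map_one, one_app, mul_zero]
    · rw [map_one, one_app, mul_one]
  | @step n y a h1 h4 h ih =>
    obtain ⟨ε, Y, Y', hε, hY, hY', e1, e2, h5⟩ := ih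
    obtain ⟨δ, p, q, r, s, hδ, hp, hq, hr, hs, h6, e3, e4⟩ := L_app hν hν2 ht hi h1 h4
    have key : ∀ p q : ℝ, (ρ y (p, q, 0)).2.1 = ε * (p * Y + q * Y') := by
      intro p q
      have h7 : ((p, q, 0) : V3) = p • ((1, 0, 0) : V3) + q • ((0, 1, 0) : V3) := by
        ext <;> simp
      rw [h7, map_add, map_smul, map_smul]
      change p * (ρ y (1, 0, 0)).2.1 + q * (ρ y (0, 1, 0)).2.1 = _
      rw [e1, e2]
      ring
    refine ⟨ε * δ, p * Y + q * Y', r * Y + s * Y', ?_, by positivity, by positivity, ?_, ?_, ?_⟩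
    · rcases hε with rfl | rfl <;> rcases hδ with rfl | rfl <;> norm_num
    · rw [map_mul, mul_app, e3, map_smul]
      change δ * (ρ y (p, q, 0)).2.1 = _
      rw [key]
      ring
    · rw [map_mul, mul_app, e4, map_smul]
      change δ * (ρ y (r, s, 0)).2.1 = _
      rw [key]
      ring
    · rcases h6 with rfl | h6
      · rcases h5 with h5 | ⟨b, l, h5⟩
        · exact Or.inl (by positivity)
        · refine Or.inr ⟨b - 1, l + 1, ?_⟩
          have R := rel5 hbr
          have h7 : t * i * t * i * t * (t * i) ^ 2 = t * i * t * i * t * (t * i * t * i * t) * t⁻¹ := by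
            rw [pow_two]
            group
          rw [h5, h7, mul_assoc, ← mul_assoc _ _ t⁻¹, ← zpow_add_one]
          have h8 := (R.zt.inv_right.zpow_left (l + 1)).eq
          rw [h8, ← mul_assoc, zpow_sub_one]
      · exact Or.inl (by positivity)

theorem tz_mul {A : Type} [Group A] {z t : A} (h : Commute z t) (a a' b l l' : ℤ) :
    t ^ a * z ^ l * (t ^ a' * z ^ l') * t ^ b = t ^ (a + a' + b) * z ^ (l + l') := by
  have h7 : z ^ l * t ^ a' = t ^ a' * z ^ l := (h.zpow_zpow l a').eq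
  have h8 : z ^ (l + l') * t ^ b = t ^ b * z ^ (l + l') := (h.zpow_zpow (l + l') b).eq
  calc t ^ a * z ^ l * (t ^ a' * z ^ l') * t ^ b = t ^ a * (z ^ l * t ^ a') * z ^ l' * t ^ b := by
        simp only [mul_assoc]
    _ = t ^ a * t ^ a' * ((z ^ l * z ^ l') * t ^ b) := by
        rw [h7]
        simp only [mul_assoc]
    _ = t ^ a * t ^ a' * (z ^ (l + l') * t ^ b) := by rw [zpow_add z]
    _ = t ^ a * t ^ a' * (t ^ b * z ^ (l + l')) := by rw [h8]
    _ = _ := by
        rw [zpow_add t, zpow_add t]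
        simp only [mul_assoc]

/-- **Label 5: the values at `s = 1` and `s = 2` detect the powers of `t`.** -/
theorem mem5 {hs2 : (2 : ℝ) ≠ 0} {σ : A →* G3} (hbr : t * i * t * i * t = i * t * i * t * i)
    (hν : ν ^ 2 = 3 * ν - 1) (hν2 : 2 < ν) (ht : ρ t = mT hs1) (hi : ρ i = mI hs1 ν) (ht' : σ t = mT hs2)
    (hi' : σ i = mI hs2 ν) {x : A} (hx : x ∈ Subgroup.closure {t, i}) (h1 : (ρ x (1, 0, 0)).2.1 = 0)
    (h2 : (σ x (0, 1, 0)).2.1 = 1) : x ∈ Subgroup.zpowers t := by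
  have R := rel5 hbr
  have key : ∀ a l : ℤ, (σ (t ^ a * (t * i * t * i * t * (t * i * t * i * t)) ^ l) (0, 1, 0)).2.1 = 1 → l = 0 := by
    intro a l h2
    rw [map_mul, mul_app, t_zpow_snd ht', z5_zpow hν ht' hi', mul_one] at h2
    by_contra hl0
    have h4 : (32 : ℝ) ^ l = 1 := by
      have h5 := congrArg abs h2
      rw [abs_zpow, abs_one] at h5
      norm_num at h5 ⊢
      exact h5
    have h5 := zpow_right_injective₀ (show (0 : ℝ) < 32 by norm_num) (by norm_num)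
    exact hl0 (h5 (by
      change (32 : ℝ) ^ l = (32 : ℝ) ^ (0 : ℤ)
      rw [h4, zpow_zero]))
  obtain ⟨a, l, b, n, y, hy, rfl⟩ := N5.of_mem R rfl hx
  obtain ⟨ε, Y, Y', hε, hY, hY', e1, e2, h5⟩ := hy.pos hbr hν hν2 ht hi
  have hYz : Y = 0 := by
    have h6 : ρ (t ^ b) (1, 0, 0) = (1, 0, 0) := by
      rw [t_zpow_one ht, mul_zero, sub_zero]
    have hym : y ∈ Subgroup.closure ({t, i} : Set A) := by
      clear hx h1 h2 e1 e2 h5
      have h2 : t ∈ Subgroup.closure ({t, i} : Set A) := Subgroup.subset_closure (Set.mem_insert _ _)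
      have h3 : i ∈ Subgroup.closure ({t, i} : Set A) :=
        Subgroup.subset_closure (Set.mem_insert_of_mem _ (Set.mem_singleton _))
      induction hy with
      | one => exact one_mem _
      | step a _ _ _ ih =>
        exact mul_mem ih (mul_mem (mul_mem (mul_mem (mul_mem (mul_mem h2 h3) h2) h3) h2)
          (pow_mem (mul_mem h2 h3) a))
    have h7 := (fix_of_mem ht hi hym).1 (1, 0, 0)
    obtain ⟨v, hv⟩ : ∃ v, ρ y (1, 0, 0) = v := ⟨_, rfl⟩
    rw [hv] at h7 e1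
    rw [map_mul, mul_app, h6, mul_assoc, map_mul, mul_app, t_zpow_snd ht, map_mul, mul_app, hv] at h1
    have h8 : v = (v.1, v.2.1, 0) := by
      ext
      · rfl
      · rfl
      · exact h7
    rw [h8, z5_zpow hν ht hi, e1] at h1
    rcases mul_eq_zero.1 h1 with h9 | h9
    · exact absurd h9 (zpow_ne_zero _ (by norm_num))
    · rcases mul_eq_zero.1 h9 with h10 | h10
      · rcases hε with h11 | h11
        · rw [h11] at h10
          norm_num at h10
        · rw [h11] at h10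
          norm_num at h10
      · exact h10
  rcases h5 with h5 | ⟨a', l', h5⟩
  · exact absurd hYz h5.ne'
  · have h6 : t ^ a * (t * i * t * i * t * (t * i * t * i * t)) ^ l * y * t ^ b =
        t ^ (a + a' + b) * (t * i * t * i * t * (t * i * t * i * t)) ^ (l + l') := by
      rw [h5]
      exact tz_mul R.zt a a' b l l'
    rw [h6] at h2 ⊢
    rw [key _ _ h2, zpow_zero, mul_one]
    exact zpow_mem (Subgroup.mem_zpowers t) _

end pos

end Pool.Agent.RG1
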