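import Pool.Agent.AIR.Vdl
import Pool.Agent.AIR.Lr

/-!
# The relative girth over one generator: reduction to closed words

`B` is generated by `t`, and `Q` by `t` and an element `j` which commutes with `t`. The relative
girth is equivalent to `x₁ j ^ b₁ ⋯ xₙ j ^ bₙ ≠ 1` for `n < m`, `xᵢ ∈ P \ B`, `bᵢ ≠ 0`.
-/

set_option autoImplicit false

namespace Pool.Agent.RG1

open Pool.Agent.Helper54.LA Pool.Agent.Helper54.EV Pool.Agent.Helper29.BA Pool.Agent.Helper13.LT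
  Pool.Agent.Helper9.EV Pool.Agent.Helper9.TD Pool.Agent.Helper83.EV Pool.Agent.AIR
open Pool.Agent.Helper26.LT (gen)

section abstract

variable {G : Type} [Group G] {B : Subgroup G}

/-- The relative girth is symmetric. -/
theorem rg_swap {P Q : Subgroup G} {m : ℕ} (h : RG B P Q m) : RG B Q P m :=
  fun n g hn h1 hg => h n g hn h1.symm hg

/-- Add a factor at the end. -/
theorem alt_snoc (n : ℕ) : ∀ {P Q : Subgroup G} {g y : G}, Alt B P Q n g →
    y ∉ B → (Even n → y ∈ P) → (¬ Even n → y ∈ Q) → Alt B P Q (n + 1) (g * y) := by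
  induction n with
  | zero =>
    intro P Q g y h hy h1 _
    cases h
    have := Alt.cons (Q := Q) (h1 Even.zero) hy (Alt.nil Q P)
    rwa [mul_one, ← one_mul y] at this
  | succ n ih =>
    intro P Q g y h hy h1 h2
    cases h with
    | @cons _ _ _ x h' hx hx0 h =>
      rw [mul_assoc]
      exact Alt.cons hx hx0 (ih h hy (fun h3 => h2 fun h4 => (Nat.even_add_one.1 h4) h3)
        fun h3 => h1 (Nat.even_add_one.2 h3))

/-- Take the factor at the end. -/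
theorem alt_last (n : ℕ) : ∀ {P Q : Subgroup G} {g : G}, Alt B P Q (n + 1) g →
    ∃ g' y, g = g' * y ∧ Alt B P Q n g' ∧ y ∉ B ∧ (Even n → y ∈ P) ∧ (¬ Even n → y ∈ Q) := by
  induction n with
  | zero =>
    intro P Q g h
    cases h with
    | @cons _ _ _ x h' hx hx0 h =>
      cases h
      exact ⟨1, x, by rw [one_mul, mul_one], Alt.nil P Q, hx0, fun _ => hx,
        fun h => absurd Even.zero h⟩
  | succ n ih =>
    intro P Q g h
    cases h with
    | @cons _ _ _ x h' hx hx0 h =>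
      obtain ⟨g', y, rfl, h3, h4, h5, h6⟩ := ih h
      exact ⟨x * g', y, by rw [mul_assoc], Alt.cons hx hx0 h3, h4,
        fun h7 => h6 fun h8 => (Nat.even_add_one.1 h7) h8,
        fun h7 => h5 (by rw [Nat.even_add_one] at h7; exact not_not.1 h7)⟩

/-- Even alternating words of length less than `2 m` are not in `B`. -/
def Ev (B P Q : Subgroup G) (m : ℕ) : Prop :=
  ∀ k g, 0 < k → k < m → Alt B P Q (2 * k) g → g ∉ B

theorem Ev.swap {P Q : Subgroup G} {m : ℕ} (hBQ : B ≤ Q) (h : Ev B P Q m) : Ev B Q P m := by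
  intro k g hk hkm h1 hg
  obtain ⟨k, rfl⟩ := Nat.exists_eq_succ_of_ne_zero hk.ne'
  have e : 2 * (k + 1) = 2 * k + 1 + 1 := by ring
  rw [Nat.succ_eq_add_one, e] at h1
  cases h1 with
  | @cons _ _ _ y h' hy hy0 h1 =>
    have h2 : Alt B P Q (2 * k + 1 + 1) (h' * ((y * h')⁻¹ * y)) := by
      refine alt_snoc _ h1 (fun h3 => hy0 ?_) (fun h3 => ?_) fun _ => ?_
      · have := mul_mem hg h3
        rwa [mul_inv_cancel_left] at this
      · exact absurd (even_two_mul k) (Nat.even_add_one.1 h3)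
      · exact mul_mem (hBQ (inv_mem hg)) hy
    refine h (k + 1) _ hk hkm (by rw [e]; exact h2) ?_
    have h3 : h' * ((y * h')⁻¹ * y) = 1 := by group
    rw [h3]
    exact one_mem _

/-- It suffices to consider even words. -/
theorem rg_of_ev {P Q : Subgroup G} {m : ℕ} (hBP : B ≤ P) (hBQ : B ≤ Q) (h : Ev B P Q m) :
    RG B P Q m := by
  have key : ∀ n, ∀ P Q : Subgroup G, B ≤ P → B ≤ Q → Ev B P Q m → ∀ g, 0 < n → Alt B P Q n g →
      g ∈ B → 2 * m ≤ n := by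
    intro n
    induction n using Nat.strong_induction_on with
    | _ n ih =>
      intro P Q hBP hBQ h g hn h1 hg
      by_contra hlt
      rw [not_le] at hlt
      rcases Nat.even_or_odd' n with ⟨k, rfl | rfl⟩
      · exact h k g (by omega) (by omega) h1 hg
      · cases h1 with
        | @cons _ _ _ x h' hx hx0 h1 =>
          rcases k with _ | k
          · cases h1
            rw [mul_one] at hg
            exact hx0 hg
          · have e : 2 * (k + 1) = 2 * k + 1 + 1 := by ring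
            have h1' := h1
            rw [e] at h1'
            obtain ⟨g', y, rfl, h3, h4, -, h6⟩ := alt_last _ h1'
            have hodd : ¬ Even (2 * k + 1) := by
              rw [Nat.even_add_one, not_not]
              exact even_two_mul k
            have h7 : g' * (y * (x * (g' * y))⁻¹ * x) = 1 := by group
            by_cases h8 : y * (x * (g' * y))⁻¹ * x ∈ B
            · have h9 : g' ∈ B := by
                rw [eq_inv_of_mul_eq_one_left h7]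
                exact inv_mem h8
              have := ih (2 * k + 1) (by omega) Q P hBQ hBP (h.swap hBQ) g' (by omega) h3 h9
              omega
            · have h9 : Alt B Q P (2 * k + 1 + 1) (g' * (y * (x * (g' * y))⁻¹ * x)) :=
                alt_snoc _ h3 h8 (fun h => absurd h hodd)
                  fun _ => mul_mem (mul_mem (h6 hodd) (hBP (inv_mem hg))) hx
              rw [h7] at h9
              exact (h.swap hBQ) (k + 1) 1 (by omega) (by omega) (by rw [e]; exact h9) (one_mem _)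
  intro n g hn h1 hg
  rcases h1 with h1 | h1
  · exact key n P Q hBP hBQ h g hn h1 hg
  · exact key n Q P hBQ hBP (h.swap hBQ) g hn h1 hg

/-- Words `x₁ j ^ b₁ ⋯ xₙ j ^ bₙ c` with `c ∈ B`. -/
inductive Wj (B P : Subgroup G) (j : G) : ℕ → G → Prop
  | nil (c : G) : c ∈ B → Wj B P j 0 c
  | cons {n : ℕ} {x h : G} {b : ℤ} : x ∈ P → x ∉ B → b ≠ 0 → Wj B P j n h →
      Wj B P j (n + 1) (x * j ^ b * h)

theorem Wj.mul_left {P : Subgroup G} {j : G} (hBP : B ≤ P) {n : ℕ} {g c : G}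
    (h : Wj B P j n g) (hc : c ∈ B) : Wj B P j n (c * g) := by
  cases h with
  | nil c' hc' => exact Wj.nil _ (mul_mem hc hc')
  | @cons n x h b hx hx0 hb h =>
    rw [← mul_assoc, ← mul_assoc]
    refine Wj.cons (mul_mem (hBP hc) hx) (fun h1 => hx0 ?_) hb h
    exact (Subgroup.mul_mem_cancel_left B hc).1 h1

theorem wj_of_alt {P Q : Subgroup G} {j : G} (hBP : B ≤ P)
    (hQ : ∀ y ∈ Q, ∃ c ∈ B, ∃ b : ℤ, y = j ^ b * c) (k : ℕ) :
    ∀ {g : G}, Alt B P Q (2 * k) g → Wj B P j k g := by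
  induction k with
  | zero =>
    intro g h
    cases h
    exact Wj.nil _ (one_mem _)
  | succ k ih =>
    intro g h
    have e : 2 * (k + 1) = 2 * k + 1 + 1 := by ring
    rw [e] at h
    cases h with
    | @cons _ _ _ x h' hx hx0 h =>
      cases h with
      | @cons _ _ _ y h' hy hy0 h =>
        obtain ⟨c, hc, b, rfl⟩ := hQ y hy
        have h1 := (ih h).mul_left hBP hc
        rw [mul_assoc, ← mul_assoc x]
        refine Wj.cons hx hx0 (fun hb => hy0 ?_) h1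
        rw [hb, zpow_zero, one_mul]
        exact hc

/-- The reduction to closed words. -/
theorem rg_of_words {P Q : Subgroup G} {j : G} {m : ℕ} (hm : m ≤ 5) (hBP : B ≤ P) (hBQ : B ≤ Q)
    (hjQ : j ∈ Q) (hQ : ∀ y ∈ Q, ∃ c ∈ B, ∃ b : ℤ, y = j ^ b * c) (hPQ : P ⊓ Q ≤ B)
    (hj : ∀ b : ℤ, b ≠ 0 → j ^ b ∉ B)
    (w2 : 3 ≤ m → ∀ x₁ x₂ : G, x₁ ∈ P → x₁ ∉ B → x₂ ∈ P → x₂ ∉ B → ∀ b₁ b₂ : ℤ, b₁ ≠ 0 →
      b₂ ≠ 0 → x₁ * j ^ b₁ * x₂ * j ^ b₂ ≠ 1)
    (w3 : 4 ≤ m → ∀ x₁ x₂ x₃ : G, x₁ ∈ P → x₁ ∉ B → x₂ ∈ P → x₂ ∉ B → x₃ ∈ P → x₃ ∉ B →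
      ∀ b₁ b₂ b₃ : ℤ, b₁ ≠ 0 → b₂ ≠ 0 → b₃ ≠ 0 →
        x₁ * j ^ b₁ * x₂ * j ^ b₂ * x₃ * j ^ b₃ ≠ 1)
    (w4 : 5 ≤ m → ∀ x₁ x₂ x₃ x₄ : G, x₁ ∈ P → x₁ ∉ B → x₂ ∈ P → x₂ ∉ B → x₃ ∈ P → x₃ ∉ B →
      x₄ ∈ P → x₄ ∉ B → ∀ b₁ b₂ b₃ b₄ : ℤ, b₁ ≠ 0 → b₂ ≠ 0 → b₃ ≠ 0 → b₄ ≠ 0 →
        x₁ * j ^ b₁ * x₂ * j ^ b₂ * x₃ * j ^ b₃ * x₄ * j ^ b₄ ≠ 1) :
    RG B P Q m := by
  have hcx : ∀ c x : G, c ∈ B → x ∉ B → c * x ∉ B := fun c x hc hx h =>
    hx ((Subgroup.mul_mem_cancel_left B hc).1 h)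
  refine rg_of_ev hBP hBQ fun k g hk hkm h hg => ?_
  have h1 : Wj B P j k 1 := by
    have h1 := (wj_of_alt hBP hQ k h).mul_left hBP (inv_mem hg)
    rwa [inv_mul_cancel] at h1
  clear h hg
  generalize hg : (1 : G) = g' at h1
  cases h1 with
  | nil => omega
  | @cons _ x₁ h b₁ hx1 hx1' hb1 h1 =>
    cases h1 with
    | nil _ hc =>
      have h2 : j ^ b₁ = x₁⁻¹ * h⁻¹ := by
        rw [eq_inv_mul_iff_mul_eq, eq_inv_iff_mul_eq_one]
        exact hg.symm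
      have h3 : j ^ b₁ ∈ P := by
        rw [h2]
        exact mul_mem (inv_mem hx1) (inv_mem (hBP hc))
      exact hj b₁ hb1 (hPQ ⟨h3, zpow_mem hjQ b₁⟩)
    | @cons _ x₂ h b₂ hx2 hx2' hb2 h1 =>
      cases h1 with
      | nil _ hc =>
        refine w2 (by omega) (h * x₁) x₂ (mul_mem (hBP hc) hx1) (hcx _ _ hc hx1') hx2 hx2' b₁ b₂
          hb1 hb2 ?_
        have h2 : h * x₁ * j ^ b₁ * x₂ * j ^ b₂ =
          h * (x₁ * j ^ b₁ * (x₂ * j ^ b₂ * h)) * h⁻¹ := by group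
        rw [h2, ← hg, mul_one, mul_inv_cancel]
      | @cons _ x₃ h b₃ hx3 hx3' hb3 h1 =>
        cases h1 with
        | nil _ hc =>
          refine w3 (by omega) (h * x₁) x₂ x₃ (mul_mem (hBP hc) hx1) (hcx _ _ hc hx1') hx2 hx2'
            hx3 hx3' b₁ b₂ b₃ hb1 hb2 hb3 ?_
          have h2 : h * x₁ * j ^ b₁ * x₂ * j ^ b₂ * x₃ * j ^ b₃ =
            h * (x₁ * j ^ b₁ * (x₂ * j ^ b₂ * (x₃ * j ^ b₃ * h))) * h⁻¹ := by group
          rw [h2, ← hg, mul_one, mul_inv_cancel]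
        | @cons _ x₄ h b₄ hx4 hx4' hb4 h1 =>
          cases h1 with
          | nil _ hc =>
            refine w4 (by omega) (h * x₁) x₂ x₃ x₄ (mul_mem (hBP hc) hx1) (hcx _ _ hc hx1')
              hx2 hx2' hx3 hx3' hx4 hx4' b₁ b₂ b₃ b₄ hb1 hb2 hb3 hb4 ?_
            have h2 : h * x₁ * j ^ b₁ * x₂ * j ^ b₂ * x₃ * j ^ b₃ * x₄ * j ^ b₄ =
              h * (x₁ * j ^ b₁ * (x₂ * j ^ b₂ * (x₃ * j ^ b₃ * (x₄ * j ^ b₄ * h)))) * h⁻¹ := by
              group
            rw [h2, ← hg, mul_one, mul_inv_cancel]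
          | cons => omega

end abstract

section artin

variable {S : Type} (M : CoxeterMatrix S)

/-- Intersections of parabolic subgroups. -/
theorem par_inf (U V : Set S) : Par M U ⊓ Par M V ≤ Par M (U ∩ V) := by
  rw [← range_toAll, ← range_toAll, ← range_toAll]
  exact range_inter U V

/-- The exponent sum. -/
noncomputable def esum : ArtinGroup M →* Multiplicative ℤ :=
  artinLift M (fun _ => Multiplicative.ofAdd 1) fun _ _ _ => rfl

theorem esum_gen (s : S) : esum M (gen M s) = Multiplicative.ofAdd 1 := artinLift_of _ _ _ _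

theorem gen_zpow_ne_one (s : S) {b : ℤ} (hb : b ≠ 0) : gen M s ^ b ≠ 1 := by
  intro h
  have h1 := congrArg (esum M) h
  rw [map_zpow, esum_gen, map_one (esum M), ← ofAdd_zsmul, smul_eq_mul, mul_one] at h1
  exact hb (Multiplicative.ofAdd.injective h1)

theorem gen_zpow_notMem {s t : S} (hst : s ≠ t) {b : ℤ} (hb : b ≠ 0) :
    gen M s ^ b ∉ Par M {t} := by
  intro h
  have h1 := par_inf M {s} {t} ⟨zpow_mem (gen_mem M (Set.mem_singleton s)) b, h⟩
  have h2 : ({s} ∩ {t} : Set S) = ∅ := Set.singleton_inter_eq_empty.2 hst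
  rw [h2, Par, Set.image_empty, Subgroup.closure_empty, Subgroup.mem_bot] at h1
  exact gen_zpow_ne_one M s hb h1

variable {M}

/-- Label two. -/
theorem rg_label_two {i j t : S} (hij : i ≠ j) (h : M i j = 2) :
    RG (Par M {t}) (Par M {i, t}) (Par M {j, t}) (M i j) := by
  rw [h]
  refine Pool.Agent.Helper83.EV.rg_two ((par_inf M _ _).trans (par_mono M ?_)) (par_mono M ?_)
    (par_mono M ?_)
  · rintro x ⟨rfl | rfl, h2 | h2⟩
    · exact absurd h2 hij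
    · exact h2
    · exact rfl
    · exact rfl
  · rintro x rfl
    exact Or.inr rfl
  · rintro x rfl
    exact Or.inr rfl

/-- **The reduction to closed words.** -/
theorem rg_red {i j t : S} (hij : i ≠ j) (hjt : j ≠ t) (h2 : M j t = 2) (hm : M i j ≤ 5)
    (w2 : 3 ≤ M i j → ∀ x₁ x₂ : ArtinGroup M, x₁ ∈ Par M {i, t} → x₁ ∉ Par M {t} →
      x₂ ∈ Par M {i, t} → x₂ ∉ Par M {t} → ∀ b₁ b₂ : ℤ, b₁ ≠ 0 → b₂ ≠ 0 →
        x₁ * gen M j ^ b₁ * x₂ * gen M j ^ b₂ ≠ 1)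
    (w3 : 4 ≤ M i j → ∀ x₁ x₂ x₃ : ArtinGroup M, x₁ ∈ Par M {i, t} → x₁ ∉ Par M {t} →
      x₂ ∈ Par M {i, t} → x₂ ∉ Par M {t} → x₃ ∈ Par M {i, t} → x₃ ∉ Par M {t} →
      ∀ b₁ b₂ b₃ : ℤ, b₁ ≠ 0 → b₂ ≠ 0 → b₃ ≠ 0 →
        x₁ * gen M j ^ b₁ * x₂ * gen M j ^ b₂ * x₃ * gen M j ^ b₃ ≠ 1)
    (w4 : 5 ≤ M i j → ∀ x₁ x₂ x₃ x₄ : ArtinGroup M, x₁ ∈ Par M {i, t} → x₁ ∉ Par M {t} →
      x₂ ∈ Par M {i, t} → x₂ ∉ Par M {t} → x₃ ∈ Par M {i, t} → x₃ ∉ Par M {t} →
      x₄ ∈ Par M {i, t} → x₄ ∉ Par M {t} →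
      ∀ b₁ b₂ b₃ b₄ : ℤ, b₁ ≠ 0 → b₂ ≠ 0 → b₃ ≠ 0 → b₄ ≠ 0 →
        x₁ * gen M j ^ b₁ * x₂ * gen M j ^ b₂ * x₃ * gen M j ^ b₃ * x₄ * gen M j ^ b₄ ≠ 1) :
    RG (Par M {t}) (Par M {i, t}) (Par M {j, t}) (M i j) := by
  refine rg_of_words (j := gen M j) hm (par_mono M ?_) (par_mono M ?_)
    (gen_mem M (Or.inl rfl)) ?_ ((par_inf M _ _).trans (par_mono M ?_))
    (fun b hb => gen_zpow_notMem M hjt hb) w2 w3 w4
  · rintro x rfl
    exact Or.inr rfl
  · rintro x rfl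
    exact Or.inr rfl
  · intro y hy
    have h3 : Par M {j, t} = Par M {t} ⊔ Subgroup.zpowers (gen M j) := PP_insert {t} j
    rw [h3] at hy
    have hc : ∀ x ∈ Par M {t}, Commute x (gen M j) := fun x hx =>
      commute_PP (T := {t}) (s := j) (by
        rintro u rfl
        rw [M.symmetric]
        exact h2) hx
    obtain ⟨c, hc0, b, rfl⟩ := Pool.Agent.Helper83.EV.exists_zpow hc hy
    exact ⟨c, hc0, b, ((hc c hc0).zpow_right b).eq⟩
  · rintro x ⟨rfl | rfl, h2 | h2⟩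
    · exact absurd h2 hij
    · exact h2
    · exact rfl
    · exact rfl

end artin

end Pool.Agent.RG1
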