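import Pool.Agent.AIR.Main

/-!
# The relative girth for sparse Coxeter matrices
-/

set_option autoImplicit false

namespace Pool.Agent.RG1

open Pool.Agent.Helper54.LA Pool.Agent.Helper54.EV Pool.Agent.Helper29.BA Pool.Agent.Helper13.LT
  Pool.Agent.Helper9.EV Pool.Agent.Helper9.TD Pool.Agent.Helper83.EV
  Pool.Agent.AIR

open Pool.Agent.Helper26.LT (gen)

/-- **Sparse** sets of generators: no irreducible subset of four elements contains two spherical
triples whose common pair does not commute. -/
def Sparse {S : Type} (M : CoxeterMatrix S) (T : Set S) : Prop :=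
  ∀ i ∈ T, ∀ j ∈ T, ∀ t ∈ T, ∀ u ∈ T, i ≠ j → i ≠ t → i ≠ u → j ≠ t → j ≠ u → t ≠ u →
    Irr M {i, j, t, u} → M i j ≠ 2 → Sp3 M i j t → ¬ Sp3 M i j u

/-- The relative girth over one generator, for three generators. -/
def RgOne : Prop :=
  ∀ {S : Type} (M : CoxeterMatrix S) {i j t : S}, i ≠ j → i ≠ t → j ≠ t →
    (∀ x, x = i ∨ x = j ∨ x = t) → Sp3 M i j t →
      RG (Par M {t}) (Par M {i, t}) (Par M {j, t}) (M i j)

/-! ### Pulling back the relative girth -/

section

variable {G H : Type} [Group G] [Group H] {f : G →* H}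

theorem alt_comap {B P Q : Subgroup G} {B' P' Q' : Subgroup H}
    (hP : ∀ x ∈ P, f x ∈ P') (hQ : ∀ x ∈ Q, f x ∈ Q') (hPB : ∀ x ∈ P, f x ∈ B' → x ∈ B)
    (hQB : ∀ x ∈ Q, f x ∈ B' → x ∈ B) {n : ℕ} {g : G} (h : Alt B P Q n g) :
    Alt B' P' Q' n (f g) := by
  have key : ∀ (X Y : Subgroup G) (n : ℕ) (g : G), Alt B X Y n g →
      ∀ X' Y' : Subgroup H, (∀ x ∈ X, f x ∈ X') → (∀ x ∈ Y, f x ∈ Y') →
        (∀ x ∈ X, f x ∈ B' → x ∈ B) → (∀ x ∈ Y, f x ∈ B' → x ∈ B) → Alt B' X' Y' n (f g) := by
    intro X Y n g h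
    induction h with
    | nil X Y =>
      intro X' Y' _ _ _ _
      rw [map_one]
      exact Alt.nil X' Y'
    | @cons X Y n g h hg hgB _ ih =>
      intro X' Y' h1 h2 h3 h4
      rw [map_mul]
      exact Alt.cons (h1 g hg) (fun hb => hgB (h3 g hg hb)) (ih Y' X' h2 h1 h4 h3)
  exact key P Q n g h P' Q' hP hQ hPB hQB

/-- Pulling back the relative girth. -/
theorem rg_comap {B P Q : Subgroup G} {B' P' Q' : Subgroup H} (hB : ∀ x ∈ B, f x ∈ B')
    (hP : ∀ x ∈ P, f x ∈ P') (hQ : ∀ x ∈ Q, f x ∈ Q') (hPB : ∀ x ∈ P, f x ∈ B' → x ∈ B)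
    (hQB : ∀ x ∈ Q, f x ∈ B' → x ∈ B) {m : ℕ} (h : RG B' P' Q' m) : RG B P Q m := by
  rintro n g h0 (h1 | h1) hg
  · exact h n (f g) h0 (Or.inl (alt_comap hP hQ hPB hQB h1)) (hB g hg)
  · exact h n (f g) h0 (Or.inr (alt_comap hQ hP hQB hPB h1)) (hB g hg)

end

section

variable {S : Type} {M : CoxeterMatrix S}

/-- Elements of commuting parabolic subgroups commute. -/
theorem commute_par {U V : Set S} (h : ∀ u ∈ U, ∀ v ∈ V, M u v = 2) {x y : ArtinGroup M}
    (hx : x ∈ Par M U) (hy : y ∈ Par M V) : Commute x y := by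
  have h1 : Par M U ≤ Subgroup.centralizer (gen M '' V) := by
    rw [Par, Subgroup.closure_le]
    rintro _ ⟨u, hu, rfl⟩
    rw [SetLike.mem_coe, Subgroup.mem_centralizer_iff]
    rintro _ ⟨v, hv, rfl⟩
    have h2 := artin_braid M u v (by rw [h u hu v hv]; exact two_ne_zero)
    rw [h u hu v hv] at h2
    simp only [alt, mul_one] at h2
    exact h2.symm
  have h2 : Par M V ≤ Subgroup.centralizer {x} := by
    rw [Par, Subgroup.closure_le]
    rintro _ ⟨v, hv, rfl⟩
    rw [SetLike.mem_coe, Subgroup.mem_centralizer_iff]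
    rintro _ rfl
    exact (Subgroup.mem_centralizer_iff.1 (h1 hx) _ ⟨v, hv, rfl⟩).symm
  exact Subgroup.mem_centralizer_iff.1 (h2 hy) x rfl

/-- The factors of an element of a product of commuting parabolic subgroups. -/
theorem exists_factor {K U : Set S} (hK : ∀ t ∈ K, ∀ v, v ∉ K → Even (M t v))
    (hKU : ∀ u ∈ U, u ∉ K) (hc : ∀ k ∈ K, ∀ u ∈ U, M k u = 2) {x : ArtinGroup M}
    (hx : x ∈ Par M (K ∪ U)) : kil' K hK x ∈ Par M U ∧ ∃ b ∈ Par M K, x = b * kil' K hK x := by
  induction hx using Subgroup.closure_induction with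
  | mem y hy =>
    obtain ⟨s, hs, rfl⟩ := hy
    rcases hs with hs | hs
    · have h1 : kil' K hK (gen M s) = 1 := kil'_of_mem hK hs
      rw [h1]
      exact ⟨one_mem _, gen M s, gen_mem M hs, (mul_one _).symm⟩
    · have h1 : kil' K hK (gen M s) = gen M s := kil'_of_notMem hK (hKU s hs)
      rw [h1]
      exact ⟨gen_mem M hs, 1, one_mem _, (one_mul _).symm⟩
  | one =>
    rw [map_one]
    exact ⟨one_mem _, 1, one_mem _, (mul_one _).symm⟩
  | mul x y _ _ hx hy =>
    obtain ⟨hx1, b, hb, hx2⟩ := hx
    obtain ⟨hy1, c, hc', hy2⟩ := hy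
    rw [map_mul]
    refine ⟨mul_mem hx1 hy1, b * c, mul_mem hb hc', ?_⟩
    have h1 : c * kil' K hK x = kil' K hK x * c := (commute_par hc hc' hx1).eq
    calc x * y = b * kil' K hK x * (c * kil' K hK y) := by rw [← hx2, ← hy2]
      _ = b * (kil' K hK x * c) * kil' K hK y := by group
      _ = b * c * (kil' K hK x * kil' K hK y) := by rw [← h1]; group
  | inv x _ hx =>
    obtain ⟨hx1, b, hb, hx2⟩ := hx
    rw [map_inv]
    refine ⟨inv_mem hx1, b⁻¹, inv_mem hb, ?_⟩
    have h1 : b⁻¹ * (kil' K hK x)⁻¹ = (kil' K hK x)⁻¹ * b⁻¹ :=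
      (commute_par hc (inv_mem hb) (inv_mem hx1)).eq
    rw [h1, ← mul_inv_rev, ← hx2]

/-- The relative girth in a product. -/
theorem rg_prod {K : Set S} {i j t : S} (hK : ∀ t ∈ K, ∀ v, v ∉ K → Even (M t v))
    (hi : i ∉ K) (hj : j ∉ K) (ht : t ∉ K) (hc : ∀ k ∈ K, M k i = 2 ∧ M k j = 2 ∧ M k t = 2)
    {m : ℕ} (h : RG (Par M {t}) (Par M {i, t}) (Par M {j, t}) m) :
    RG (Par M (insert t K)) (Par M (insert i (insert t K))) (Par M (insert j (insert t K))) m := by
  have e1 : insert t K = K ∪ {t} := by rw [Set.union_singleton]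
  have e2 : ∀ x, insert x (insert t K) = K ∪ {x, t} := by
    intro x
    ext y
    simp only [Set.mem_insert_iff, Set.mem_union, Set.mem_singleton_iff]
    tauto
  have hpair : ∀ x, x ∉ K → (∀ k ∈ K, M k x = 2) → ∀ y ∈ Par M (insert x (insert t K)),
      kil' K hK y ∈ Par M {x, t} ∧ ∃ b ∈ Par M K, y = b * kil' K hK y := by
    intro x hx hx2 y hy
    rw [e2] at hy
    refine exists_factor hK ?_ ?_ hy
    · rintro u (rfl | rfl)
      · exact hx
      · exact ht
    · rintro k hk u (rfl | rfl)
      · exact hx2 k hk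
      · exact (hc k hk).2.2
  have hback : ∀ x, x ∉ K → (∀ k ∈ K, M k x = 2) → ∀ y ∈ Par M (insert x (insert t K)),
      kil' K hK y ∈ Par M {t} → y ∈ Par M (insert t K) := by
    intro x hx hx2 y hy h1
    obtain ⟨-, b, hb, h2⟩ := hpair x hx hx2 y hy
    rw [h2]
    exact mul_mem (par_mono M (Set.subset_insert _ _) hb)
      (par_mono M (Set.singleton_subset_iff.2 (Set.mem_insert _ _)) h1)
  refine rg_comap (f := kil' K hK) ?_ (fun y hy => (hpair i hi (fun k hk => (hc k hk).1) y hy).1)
    (fun y hy => (hpair j hj (fun k hk => (hc k hk).2.1) y hy).1)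
    (hback i hi fun k hk => (hc k hk).1) (hback j hj fun k hk => (hc k hk).2.1) h
  intro y hy
  rw [e1] at hy
  exact (exists_factor hK (U := {t}) (by rintro u rfl; exact ht)
    (by rintro k hk u rfl; exact (hc k hk).2.2) hy).1

/-- The relative girth over one generator in any Artin group. -/
theorem rg_one' (rg1 : RgOne) {i j t : S} (hij : i ≠ j) (hit : i ≠ t) (hjt : j ≠ t)
    (h : Sp3 M i j t) : RG (Par M {t}) (Par M {i, t}) (Par M {j, t}) (M i j) := by
  set U : Set S := {i, j, t} with hU
  have hiU : i ∈ U := by simp [hU]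
  have hjU : j ∈ U := by simp [hU]
  have htU : t ∈ U := by simp [hU]
  have h1 := rg1 (Pool.Agent.Helper54.LA.res M U) (i := ⟨i, hiU⟩) (j := ⟨j, hjU⟩) (t := ⟨t, htU⟩)
    (fun e => hij (congrArg Subtype.val e)) (fun e => hit (congrArg Subtype.val e))
    (fun e => hjt (congrArg Subtype.val e))
    (by
      rintro ⟨x, hx⟩
      rcases hx with rfl | rfl | rfl
      · exact Or.inl rfl
      · exact Or.inr (Or.inl rfl)
      · exact Or.inr (Or.inr rfl)) h
  have h2 := rg_map (toAll_inj U) h1
  rw [map_toAll_par, map_toAll_par, map_toAll_par, Set.image_singleton, Set.image_pair,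
    Set.image_pair] at h2
  exact h2

/-- In a sparse matrix: if `t` does not commute with `i` and `j` then the other elements commute
with `i`, `j`, `t`. -/
theorem Sparse.comm (hM : Sparse M Set.univ) {i j t u : S} (hij : i ≠ j) (hit : i ≠ t) (hiu : i ≠ u)
    (hjt : j ≠ t) (hju : j ≠ u) (htu : t ≠ u) (h2 : M i j ≠ 2) (h3 : Sp3 M i j t)
    (h4 : Sp3 M i j u) (h5 : ¬ (M t i = 2 ∧ M t j = 2)) : M u i = 2 ∧ M u j = 2 ∧ M u t = 2 := by
  by_contra hne
  refine hM i trivial j trivial t trivial u trivial hij hit hiu hjt hju htu ?_ h2 h3 h4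
  intro U hU hn hn'
  by_contra hcon
  push Not at hcon
  -- `i` and `j` are in the same part
  have key : ∀ (U : Set S), (∀ s ∈ U, ∀ r ∈ ({i, j, t, u} : Set S) \ U, M s r = 2) → i ∈ U →
      (({i, j, t, u} : Set S) \ U).Nonempty → False := by
    intro U hc hiU hne'
    have hjU : j ∈ U := by
      by_contra hj
      exact h2 (hc i hiU j ⟨by simp, hj⟩)
    have htU : t ∈ U := by
      by_contra ht
      exact h5 ⟨(M.symmetric t i).trans (hc i hiU t ⟨by simp, ht⟩),
        (M.symmetric t j).trans (hc j hjU t ⟨by simp, ht⟩)⟩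
    obtain ⟨r, hr, hrU⟩ := hne'
    have hru : r = u := by
      rcases hr with rfl | rfl | rfl | hr
      · exact absurd hiU hrU
      · exact absurd hjU hrU
      · exact absurd htU hrU
      · exact hr
    rw [hru] at hr hrU
    exact hne ⟨(M.symmetric u i).trans (hc i hiU u ⟨hr, hrU⟩),
      (M.symmetric u j).trans (hc j hjU u ⟨hr, hrU⟩),
      (M.symmetric u t).trans (hc t htU u ⟨hr, hrU⟩)⟩
  by_cases hiU : i ∈ U
  · exact key U hcon hiU hn'
  · refine key (({i, j, t, u} : Set S) \ U) ?_ ⟨by simp, hiU⟩ ?_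
    · intro s hs r hr
      rw [Set.sdiff_sdiff_cancel_left hU] at hr
      rw [M.symmetric]
      exact hcon r hr s hs
    · rw [Set.sdiff_sdiff_cancel_left hU]
      exact hn

theorem irr_image {S : Type} {M : CoxeterMatrix S} {U : Set S} {T : Set U}
    (hirr : Irr (Pool.Agent.Helper54.LA.res M U) T) : Irr M (Subtype.val '' T) := by
  intro V hV hne hne'
  obtain ⟨V', rfl⟩ : ∃ V' : Set U, Subtype.val '' V' = V :=
    ⟨Subtype.val ⁻¹' V, by
      rw [Subtype.image_preimage_coe, Set.inter_eq_right]
      intro x hx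
      obtain ⟨y, -, rfl⟩ := hV hx
      exact y.2⟩
  have hV' : V' ⊆ T := (Set.image_subset_image_iff Subtype.val_injective).1 hV
  rw [← Set.image_sdiff Subtype.val_injective] at hne'
  obtain ⟨s, hs, r, hr, hsr⟩ := hirr V' hV' (Set.image_nonempty.1 hne) (Set.image_nonempty.1 hne')
  refine ⟨s.1, ⟨s, hs, rfl⟩, r.1, ?_, hsr⟩
  rw [← Set.image_sdiff Subtype.val_injective]
  exact ⟨r, hr, rfl⟩

theorem Sparse.mono {S : Type} {M : CoxeterMatrix S} {T U : Set S} (h : Sparse M U) (hT : T ⊆ U) :
    Sparse M T := fun i hi j hj t ht u hu => h i (hT hi) j (hT hj) t (hT ht) u (hT hu)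

theorem Sparse.res {S : Type} {M : CoxeterMatrix S} {U : Set S} {T : Set U}
    (h : Sparse M (Subtype.val '' T)) : Sparse (Pool.Agent.Helper54.LA.res M U) T := by
  intro i hi j hj t ht u hu hij hit hiu hjt hju htu hirr
  refine h i.1 ⟨i, hi, rfl⟩ j.1 ⟨j, hj, rfl⟩ t.1 ⟨t, ht, rfl⟩ u.1 ⟨u, hu, rfl⟩
    (fun e => hij (Subtype.ext e)) (fun e => hit (Subtype.ext e))
    (fun e => hiu (Subtype.ext e)) (fun e => hjt (Subtype.ext e)) (fun e => hju (Subtype.ext e))
    (fun e => htu (Subtype.ext e)) ?_
  have himg : ({i.1, j.1, t.1, u.1} : Set S) = Subtype.val '' ({i, j, t, u} : Set ↥U) := by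
    rw [Set.image_insert_eq, Set.image_insert_eq, Set.image_pair]
  rw [himg]
  exact irr_image hirr

/-- Three elements are sparse. -/
theorem sparse_three {S : Type} {M : CoxeterMatrix S} {a b c : S} : Sparse M {a, b, c} := by
  intro i hi j hj t ht u hu hij hit hiu hjt hju htu
  exfalso
  have h1 : ({i, j, t, u} : Set S) ⊆ {a, b, c} := by
    rintro x (rfl | rfl | rfl | rfl)
    · exact hi
    · exact hj
    · exact ht
    · exact hu
  have h2 := Set.ncard_le_ncard h1 (Set.toFinite _)
  have h3 : ({a, b, c} : Set S).ncard ≤ 3 := by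
    refine (Set.ncard_insert_le _ _).trans ?_
    have := Set.ncard_insert_le b ({c} : Set S)
    rw [Set.ncard_singleton] at this
    omega
  have h4 : ({i, j, t, u} : Set S).ncard = 4 := by
    rw [Set.ncard_insert_of_notMem, Set.ncard_eq_three.2 ⟨j, t, u, hjt, hju, htu, rfl⟩]
    simp only [Set.mem_insert_iff, Set.mem_singleton_iff, not_or]
    exact ⟨hij, hit, hiu⟩
  omega

end

/-- The relative girth of parabolic subgroups of sparse Artin groups without infinite labels. -/
theorem rg_sparse_aux (rg1 : RgOne) (n : ℕ) : ∀ {S : Type} [Finite S] {M : CoxeterMatrix S},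
    ∀ T : Set S, T.ncard = n → ∀ i j, Sparse M (insert i (insert j T)) → i ∉ T → j ∉ T → i ≠ j →
      M i j ≠ 0 → RG (Par M T) (Par M (insert i T)) (Par M (insert j T)) (M i j) := by
  induction n using Nat.strong_induction_on with
  | _ n ih =>
    -- the case without further generators
    have key : ∀ {S : Type} [Finite S] {M : CoxeterMatrix S}, Sparse M Set.univ →
        ∀ T : Set S, T.ncard = n → ∀ i j, i ∉ T → j ∉ T → i ≠ j → M i j ≠ 0 →
        (∀ e, e ∉ T → e = i ∨ e = j) →
        RG (Par M T) (Par M (insert i T)) (Par M (insert j T)) (M i j) := by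
      intro S _ M hM T hn i j hi hj hij h0 hEij
      by_cases hA : ∃ t ∈ T, ¬ Sp3 M i j t
      · obtain ⟨t, ht, hsp⟩ := hA
        set T1 := T \ {t} with hT1
        have hins : insert t T1 = T := Set.insert_sdiff_self_of_mem ht
        have hcard : T1.ncard < n := by
          rw [← hn, hT1]
          exact Set.ncard_sdiff_singleton_lt_of_mem ht (Set.toFinite T)
        have hit : i ≠ t := fun e => hi (e ▸ ht)
        have hjt : j ≠ t := fun e => hj (e ▸ ht)
        have hrs : RS (Pool.Agent.Helper54.LA.res M T1ᶜ) (Par M T1)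
            (fun x : ↥T1ᶜ => Par M (insert x.1 T1)) :=
          rs_par T1 fun s u hs hu hsu hsu0 =>
            ih _ hcard T1 rfl s u (hM.mono (Set.subset_univ _)) hs hu hsu hsu0
        have hout : ∀ e, e ∉ T1 → e = i ∨ e = j ∨ e = t := by
          intro e he
          by_cases het : e = t
          · exact Or.inr (Or.inr het)
          · rcases hEij e (fun h => he ⟨h, het⟩) with h | h
            · exact Or.inl h
            · exact Or.inr (Or.inl h)
        have h2 : TwoDim (Pool.Agent.Helper54.LA.res M T1ᶜ) := by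
          rintro ⟨s, hs⟩ ⟨t', ht'⟩ ⟨u, hu⟩ hst htu hsu h1 h2 h3
          rw [res_apply] at h1 h2 h3
          by_contra hlt
          rw [not_le] at hlt
          exact hsp (three_of_subset (A := T1ᶜ) (fun a ha => hout a ha) hs ht' hu
            (fun e => hst (Subtype.ext e)) (fun e => htu (Subtype.ext e))
            (fun e => hsu (Subtype.ext e))
            (P := Sp3 M) ⟨h1, h2, h3, hlt⟩ (fun _ _ _ => sp3_swap) (fun _ _ _ => sp3_rot))
        have hi1 : i ∈ T1ᶜ := fun h => hi h.1
        have hj1 : j ∈ T1ᶜ := fun h => hj h.1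
        have ht1 : t ∈ T1ᶜ := fun h => h.2 rfl
        have := rg_step hrs h2 (Pool.Agent.Helper63.EV.ascInf _) (i := ⟨i, hi1⟩) (j := ⟨j, hj1⟩)
          (t := ⟨t, ht1⟩) (fun e => hij (congrArg Subtype.val e))
          (fun e => hit (congrArg Subtype.val e)) (fun e => hjt (congrArg Subtype.val e)) h0
        change RG (Par M (insert t T1)) (Par M (insert t T1) ⊔ Par M (insert i T1))
          (Par M (insert t T1) ⊔ Par M (insert j T1)) (M i j) at this
        rwa [par_sup_insert, par_sup_insert, hins] at this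
      · push Not at hA
        by_cases h2 : M i j = 2
        · rw [h2]
          refine rg_two ((par_inter _ _).trans (par_mono M ?_)) (par_mono M (Set.subset_insert _ _))
            (par_mono M (Set.subset_insert _ _))
          rintro s ⟨h3, h4⟩
          rcases h3 with rfl | h3
          · rcases h4 with h4 | h4
            · exact absurd h4 hij
            · exact h4
          · exact h3
        · by_cases hcomm : ∀ t ∈ T, M t i = 2 ∧ M t j = 2
          · have hev : ∀ t ∈ T, ∀ v, v ∉ T → Even (M t v) := by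
              intro t ht v hv
              rcases hEij v hv with rfl | rfl
              · rw [(hcomm t ht).1]
                exact even_two
              · rw [(hcomm t ht).2]
                exact even_two
            exact rg_commute' hev hij h0 hi hj (fun t ht => (hcomm t ht).1)
              (fun t ht => (hcomm t ht).2)
          · push Not at hcomm
            obtain ⟨t, ht, hncomm⟩ := hcomm
            have hit : i ≠ t := fun e => hi (e ▸ ht)
            have hjt : j ≠ t := fun e => hj (e ▸ ht)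
            have hins : insert t (T \ {t}) = T := Set.insert_sdiff_self_of_mem ht
            have hc : ∀ k ∈ T \ {t}, M k i = 2 ∧ M k j = 2 ∧ M k t = 2 := by
              rintro k ⟨hk, hkt⟩
              exact hM.comm hij hit (fun e => hi (e ▸ hk)) hjt (fun e => hj (e ▸ hk))
                (fun e => hkt e.symm) h2 (hA t ht) (hA k hk) (fun h => hncomm h.1 h.2)
            have hev : ∀ k ∈ T \ {t}, ∀ v, v ∉ T \ {t} → Even (M k v) := by
              intro k hk v hv
              by_cases hvT : v ∈ T
              · have hvt : v = t := by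
                  by_contra hne
                  exact hv ⟨hvT, hne⟩
                rw [hvt, (hc k hk).2.2]
                exact even_two
              · rcases hEij v hvT with rfl | rfl
                · rw [(hc k hk).1]
                  exact even_two
                · rw [(hc k hk).2.1]
                  exact even_two
            have := rg_prod hev (i := i) (j := j) (t := t) (fun h => hi h.1) (fun h => hj h.1)
              (fun h => h.2 rfl) hc (rg_one' rg1 hij hit hjt (hA t ht))
            rwa [hins] at this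
    -- the other generators
    intro S _ M T hn i j hM hi hj hij h0
    set U : Set S := insert i (insert j T) with hU
    have hiU : i ∈ U := Set.mem_insert _ _
    have hjU : j ∈ U := Set.mem_insert_of_mem _ (Set.mem_insert _ _)
    have hTU : T ⊆ U := fun t ht => Set.mem_insert_of_mem _ (Set.mem_insert_of_mem _ ht)
    have hT' : Subtype.val '' (Subtype.val ⁻¹' T : Set ↥U) = T := by
      rw [Subtype.image_preimage_coe, Set.inter_eq_right]
      exact hTU
    have hins : ∀ x (hx : x ∈ U), Subtype.val '' (insert ⟨x, hx⟩ (Subtype.val ⁻¹' T) : Set ↥U) =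
        insert x T := by
      intro x hx
      rw [Set.image_insert_eq, hT']
    have h1 := key (Sparse.res (M := M) (U := U) (T := Set.univ) (by
        rw [Set.image_univ, Subtype.range_val]
        exact hM)) (Subtype.val ⁻¹' T)
      (by
        rw [← hn, ← Set.ncard_image_of_injective _ Subtype.val_injective, hT'])
      ⟨i, hiU⟩ ⟨j, hjU⟩ hi hj (fun e => hij (congrArg Subtype.val e)) h0
      (by
        rintro ⟨e, he⟩ heT
        rcases he with rfl | rfl | he
        · exact Or.inl rfl
        · exact Or.inr rfl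
        · exact absurd he heT)
    have h2 := rg_map (toAll_inj U) h1
    rw [map_toAll_par, map_toAll_par, map_toAll_par, hins, hins, hT'] at h2
    exact h2

/-- The relative girth of parabolic subgroups of sparse Artin groups. -/
theorem rg_sparse (rg1 : RgOne) {S : Type} [Finite S] {M : CoxeterMatrix S} {T : Set S} {i j : S}
    (hM : Sparse M (insert i (insert j T))) (hij : i ≠ j) (h0 : M i j ≠ 0) (hi : i ∉ T) (hj : j ∉ T) :
    RG (Par M T) (Par M (insert i T)) (Par M (insert j T)) (M i j) :=
  rg_sparse_aux rg1 T.ncard T rfl i j hM hi hj hij h0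

end Pool.Agent.RG1
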