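import Pool.Agent.RG1.Four
import Pool.Agent.RG1.Pos5
import Pool.Agent.RG1.Red
import Pool.Agent.RG1.Sparse

/-!
# The relative girth over one generator
-/

set_option autoImplicit false

namespace Pool.Agent.RG1

open Pool.Agent.Helper54.LA Pool.Agent.Helper54.EV Pool.Agent.Helper29.BA Pool.Agent.Helper13.LT
  Pool.Agent.Helper26.LT Pool.Agent.Helper9.EV Pool.Agent.Helper9.TD Pool.Agent.Helper83.EV Pool.Agent.AIR

/-! ### The two conjugate parameters for the label 5 -/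

/-- The larger parameter. -/
noncomputable def lp : ℝ := (3 + √5) / 2

/-- The smaller parameter. -/
noncomputable def lm : ℝ := (3 - √5) / 2

theorem lp_sq : lp ^ 2 = 3 * lp - 1 := by
  have h := Real.sq_sqrt (show (0 : ℝ) ≤ 5 by norm_num)
  rw [lp]
  linear_combination (1 / 4 : ℝ) * h

theorem lm_sq : lm ^ 2 = 3 * lm - 1 := by
  have h := Real.sq_sqrt (show (0 : ℝ) ≤ 5 by norm_num)
  rw [lm]
  linear_combination (1 / 4 : ℝ) * h

theorem two_lt_lp : 2 < lp := by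
  have h : (1 : ℝ) < √5 := by
    rw [Real.lt_sqrt (by norm_num)]
    norm_num
  rw [lp]
  linarith

theorem lm_pos : 0 < lm := by
  have h : √5 < (3 : ℝ) := by
    rw [Real.sqrt_lt' (by norm_num)]
    norm_num
  rw [lm]
  linarith

theorem lp_ne_lm : lp ≠ lm := by
  have h : (0 : ℝ) < √5 := Real.sqrt_pos.2 (by norm_num)
  rw [lp, lm]
  intro h2
  linarith

/-! ### The closed words of length two and three -/

section words

variable {A : Type} [Group A] {t i j : A}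

theorem words_two {μ : ℝ} (hbr : t * i * t = i * t * i) (hμ : 0 < μ)
    (H : ∀ (s : ℝ) (hs : s ≠ 0), ∃ ρ : A →* G3, ρ t = mT hs ∧ ρ i = mI hs 1 ∧ ρ j = mJ hs μ)
    {x1 x2 : A} (h1 : x1 ∈ Subgroup.closure {t, i}) (h2 : x2 ∈ Subgroup.closure {t, i})
    (n2 : x2 ∉ Subgroup.zpowers t) {b1 b2 : ℤ} (c1 : b1 ≠ 0) : x1 * j ^ b1 * x2 * j ^ b2 ≠ 1 := by
  intro h
  obtain ⟨ρ, ht, hi, hj⟩ := H 2 (by norm_num)
  obtain ⟨σ, ht', hi', hj'⟩ := H (1 / 2) (by norm_num)
  have h' : x1 * j ^ b1 * x2 * j ^ b2 = t ^ (0 : ℤ) := by rw [h, zpow_zero]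
  exact n2 (mem3 hbr ht hi ht' hi' h2
    (eq_two' (by norm_num) (by norm_num) one_pos hμ ht hi hj h1 h2 c1 h' _)
    (eq_two' (by norm_num) (by norm_num) one_pos hμ ht' hi' hj' h1 h2 c1 h' _))

theorem words_two4 {μ : ℝ} (hbr : t * i * t * i = i * t * i * t) (hμ : 0 < μ)
    (H : ∀ (s : ℝ) (hs : s ≠ 0), ∃ ρ : A →* G3, ρ t = mT hs ∧ ρ i = mI hs 2 ∧ ρ j = mJ hs μ)
    {x1 x2 : A} (h1 : x1 ∈ Subgroup.closure {t, i}) (h2 : x2 ∈ Subgroup.closure {t, i})
    (n2 : x2 ∉ Subgroup.zpowers t) {b1 b2 : ℤ} (c1 : b1 ≠ 0) : x1 * j ^ b1 * x2 * j ^ b2 ≠ 1 := by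
  intro h
  obtain ⟨ρ, ht, hi, hj⟩ := H 1 (by norm_num)
  obtain ⟨σ, ht', hi', hj'⟩ := H 2 (by norm_num)
  have h' : x1 * j ^ b1 * x2 * j ^ b2 = t ^ (0 : ℤ) := by rw [h, zpow_zero]
  refine n2 (mem4 hbr ht hi ht' hi' h2 ?_
    (eq_two' (by norm_num) (by norm_num) (by norm_num) hμ ht' hi' hj' h1 h2 c1 h' _))
  have e1 := eq_two ht hi hj h1 h2 h' (1, 0, 0)
  have e2 : be 1 b1 * (μ * (ρ x2 (1, 0, 0)).2.1) = 0 := by
    simp only [fJ] at e1
    linarith
  rcases mul_eq_zero.1 e2 with e3 | e3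
  · exact absurd e3 (be_ne_zero (by norm_num) c1)
  · exact (mul_eq_zero.1 e3).resolve_left hμ.ne'

theorem words_two5 {ν μ : ℝ} (hbr : t * i * t * i * t = i * t * i * t * i) (hν : ν ^ 2 = 3 * ν - 1)
    (hν2 : 2 < ν) (hμ : 0 < μ)
    (H : ∀ (s : ℝ) (hs : s ≠ 0), ∃ ρ : A →* G3, ρ t = mT hs ∧ ρ i = mI hs ν ∧ ρ j = mJ hs μ)
    {x1 x2 : A} (h1 : x1 ∈ Subgroup.closure {t, i}) (h2 : x2 ∈ Subgroup.closure {t, i})
    (n2 : x2 ∉ Subgroup.zpowers t) {b1 b2 : ℤ} (c1 : b1 ≠ 0) : x1 * j ^ b1 * x2 * j ^ b2 ≠ 1 := by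
  intro h
  obtain ⟨ρ, ht, hi, hj⟩ := H 1 (by norm_num)
  obtain ⟨σ, ht', hi', hj'⟩ := H 2 (by norm_num)
  have h' : x1 * j ^ b1 * x2 * j ^ b2 = t ^ (0 : ℤ) := by rw [h, zpow_zero]
  refine n2 (mem5 hbr hν hν2 ht hi ht' hi' h2 ?_
    (eq_two' (by norm_num) (by norm_num) (by linarith) hμ ht' hi' hj' h1 h2 c1 h' _))
  have e1 := eq_two ht hi hj h1 h2 h' (1, 0, 0)
  have e2 : be 1 b1 * (μ * (ρ x2 (1, 0, 0)).2.1) = 0 := by
    simp only [fJ] at e1
    linarith
  rcases mul_eq_zero.1 e2 with e3 | e3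
  · exact absurd e3 (be_ne_zero (by norm_num) c1)
  · exact (mul_eq_zero.1 e3).resolve_left hμ.ne'

/-- Label 4: the sum of the exponents of `j` is a homomorphism. -/
theorem words_three4 {μ : ℝ} (hbr : t * i * t = i * t * i) (hμ : 0 < μ)
    (H : ∀ (s : ℝ) (hs : s ≠ 0), ∃ ρ : A →* G3, ρ t = mT hs ∧ ρ i = mI hs 1 ∧ ρ j = mJ hs μ)
    {ε : A →* Multiplicative ℤ} (et : ε t = 1) (ei : ε i = 1) (ej : ε j = Multiplicative.ofAdd 1)
    {x1 x2 x3 : A} (h1 : x1 ∈ Subgroup.closure {t, i}) (h2 : x2 ∈ Subgroup.closure {t, i})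
    (h3 : x3 ∈ Subgroup.closure {t, i}) (n2 : x2 ∉ Subgroup.zpowers t) {b1 b2 b3 : ℤ} (c1 : b1 ≠ 0)
    (c2 : b2 ≠ 0) : x1 * j ^ b1 * x2 * j ^ b2 * x3 * j ^ b3 ≠ 1 := by
  intro h
  have k1 : ∀ {x : A}, x ∈ Subgroup.closure {t, i} → ε x = 1 := by
    intro x hx
    have h1 : Subgroup.closure {t, i} ≤ ε.ker := by
      rw [Subgroup.closure_le]
      rintro _ (rfl | rfl)
      · exact et
      · exact ei
    exact h1 hx
  have hb : b1 + b2 = -b3 := by
    have h4 := congrArg ε h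
    rw [map_mul, map_mul, map_mul, map_mul, map_mul, k1 h1, k1 h2, k1 h3, map_zpow, map_zpow, map_zpow, ej,
      map_one ε, one_mul, mul_one, mul_one, ← ofAdd_zsmul, ← ofAdd_zsmul, ← ofAdd_zsmul, ← ofAdd_add,
      ← ofAdd_add, ofAdd_eq_one] at h4
    simp only [smul_eq_mul, mul_one] at h4
    linarith
  have h' : x1 * j ^ b1 * x2 * j ^ b2 * x3 * j ^ b3 = t ^ (0 : ℤ) := by rw [h, zpow_zero]
  have key : ∀ (s : ℝ) (hs : s ≠ 0), 0 < s → s ≠ 1 → ∀ ρ : A →* G3, ρ t = mT hs → ρ i = mI hs 1 →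
      ρ j = mJ hs μ → (ρ x2 (0, 0, 1)).2.1 = 0 := by
    intro s hs hs0 hs1 ρ ht hi hj
    have e1 := eq_three hs0 hs1 one_pos hμ ht hi hj h1 h2 h3 h'
    rw [hb, sub_self] at e1
    have e2 : μ * (s * be s b1 * be s b2 * (ρ x2 (0, 0, 1)).2.1) = 0 := by linarith
    have e3 := (mul_eq_zero.1 e2).resolve_left hμ.ne'
    exact (mul_eq_zero.1 e3).resolve_left (mul_ne_zero (mul_ne_zero hs (be_ne_zero hs0 c1)) (be_ne_zero hs0 c2))
  obtain ⟨ρ, ht, hi, hj⟩ := H 2 (by norm_num)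
  obtain ⟨σ, ht', hi', hj'⟩ := H (1 / 2) (by norm_num)
  exact n2 (mem3 hbr ht hi ht' hi' h2 (key 2 _ (by norm_num) (by norm_num) ρ ht hi hj)
    (key (1 / 2) _ (by norm_num) (by norm_num) σ ht' hi' hj'))

/-- Label 5: the two conjugate parameters. -/
theorem words_three5 {μ μ' : ℝ} (hbr : t * i * t = i * t * i) (hμ : 0 < μ) (hμ' : 0 < μ') (hne : μ ≠ μ')
    (H : ∀ (s : ℝ) (hs : s ≠ 0), ∃ ρ : A →* G3, ρ t = mT hs ∧ ρ i = mI hs 1 ∧ ρ j = mJ hs μ)
    (H' : ∀ (s : ℝ) (hs : s ≠ 0), ∃ ρ : A →* G3, ρ t = mT hs ∧ ρ i = mI hs 1 ∧ ρ j = mJ hs μ')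
    {x1 x2 x3 : A} (h1 : x1 ∈ Subgroup.closure {t, i}) (h2 : x2 ∈ Subgroup.closure {t, i})
    (h3 : x3 ∈ Subgroup.closure {t, i}) (n2 : x2 ∉ Subgroup.zpowers t) {b1 b2 b3 : ℤ} (c1 : b1 ≠ 0)
    (c2 : b2 ≠ 0) : x1 * j ^ b1 * x2 * j ^ b2 * x3 * j ^ b3 ≠ 1 := by
  intro h
  have h' : x1 * j ^ b1 * x2 * j ^ b2 * x3 * j ^ b3 = t ^ (0 : ℤ) := by rw [h, zpow_zero]
  have key : ∀ (s : ℝ) (hs : s ≠ 0), 0 < s → s ≠ 1 → ∀ ρ : A →* G3, ρ t = mT hs → ρ i = mI hs 1 →
      ρ j = mJ hs μ → (ρ x2 (0, 0, 1)).2.1 = 0 := by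
    intro s hs hs0 hs1 ρ ht hi hj
    obtain ⟨σ, ht', hi', hj'⟩ := H' s hs
    have e1 := eq_three hs0 hs1 one_pos hμ ht hi hj h1 h2 h3 h'
    have e1' := eq_three hs0 hs1 one_pos hμ' ht' hi' hj' h1 h2 h3 h'
    rw [rho_congr (ht'.trans ht.symm) (hi'.trans hi.symm) h2] at e1'
    have e2 : (μ - μ') * (s * be s b1 * be s b2 * (ρ x2 (0, 0, 1)).2.1) = 0 := by linarith
    have e3 := (mul_eq_zero.1 e2).resolve_left (sub_ne_zero.2 hne)
    exact (mul_eq_zero.1 e3).resolve_left (mul_ne_zero (mul_ne_zero hs (be_ne_zero hs0 c1)) (be_ne_zero hs0 c2))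
  obtain ⟨ρ, ht, hi, hj⟩ := H 2 (by norm_num)
  obtain ⟨σ, ht', hi', hj'⟩ := H (1 / 2) (by norm_num)
  exact n2 (mem3 hbr ht hi ht' hi' h2 (key 2 _ (by norm_num) (by norm_num) ρ ht hi hj)
    (key (1 / 2) _ (by norm_num) (by norm_num) σ ht' hi' hj'))

end words

/-! ### The theorem -/

section main

variable {S : Type} (M : CoxeterMatrix S)

theorem par_pair (i t : S) : Par M {i, t} = Subgroup.closure {gen M t, gen M i} := by
  rw [Helper54.EV.Par, Set.image_pair, Set.pair_comm]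

theorem par_single (t : S) : Par M {t} = Subgroup.zpowers (gen M t) := by
  rw [Helper54.EV.Par, Set.image_singleton, Subgroup.zpowers_eq_closure]

/-- The spherical chains. -/
theorem labels {m p : ℕ} (hm : 3 ≤ m) (hp : 3 ≤ p) (h : (1 : ℚ) < 1 / m + 1 / 2 + 1 / p) :
    (p = 3 ∧ m = 3) ∨ (p = 3 ∧ m = 4) ∨ (p = 3 ∧ m = 5) ∨ (p = 4 ∧ m = 3) ∨ (p = 5 ∧ m = 3) := by
  have key : ∀ {m p : ℕ}, 3 ≤ m → 3 ≤ p → (1 : ℚ) < 1 / m + 1 / 2 + 1 / p → m ≤ 5 := by
    intro m p hm hp h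
    by_contra hlt
    have h1 : (6 : ℚ) ≤ m := by
      have : 6 ≤ m := by omega
      exact_mod_cast this
    have h2 : (3 : ℚ) ≤ p := by exact_mod_cast hp
    have h3 : (1 : ℚ) / m ≤ 1 / 6 := one_div_le_one_div_of_le (by norm_num) h1
    have h4 : (1 : ℚ) / p ≤ 1 / 3 := one_div_le_one_div_of_le (by norm_num) h2
    linarith
  have hm5 := key hm hp h
  have hp5 := key hp hm (by linarith)
  interval_cases m <;> interval_cases p <;> first | omega | (exfalso; norm_num at h)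

variable {M}

theorem chain_rho {i j t : S} (hij : i ≠ j) (hit : i ≠ t) (hjt : j ≠ t)
    (hS : ∀ x, x = i ∨ x = j ∨ x = t) (h2 : M j t = 2) {ν μ : ℝ}
    (h1 : ∀ (s : ℝ) (hs : s ≠ 0), alt (mT hs) (mI hs ν) (M i t) = alt (mI hs ν) (mT hs) (M i t))
    (h3 : ∀ (s : ℝ) (hs : s ≠ 0), alt (mI hs ν) (mJ hs μ) (M i j) = alt (mJ hs μ) (mI hs ν) (M i j))
    (s : ℝ) (hs : s ≠ 0) :
    ∃ ρ : ArtinGroup M →* G3, ρ (gen M t) = mT hs ∧ ρ (gen M i) = mI hs ν ∧ ρ (gen M j) = mJ hs μ := by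
  refine exists_hom M hij hit hjt hS (mT hs) (mI hs ν) (mJ hs μ) ?_ ?_ (h3 s hs)
  · rw [M.symmetric]
    exact h1 s hs
  · rw [M.symmetric, h2]
    exact alt_TJ hs μ

/-- **The chains.** -/
theorem rg_chain {i j t : S} (hij : i ≠ j) (hit : i ≠ t) (hjt : j ≠ t)
    (hS : ∀ x, x = i ∨ x = j ∨ x = t) (h : Sp3 M i j t) (h2 : M j t = 2) (hm : 3 ≤ M i j)
    (hp : 3 ≤ M i t) : RG (Par M {t}) (Par M {i, t}) (Par M {j, t}) (M i j) := by
  have hl := labels hm hp (by
    have := h.2.2.2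
    rw [h2] at this
    exact_mod_cast this)
  have hm5 : M i j ≤ 5 := by omega
  have hrel : alt (gen M t) (gen M i) (M i t) = alt (gen M i) (gen M t) (M i t) := by
    have := artin_braid M t i (by rw [M.symmetric]; omega)
    rwa [M.symmetric t i] at this
  refine rg_red hij hjt h2 hm5 ?_ ?_ ?_
  · intro _ x1 x2 h1 n1 h2' n2 b1 b2 c1 c2
    rw [par_pair] at h1 h2'
    rw [par_single] at n1 n2
    rcases hl with ⟨hp, hm⟩ | ⟨hp, hm⟩ | ⟨hp, hm⟩ | ⟨hp, hm⟩ | ⟨hp, hm⟩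
    · rw [hp] at hrel
      simp only [alt, mul_one] at hrel
      refine words_two (μ := 1) (by simpa only [mul_assoc] using hrel) one_pos
        (chain_rho hij hit hjt hS h2 (fun s hs => ?_) (fun s hs => ?_)) h1 h2' n2 c1
      · rw [hp]
        exact alt_TI_3 hs
      · rw [hm]
        exact alt_IJ_3 hs 1
    · rw [hp] at hrel
      simp only [alt, mul_one] at hrel
      refine words_two (μ := 2) (by simpa only [mul_assoc] using hrel) two_pos
        (chain_rho hij hit hjt hS h2 (fun s hs => ?_) (fun s hs => ?_)) h1 h2' n2 c1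
      · rw [hp]
        exact alt_TI_3 hs
      · rw [hm]
        exact alt_IJ_4 hs 1
    · rw [hp] at hrel
      simp only [alt, mul_one] at hrel
      refine words_two (μ := lm) (by simpa only [mul_assoc] using hrel) lm_pos
        (chain_rho hij hit hjt hS h2 (fun s hs => ?_) (fun s hs => ?_)) h1 h2' n2 c1
      · rw [hp]
        exact alt_TI_3 hs
      · rw [hm]
        exact alt_IJ_5 hs 1 lm lm_sq
    · rw [hp] at hrel
      simp only [alt, mul_one] at hrel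
      refine words_two4 (μ := 1) (by simpa only [mul_assoc] using hrel) one_pos
        (chain_rho hij hit hjt hS h2 (fun s hs => ?_) (fun s hs => ?_)) h1 h2' n2 c1
      · rw [hp]
        exact alt_TI_4 hs
      · rw [hm]
        exact alt_IJ_3 hs 2
    · rw [hp] at hrel
      simp only [alt, mul_one] at hrel
      refine words_two5 (μ := 1) (by simpa only [mul_assoc] using hrel) lp_sq two_lt_lp one_pos
        (chain_rho hij hit hjt hS h2 (fun s hs => ?_) (fun s hs => ?_)) h1 h2' n2 c1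
      · rw [hp]
        exact alt_TI_5 hs lp lp_sq
      · rw [hm]
        exact alt_IJ_3 hs lp
  · intro hm4 x1 x2 x3 h1 n1 h2' n2 h3 n3 b1 b2 b3 c1 c2 c3
    rw [par_pair] at h1 h2' h3
    rw [par_single] at n1 n2
    have hl' : (M i t = 3 ∧ M i j = 4) ∨ (M i t = 3 ∧ M i j = 5) := by omega
    rcases hl' with ⟨hp, hm⟩ | ⟨hp, hm⟩
    · rw [hp] at hrel
      simp only [alt, mul_one] at hrel
      obtain ⟨ε, et, ei, ej⟩ := exists_hom M hij hit hjt hS (1 : Multiplicative ℤ) 1 (Multiplicative.ofAdd 1)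
        rfl (by rw [M.symmetric, h2]; simp only [alt, mul_one, one_mul])
        (by rw [hm]; simp only [alt, mul_one, one_mul])
      refine words_three4 (μ := 2) (by simpa only [mul_assoc] using hrel) two_pos
        (chain_rho hij hit hjt hS h2 (fun s hs => ?_) (fun s hs => ?_)) et ei ej h1 h2' h3 n2 c1 c2
      · rw [hp]
        exact alt_TI_3 hs
      · rw [hm]
        exact alt_IJ_4 hs 1
    · rw [hp] at hrel
      simp only [alt, mul_one] at hrel
      refine words_three5 (μ := lp) (μ' := lm) (by simpa only [mul_assoc] using hrel)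
        (by linarith [two_lt_lp]) lm_pos lp_ne_lm
        (chain_rho hij hit hjt hS h2 (fun s hs => ?_) (fun s hs => ?_))
        (chain_rho hij hit hjt hS h2 (fun s hs => ?_) (fun s hs => ?_)) h1 h2' h3 n2 c1 c2
      · rw [hp]
        exact alt_TI_3 hs
      · rw [hm]
        exact alt_IJ_5 hs 1 lp lp_sq
      · rw [hp]
        exact alt_TI_3 hs
      · rw [hm]
        exact alt_IJ_5 hs 1 lm lm_sq
  · intro hm5' x1 x2 x3 x4 h1 n1 h2' n2 h3 n3 h4 n4 b1 b2 b3 b4 c1 c2 c3 c4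
    rw [par_pair] at h1 h2' h3 h4
    rw [par_single] at n1 n2 n3
    have hl' : M i t = 3 ∧ M i j = 5 := by omega
    obtain ⟨hp, hm⟩ := hl'
    rw [hp] at hrel
    simp only [alt, mul_one] at hrel
    refine four_ne (μ := lp) (μ' := lm) (by simpa only [mul_assoc] using hrel) lp_sq lm_sq lp_ne_lm
      (by linarith [two_lt_lp]) lm_pos
      (chain_rho hij hit hjt hS h2 (fun s hs => ?_) (fun s hs => ?_))
      (chain_rho hij hit hjt hS h2 (fun s hs => ?_) (fun s hs => ?_)) h1 h2' h3 h4 n1 n2 n3 c1 c2 c3 c4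
    · rw [hp]
      exact alt_TI_3 hs
    · rw [hm]
      exact alt_IJ_5 hs 1 lp lp_sq
    · rw [hp]
      exact alt_TI_3 hs
    · rw [hm]
      exact alt_IJ_5 hs 1 lm lm_sq

theorem sp3_swap {i j t : S} (h : Sp3 M i j t) : Sp3 M j i t := by
  obtain ⟨h1, h2, h3, h4⟩ := h
  refine ⟨by rwa [M.symmetric], h3, h2, ?_⟩
  rw [M.symmetric j i]
  linarith

/-- **The relative girth over one generator in a spherical triple.** -/
theorem rg_one : RgOne := by
  intro S M i j t hij hit hjt hS h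
  have one_ne : ∀ {a b : S}, a ≠ b → M a b ≠ 1 := fun hab => M.off_diagonal _ _ hab
  by_cases h2 : M i j = 2
  · exact rg_label_two hij h2
  have hm : 3 ≤ M i j := by
    have := h.1
    have := one_ne hij
    omega
  by_cases hj2 : M j t = 2
  · by_cases hi2 : M i t = 2
    · have : Finite S := by
        have h3 : (Set.univ : Set S).Finite := by
          refine (Set.toFinite {i, j, t}).subset fun x _ => ?_
          rcases hS x with rfl | rfl | rfl
          · exact Or.inl rfl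
          · exact Or.inr (Or.inl rfl)
          · exact Or.inr (Or.inr rfl)
        exact Set.finite_univ_iff.1 h3
      have hT : ∀ u ∈ ({t} : Set S), ∀ v, v ∉ ({t} : Set S) → Even (M u v) := by
        rintro u rfl v hv
        rcases hS v with rfl | rfl | rfl
        · rw [M.symmetric, hi2]
          exact even_two
        · rw [M.symmetric, hj2]
          exact even_two
        · exact absurd rfl hv
      exact rg_commute' hT hij h.1 (fun e => hit e) (fun e => hjt e)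
        (by rintro u rfl; rw [M.symmetric]; exact hi2) (by rintro u rfl; rw [M.symmetric]; exact hj2)
    · have hp : 3 ≤ M i t := by
        have := h.2.2.1
        have := one_ne hit
        omega
      exact rg_chain hij hit hjt hS h hj2 hm hp
  · have hq : 3 ≤ M j t := by
      have := h.2.1
      have := one_ne hjt
      omega
    by_cases hi2 : M i t = 2
    · have h3 := rg_chain (M := M) (Ne.symm hij) hjt hit (fun x => by
        rcases hS x with h | h | h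
        · exact Or.inr (Or.inl h)
        · exact Or.inl h
        · exact Or.inr (Or.inr h)) (sp3_swap h) hi2 (by rw [M.symmetric]; exact hm) hq
      rw [M.symmetric j i] at h3
      exact rg_swap h3
    · exfalso
      have hp : 3 ≤ M i t := by
        have := h.2.2.1
        have := one_ne hit
        omega
      have h4 := h.2.2.2
      have e1 : (1 : ℚ) / M i j ≤ 1 / 3 := one_div_le_one_div_of_le (by norm_num) (by exact_mod_cast hm)
      have e2 : (1 : ℚ) / M j t ≤ 1 / 3 := one_div_le_one_div_of_le (by norm_num) (by exact_mod_cast hq)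
      have e3 : (1 : ℚ) / M i t ≤ 1 / 3 := one_div_le_one_div_of_le (by norm_num) (by exact_mod_cast hp)
      linarith

end main

end Pool.Agent.RG1
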