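import Pool.Agent.Helper54.LA.Lim

/-!
# The generalized Burau representation of the three-generator chains

Chain `t - i - j`: for a real number `s ≠ 0` and parameters `ν` (for the label of `t` and `i`) and
`μ` (for the label of `i` and `j`) three linear automorphisms of `ℝ³`. The parameter is `1` for the
label 3, `2` for the label 4, and it satisfies `ν ^ 2 = 3 ν - 1` for the label 5.
-/

set_option autoImplicit false

namespace Pool.Agent.RG1

open Pool.Agent.Helper54.LA Pool.Agent.Helper13.LT

/-- The space of the representation, the coordinates are named `t`, `i`, `j`. -/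
abbrev V3 : Type := ℝ × ℝ × ℝ

/-- The linear automorphisms. -/
abbrev G3 : Type := V3 ≃ₗ[ℝ] V3

section maps

variable {s : ℝ} (hs : s ≠ 0) (ν μ : ℝ)

/-- The image of `t`. -/
noncomputable def mT : G3 where
  toFun v := (s * v.1 - s * v.2.1, v.2.1, v.2.2)
  invFun v := (s⁻¹ * v.1 + v.2.1, v.2.1, v.2.2)
  map_add' u v := by
    ext
    · simp only [Prod.fst_add, Prod.snd_add]; ring
    · simp only [Prod.fst_add, Prod.snd_add]
    · simp only [Prod.snd_add]
  map_smul' c v := by
    ext
    · simp only [Prod.smul_fst, Prod.smul_snd, smul_eq_mul, RingHom.id_apply]; ring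
    · simp only [Prod.smul_fst, Prod.smul_snd, smul_eq_mul, RingHom.id_apply]
    · simp only [Prod.smul_snd, smul_eq_mul, RingHom.id_apply]
  left_inv v := by
    ext
    · change s⁻¹ * (s * v.1 - s * v.2.1) + v.2.1 = v.1
      field_simp
      ring
    · rfl
    · rfl
  right_inv v := by
    ext
    · change s * (s⁻¹ * v.1 + v.2.1) - s * v.2.1 = v.1
      field_simp
      ring
    · rfl
    · rfl

/-- The image of `i`. -/
noncomputable def mI : G3 where
  toFun v := (v.1, s * v.2.1 + ν * v.1 - v.2.2, v.2.2)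
  invFun v := (v.1, s⁻¹ * (v.2.1 - ν * v.1 + v.2.2), v.2.2)
  map_add' u v := by
    ext
    · simp only [Prod.fst_add]
    · simp only [Prod.fst_add, Prod.snd_add]; ring
    · simp only [Prod.snd_add]
  map_smul' c v := by
    ext
    · simp only [Prod.smul_fst, smul_eq_mul, RingHom.id_apply]
    · simp only [Prod.smul_fst, Prod.smul_snd, smul_eq_mul, RingHom.id_apply]; ring
    · simp only [Prod.smul_snd, smul_eq_mul, RingHom.id_apply]
  left_inv v := by
    ext
    · rfl
    · change s⁻¹ * (s * v.2.1 + ν * v.1 - v.2.2 - ν * v.1 + v.2.2) = v.2.1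
      field_simp
      ring
    · rfl
  right_inv v := by
    ext
    · rfl
    · change s * (s⁻¹ * (v.2.1 - ν * v.1 + v.2.2)) + ν * v.1 - v.2.2 = v.2.1
      field_simp
      ring
    · rfl

/-- The image of `j`. -/
noncomputable def mJ : G3 where
  toFun v := (v.1, v.2.1, s * v.2.2 + μ * s * v.2.1)
  invFun v := (v.1, v.2.1, s⁻¹ * v.2.2 - μ * v.2.1)
  map_add' u v := by
    ext
    · simp only [Prod.fst_add]
    · simp only [Prod.fst_add, Prod.snd_add]
    · simp only [Prod.fst_add, Prod.snd_add]; ring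
  map_smul' c v := by
    ext
    · simp only [Prod.smul_fst, smul_eq_mul, RingHom.id_apply]
    · simp only [Prod.smul_fst, Prod.smul_snd, smul_eq_mul, RingHom.id_apply]
    · simp only [Prod.smul_fst, Prod.smul_snd, smul_eq_mul, RingHom.id_apply]; ring
  left_inv v := by
    ext
    · rfl
    · rfl
    · change s⁻¹ * (s * v.2.2 + μ * s * v.2.1) - μ * v.2.1 = v.2.2
      field_simp
      ring
  right_inv v := by
    ext
    · rfl
    · rfl
    · change s * (s⁻¹ * v.2.2 - μ * v.2.1) + μ * s * v.2.1 = v.2.2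
      field_simp
      ring

theorem mT_apply (x y z : ℝ) : mT hs (x, y, z) = (s * x - s * y, y, z) := rfl

theorem mI_apply (x y z : ℝ) : mI hs ν (x, y, z) = (x, s * y + ν * x - z, z) := rfl

theorem mJ_apply (x y z : ℝ) : mJ hs μ (x, y, z) = (x, y, s * z + μ * s * y) := rfl

theorem mul_app (f g : G3) (v : V3) : (f * g) v = f (g v) := rfl

theorem one_app (v : V3) : (1 : G3) v = v := rfl

theorem ext3 {f g : G3} (h : ∀ x y z, f (x, y, z) = g (x, y, z)) : f = g :=
  LinearEquiv.ext fun v => h v.1 v.2.1 v.2.2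

/-! ### The relations -/

theorem rel_TJ : mT hs * mJ hs μ = mJ hs μ * mT hs := by
  refine ext3 fun x y z => ?_
  simp only [mul_app, mT_apply, mJ_apply]

theorem alt_TJ : alt (mT hs) (mJ hs μ) 2 = alt (mJ hs μ) (mT hs) 2 := by
  simp only [alt, mul_one]
  exact rel_TJ hs μ

theorem alt_TI_3 : alt (mT hs) (mI hs 1) 3 = alt (mI hs 1) (mT hs) 3 := by
  simp only [alt, mul_one]
  refine ext3 fun x y z => ?_
  simp only [mul_app, mT_apply, mI_apply, Prod.mk.injEq]
  refine ⟨by ring, by ring, trivial⟩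

theorem alt_TI_4 : alt (mT hs) (mI hs 2) 4 = alt (mI hs 2) (mT hs) 4 := by
  simp only [alt, mul_one]
  refine ext3 fun x y z => ?_
  simp only [mul_app, mT_apply, mI_apply, Prod.mk.injEq]
  refine ⟨by ring, by ring, trivial⟩

theorem alt_TI_5 (hν : ν ^ 2 = 3 * ν - 1) : alt (mT hs) (mI hs ν) 5 = alt (mI hs ν) (mT hs) 5 := by
  simp only [alt, mul_one]
  refine ext3 fun x y z => ?_
  simp only [mul_app, mT_apply, mI_apply, Prod.mk.injEq]
  refine ⟨?_, ?_, ?_⟩
  · linear_combination (x * s ^ 3 - x * s ^ 2 - y * s ^ 3) * hν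
  · linear_combination (- x * s ^ 2 * ν - y * s ^ 3 + y * s ^ 2 + z * s ^ 2) * hν
  · trivial

theorem alt_IJ_3 : alt (mI hs ν) (mJ hs 1) 3 = alt (mJ hs 1) (mI hs ν) 3 := by
  simp only [alt, mul_one]
  refine ext3 fun x y z => ?_
  simp only [mul_app, mI_apply, mJ_apply, Prod.mk.injEq]
  refine ⟨trivial, by ring, by ring⟩

theorem alt_IJ_4 : alt (mI hs ν) (mJ hs 2) 4 = alt (mJ hs 2) (mI hs ν) 4 := by
  simp only [alt, mul_one]
  refine ext3 fun x y z => ?_
  simp only [mul_app, mI_apply, mJ_apply, Prod.mk.injEq]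
  refine ⟨trivial, by ring, by ring⟩

theorem alt_IJ_5 (hμ : μ ^ 2 = 3 * μ - 1) : alt (mI hs ν) (mJ hs μ) 5 = alt (mJ hs μ) (mI hs ν) 5 := by
  simp only [alt, mul_one]
  refine ext3 fun x y z => ?_
  simp only [mul_app, mI_apply, mJ_apply, Prod.mk.injEq]
  refine ⟨?_, ?_, ?_⟩
  · trivial
  · linear_combination (x * s ^ 2 * ν + y * s ^ 3 - y * s ^ 2 - z * s ^ 2) * hμ
  · linear_combination (- y * s ^ 3 * μ - z * s ^ 3 + z * s ^ 2) * hμ

end maps

/-! ### Homomorphisms of the chains -/

section hom

variable {S : Type} (M : CoxeterMatrix S)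

theorem exists_hom {i j t : S} (hij : i ≠ j) (hit : i ≠ t) (hjt : j ≠ t)
    (hS : ∀ x, x = i ∨ x = j ∨ x = t) {G : Type} [Group G] (T I J : G)
    (h1 : alt T I (M t i) = alt I T (M t i)) (h2 : alt T J (M t j) = alt J T (M t j))
    (h3 : alt I J (M i j) = alt J I (M i j)) :
    ∃ ρ : ArtinGroup M →* G, ρ (PresentedGroup.of t) = T ∧ ρ (PresentedGroup.of i) = I ∧
      ρ (PresentedGroup.of j) = J := by
  classical
  let f : S → G := fun x => if x = t then T else if x = i then I else J
  have ft : f t = T := if_pos rfl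
  have fi : f i = I := by
    change (if i = t then T else if i = i then I else J) = I
    rw [if_neg hit, if_pos rfl]
  have fj : f j = J := by
    change (if j = t then T else if j = i then I else J) = J
    rw [if_neg hjt, if_neg (Ne.symm hij)]
  refine ⟨artinLift M f ?_, ?_, ?_, ?_⟩
  · intro a b _
    rcases hS a with rfl | rfl | rfl <;> rcases hS b with rfl | rfl | rfl
    · rfl
    · rw [fi, fj]
      exact h3
    · rw [fi, ft, M.symmetric]
      exact h1.symm
    · rw [fi, fj, M.symmetric]
      exact h3.symm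
    · rfl
    · rw [fj, ft, M.symmetric]
      exact h2.symm
    · rw [fi, ft]
      exact h1
    · rw [fj, ft]
      exact h2
    · rfl
  · rw [artinLift_of, ft]
  · rw [artinLift_of, fi]
  · rw [artinLift_of, fj]

end hom

end Pool.Agent.RG1
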