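import Pool.Agent.RG1.Main

/-!
# The step theorem with smaller labels
-/

set_option autoImplicit false

namespace Pool.Agent.RG1

open Pool.Agent.Helper54.LA Pool.Agent.Helper54.EV Pool.Agent.Helper29.BA Pool.Agent.Helper13.LT
  Pool.Agent.Helper29.PA Pool.Agent.Helper3.FJ Pool.Agent.Helper9.EV Pool.Agent.Helper9.TD
  Pool.Agent.Helper83.EV Pool.Agent.AIR

open scoped MatrixGroups

variable {S : Type} {M : CoxeterMatrix S}

/-- Relative systems with smaller labels. -/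
theorem rs_par' {T : Set S} (M' : CoxeterMatrix ↥Tᶜ) (hz : ∀ s t : ↥Tᶜ, M' s t = 0 ↔ M s t = 0)
    (h : ∀ s t : ↥Tᶜ, s ≠ t → M' s t ≠ 0 →
      RG (Par M T) (Par M (insert s.1 T)) (Par M (insert t.1 T)) (M' s t)) :
    RS M' (Par M T) (fun x : ↥Tᶜ => Par M (insert x.1 T)) where
  le := fun s => par_mono M (Set.subset_insert _ _)
  gen := by
    rw [eq_top_iff, ← par_univ, Par, Subgroup.closure_le]
    rintro _ ⟨s, -, rfl⟩
    by_cases hs : s ∈ T
    · exact (le_sup_left : Par M T ≤ _) (gen_mem M hs)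
    · refine (le_sup_right : (⨆ x : ↥Tᶜ, Par M (insert x.1 T)) ≤ _) ?_
      exact (le_iSup (fun x : ↥Tᶜ => Par M (insert x.1 T)) ⟨s, hs⟩)
        (gen_mem M (Set.mem_insert _ _))
  amal := by
    have hSJ : ∀ J : Finset ↥Tᶜ, SJ M' J ↔ SJ (Pool.Agent.Helper54.LA.res M Tᶜ) J := by
      intro J
      unfold SJ
      refine and_congr Iff.rfl (forall_congr' fun s => forall_congr' fun _ => forall_congr' fun t =>
        forall_congr' fun _ => not_congr ?_)
      exact hz s t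
    intro K _ φ h1 h2
    obtain ⟨Φ, hΦ⟩ := amal_par (M := M) T K φ (fun J hJ => h1 J ((hSJ J).2 hJ))
      (fun J J' hJJ hJ' => h2 J J' hJJ ((hSJ J').2 hJ'))
    exact ⟨Φ, fun J hJ => hΦ J ((hSJ J).1 hJ)⟩
  rg := h

/-- **The step theorem** with smaller labels. -/
theorem step' {C : ∀ (G : Type) [Group G], Prop} (hE : ExtClass C) (hC : CatClass C)
    (hGL : ∀ n, C (GL (Fin n) ℤ)) [Finite S] {T : Set S} (M' : CoxeterMatrix ↥Tᶜ)
    (hz : ∀ s t : ↥Tᶜ, M' s t = 0 ↔ M s t = 0) (h2 : TwoDim M')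
    (hJ : ∀ J : Finset ↥Tᶜ, SJ M' J → T ∪ Subtype.val '' (J : Set ↥Tᶜ) ≠ Set.univ)
    (hrg : ∀ s t : ↥Tᶜ, s ≠ t → M' s t ≠ 0 →
      RG (Par M T) (Par M (insert s.1 T)) (Par M (insert t.1 T)) (M' s t))
    (ih : ∀ Y : Set S, Y ≠ Set.univ → C (ArtinGroup (Pool.Agent.Helper54.LA.res M Y))) :
    C (ArtinGroup M) := by
  refine hE.ext (ArtinGroup M) M.Group (pr M) (coxeter_mem M hC.toClosedClass hGL) fun w => ?_
  obtain ⟨V, _, X, τ, c0, hTK, hA, hX, -, -, -, -, h8, h9⟩ :=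
    Pool.Agent.Helper63.EV.rel_cx (rs_par' M' hz hrg)
  have hA' : ActsI ((Subgroup.zpowers w).comap (pr M)) X τ :=
    ⟨⟨fun g u v h => hA.acts.1 g.1 u v h, fun g u v x h => hA.acts.2 g.1 u v x h⟩,
      fun g v => hA.inv g.1 v⟩
  refine Pool.Agent.Helper13.EV.mainI hC hE h2 hTK hA' hX fun K => ?_
  obtain ⟨Q, hQ, f, hCQ, hf⟩ := exists_joint hC.toClosedClass
    (G := (Subgroup.zpowers w).comap (pr M)) K (fun v => {x | x • v = v → x = 1}) fun v => by
      obtain ⟨g, hg⟩ := h8 v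
      obtain ⟨Q, hQ, f, hCQ, hf⟩ := vertex_hom hE (M := M) (hJ (τ v) (h9 v)) ih
        ((pr M g)⁻¹ * w * pr M g)
      let φ : (Subgroup.zpowers w).comap (pr M) →*
          (Subgroup.zpowers ((pr M g)⁻¹ * w * pr M g)).comap (pr M) :=
        ((MulAut.conj g⁻¹).toMonoidHom.comp (Subgroup.subtype _)).codRestrict _ (by
          rintro ⟨x, hx⟩
          obtain ⟨k, hk⟩ := hx
          refine ⟨k, ?_⟩
          change ((pr M g)⁻¹ * w * pr M g) ^ k = pr M (g⁻¹ * x * g⁻¹⁻¹)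
          have e : (pr M g)⁻¹ * w * pr M g = (pr M g)⁻¹ * w * (pr M g)⁻¹⁻¹ := by rw [inv_inv]
          rw [e, conj_zpow, map_mul, map_mul, map_inv, map_inv, map_inv]
          change _ * (w ^ k) * _ = _
          change w ^ k = pr M x at hk
          rw [hk])
      refine ⟨Q, hQ, f.comp φ, hCQ, fun x hx hxv => ?_⟩
      have hy := (hg x.1).1 hxv
      rw [pj_par, par_eq_range] at hy
      have h3 : φ x = 1 := by
        refine hf (φ x) ?_ hx
        change g⁻¹ * x.1 * g⁻¹⁻¹ ∈ _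
        rw [inv_inv]
        exact hy
      have h4 : g⁻¹ * x.1 * g⁻¹⁻¹ = 1 := congrArg Subtype.val h3
      rw [inv_inv, mul_assoc, inv_mul_eq_one] at h4
      exact Subtype.ext (mul_eq_right.1 h4.symm)
  exact ⟨Q, hQ, f, hCQ, fun v hv x hxv hx => hf x hx v hv hxv⟩

end Pool.Agent.RG1
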